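import Mathlib
set_option autoImplicit false
namespace Pool.Agent.H174.Campbell

/-- coefficient of `h ^ 0` -/
noncomputable def p0 (a b d e : ℝ) : ℝ :=
    (27/4) * a^4 * d^2 * e^3 + (39/4) * a^4 * d^3 * e^2 + (19/4) * a^4 * d^4 * e^1
     + (3/4) * a^4 * d^5 + (27/16) * a^3 * b^1 * e^5 + (27/8) * a^3 * b^1 * d^1 * e^4
     + (153/8) * a^3 * b^1 * d^2 * e^3 + 34 * a^3 * b^1 * d^3 * e^2
     + (331/16) * a^3 * b^1 * d^4 * e^1 + (33/8) * a^3 * b^1 * d^5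
     + (153/32) * a^2 * b^2 * e^5 + (51/4) * a^2 * b^2 * d^1 * e^4
     + (421/16) * a^2 * b^2 * d^2 * e^3 + 41 * a^2 * b^2 * d^3 * e^2
     + (965/32) * a^2 * b^2 * d^4 * e^1 + (15/2) * a^2 * b^2 * d^5 + (9/2) * a^1 * b^3 * e^5
     + 15 * a^1 * b^3 * d^1 * e^4 + (45/2) * a^1 * b^3 * d^2 * e^3
     + (45/2) * a^1 * b^3 * d^3 * e^2 + 15 * a^1 * b^3 * d^4 * e^1 + (9/2) * a^1 * b^3 * d^5
     + (45/32) * b^4 * e^5 + (45/8) * b^4 * d^1 * e^4 + (135/16) * b^4 * d^2 * e^3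
     + (45/8) * b^4 * d^3 * e^2 + (45/32) * b^4 * d^4 * e^1

lemma p0_nonneg (a b d e : ℝ) (ha : 0 ≤ a) (hb : 0 ≤ b) (hd : 0 ≤ d) (he : 0 ≤ e) :
    0 ≤ p0 a b d e := by
  unfold p0; positivity

/-- coefficient of `h ^ 1` -/
noncomputable def p1 (a b d e : ℝ) : ℝ :=
    (27/4) * a^4 * d^1 * e^3 + (99/4) * a^4 * d^2 * e^2 + (77/4) * a^4 * d^3 * e^1
     + (17/4) * a^4 * d^4 + (27/4) * a^3 * b^1 * e^4 + (117/4) * a^3 * b^1 * d^1 * e^3
     + (321/4) * a^3 * b^1 * d^2 * e^2 + (295/4) * a^3 * b^1 * d^3 * e^1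
     + 20 * a^3 * b^1 * d^4 + (309/16) * a^2 * b^2 * e^4 + (907/16) * a^2 * b^2 * d^1 * e^3
     + (1615/16) * a^2 * b^2 * d^2 * e^2 + (1505/16) * a^2 * b^2 * d^3 * e^1
     + (61/2) * a^2 * b^2 * d^4 + (147/8) * a^1 * b^3 * e^4
     + (413/8) * a^1 * b^3 * d^1 * e^3 + (505/8) * a^1 * b^3 * d^2 * e^2
     + (359/8) * a^1 * b^3 * d^3 * e^1 + 15 * a^1 * b^3 * d^4 + (93/16) * b^4 * e^4
     + (279/16) * b^4 * d^1 * e^3 + (279/16) * b^4 * d^2 * e^2 + (93/16) * b^4 * d^3 * e^1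

lemma p1_nonneg (a b d e : ℝ) (ha : 0 ≤ a) (hb : 0 ≤ b) (hd : 0 ≤ d) (he : 0 ≤ e) :
    0 ≤ p1 a b d e := by
  unfold p1; positivity

/-- coefficient of `h ^ 2` -/
noncomputable def p2 (a b d e : ℝ) : ℝ :=
    (27/2) * a^4 * d^1 * e^2 + 24 * a^4 * d^2 * e^1 + (17/2) * a^4 * d^3
     + 9 * a^3 * b^1 * e^3 + 48 * a^3 * b^1 * d^1 * e^2 + 81 * a^3 * b^1 * d^2 * e^1
     + 34 * a^3 * b^1 * d^3 + (209/8) * a^2 * b^2 * e^3 + (289/4) * a^2 * b^2 * d^1 * e^2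
     + (769/8) * a^2 * b^2 * d^2 * e^1 + 44 * a^2 * b^2 * d^3 + (101/4) * a^1 * b^3 * e^3
     + 54 * a^1 * b^3 * d^1 * e^2 + (189/4) * a^1 * b^3 * d^2 * e^1
     + (37/2) * a^1 * b^3 * d^3 + (65/8) * b^4 * e^3 + (65/4) * b^4 * d^1 * e^2
     + (65/8) * b^4 * d^2 * e^1

lemma p2_nonneg (a b d e : ℝ) (ha : 0 ≤ a) (hb : 0 ≤ b) (hd : 0 ≤ d) (he : 0 ≤ e) :
    0 ≤ p2 a b d e := by
  unfold p2; positivity

/-- coefficient of `h ^ 3` -/
noncomputable def p3 (a b d e : ℝ) : ℝ :=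
    9 * a^4 * d^1 * e^1 + 7 * a^4 * d^2 + 5 * a^3 * b^1 * e^2 + 29 * a^3 * b^1 * d^1 * e^1
     + 24 * a^3 * b^1 * d^2 + (59/4) * a^2 * b^2 * e^2 + (143/4) * a^2 * b^2 * d^1 * e^1
     + 27 * a^2 * b^2 * d^2 + (29/2) * a^1 * b^3 * e^2 + (41/2) * a^1 * b^3 * d^1 * e^1
     + 10 * a^1 * b^3 * d^2 + (19/4) * b^4 * e^2 + (19/4) * b^4 * d^1 * e^1

lemma p3_nonneg (a b d e : ℝ) (ha : 0 ≤ a) (hb : 0 ≤ b) (hd : 0 ≤ d) (he : 0 ≤ e) :
    0 ≤ p3 a b d e := by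
  unfold p3; positivity

/-- coefficient of `h ^ 4` -/
noncomputable def p4 (a b d e : ℝ) : ℝ :=
    2 * a^4 * d^1 + 1 * a^3 * b^1 * e^1 + 6 * a^3 * b^1 * d^1 + 3 * a^2 * b^2 * e^1
     + 6 * a^2 * b^2 * d^1 + 3 * a^1 * b^3 * e^1 + 2 * a^1 * b^3 * d^1 + 1 * b^4 * e^1

lemma p4_nonneg (a b d e : ℝ) (ha : 0 ≤ a) (hb : 0 ≤ b) (hd : 0 ≤ d) (he : 0 ≤ e) :
    0 ≤ p4 a b d e := by
  unfold p4; positivity

theorem poly_id (a b d e h : ℝ) (hab : a = 1 - b) :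
    (2 * ((d + e) / 4) + h + 4 * ((d + e) / 4)) ^ 3 *
        ((2 * ((d + e) / 4) + h) * (2 * ((d + e) / 4) + h + 4 * ((d + e) / 4) - a * d) +
          b ^ 2 * ((d + e) / 4) * d) -
      (2 * ((d + e) / 4) + h + d) * (2 * ((d + e) / 4) + h + 4 * ((d + e) / 4) - a * d) ^ 2 *
        (2 * ((d + e) / 4) + h + 4 * ((d + e) / 4) - a * d - 2 * ((d + e) / 4) * b) ^ 2 =
      p0 a b d e + h * p1 a b d e + h ^ 2 * p2 a b d e + h ^ 3 * p3 a b d e +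
        h ^ 4 * p4 a b d e := by
  subst hab
  unfold p0 p1 p2 p3 p4
  ring

/-- The polynomial inequality. -/
theorem poly_nonneg (a b m d k : ℝ) (ha : 0 ≤ a) (hb : 0 ≤ b) (hab : a + b = 1) (hd : 0 ≤ d)
    (hdm : d ≤ 4 * m) (hk : 2 * m ≤ k) :
    (k + d) * (k + 4 * m - a * d) ^ 2 * (k + 4 * m - a * d - 2 * m * b) ^ 2 ≤
      (k + 4 * m) ^ 3 * (k * (k + 4 * m - a * d) + b ^ 2 * m * d) := by
  have h1 := poly_id a b d (4 * m - d) (k - 2 * m) (by linarith)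
  have e1 : (d + (4 * m - d)) / 4 = m := by ring
  rw [e1] at h1
  have e2 : 2 * m + (k - 2 * m) = k := by ring
  rw [e2] at h1
  have he : 0 ≤ 4 * m - d := by linarith
  have hh : 0 ≤ k - 2 * m := by linarith
  have q0 := p0_nonneg a b d (4 * m - d) ha hb hd he
  have q1 := mul_nonneg hh (p1_nonneg a b d (4 * m - d) ha hb hd he)
  have q2 := mul_nonneg (pow_nonneg hh 2) (p2_nonneg a b d (4 * m - d) ha hb hd he)
  have q3 := mul_nonneg (pow_nonneg hh 3) (p3_nonneg a b d (4 * m - d) ha hb hd he)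
  have q4 := mul_nonneg (pow_nonneg hh 4) (p4_nonneg a b d (4 * m - d) ha hb hd he)
  linarith

/-! ### the inequality for complex numbers -/

/-- real identity data: `X = 1 + a v`, `Y = a + v` -/
lemma normSq_one_add (a : ℝ) (v : ℂ) : ‖1 + (a : ℂ) * v‖ ^ 2 = 1 + 2 * a * v.re + a ^ 2 * ‖v‖ ^ 2 := by
  rw [← Complex.normSq_eq_norm_sq, ← Complex.normSq_eq_norm_sq, Complex.normSq_apply,
    Complex.normSq_apply]
  simp
  ring

lemma normSq_add (a : ℝ) (v : ℂ) : ‖(a : ℂ) + v‖ ^ 2 = a ^ 2 + 2 * a * v.re + ‖v‖ ^ 2 := by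
  rw [← Complex.normSq_eq_norm_sq, ← Complex.normSq_eq_norm_sq, Complex.normSq_apply,
    Complex.normSq_apply]
  simp
  ring

lemma normSq_B (a r : ℝ) (v : ℂ) : ‖(1 + (a : ℂ) * v) - r * ((a : ℂ) + v)‖ ^ 2 =
    (1 - r * a) ^ 2 + 2 * (1 - r * a) * (a - r) * v.re + (a - r) ^ 2 * ‖v‖ ^ 2 := by
  rw [← Complex.normSq_eq_norm_sq, ← Complex.normSq_eq_norm_sq, Complex.normSq_apply,
    Complex.normSq_apply]
  simp
  ring

lemma normSq_M (a : ℝ) (v : ℂ) : ‖(a : ℂ) + 2 * v + a * v ^ 2‖ ^ 2 =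
    (1 + 2 * a * v.re + ‖v‖ ^ 2) ^ 2 - (1 - a ^ 2) * (1 - ‖v‖ ^ 2) ^ 2 := by
  rw [← Complex.normSq_eq_norm_sq, ← Complex.normSq_eq_norm_sq, Complex.normSq_apply,
    Complex.normSq_apply]
  simp [pow_two]
  ring

lemma normSq_A (v : ℂ) : ‖1 - v‖ ^ 2 = 1 - 2 * v.re + ‖v‖ ^ 2 := by
  rw [← Complex.normSq_eq_norm_sq, ← Complex.normSq_eq_norm_sq, Complex.normSq_apply,
    Complex.normSq_apply]
  simp
  ring

lemma normSq_A' (v : ℂ) : ‖1 + v‖ ^ 2 = 1 + 2 * v.re + ‖v‖ ^ 2 := by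
  rw [← Complex.normSq_eq_norm_sq, ← Complex.normSq_eq_norm_sq, Complex.normSq_apply,
    Complex.normSq_apply]
  simp
  ring

lemma M_le (a : ℝ) (ha : 0 ≤ a) (ha1 : a ≤ 1) (v : ℂ) : ‖(a : ℂ) + 2 * v + a * v ^ 2‖ ≤
    a * (1 + 2 * v.re + ‖v‖ ^ 2) + 2 * (1 - a) * ‖v‖ := by
  have e : (a : ℂ) + 2 * v + a * v ^ 2 = (a : ℂ) * (1 + v) ^ 2 + ((2 * (1 - a) : ℝ) : ℂ) * v := by
    push_cast; ring
  rw [e]
  refine (norm_add_le _ _).trans ?_
  rw [norm_mul, norm_mul, norm_pow, normSq_A', Complex.norm_real, Complex.norm_real,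
    Real.norm_of_nonneg ha, Real.norm_of_nonneg (by linarith : (0:ℝ) ≤ 2 * (1 - a))]

/-- the case `r = ‖v‖` -/
lemma C1 (a : ℝ) (ha : 0 ≤ a) (ha1 : a ≤ 1) (v : ℂ) (hv1 : ‖v‖ < 1)
    (hv : 4 * ‖v‖ ≤ 1 + ‖v‖ ^ 2) :
    ‖1 - v‖ * (1 + 2 * a * v.re + ‖v‖ ^ 2) *
      ((1 + 2 * a * v.re + ‖v‖ ^ 2) + ‖(a : ℂ) + 2 * v + a * v ^ 2‖) ≤
      (1 + ‖v‖) ^ 3 * (1 + a) * ‖(1 + (a : ℂ) * v) - ‖v‖ * ((a : ℂ) + v)‖ := by
  set m := ‖v‖ with hm
  set x := v.re with hx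
  have hm0 : 0 ≤ m := norm_nonneg _
  have hxm : |x| ≤ m := Complex.abs_re_le_norm v
  have hx1 : x ≤ m := (abs_le.1 hxm).2
  have hx2 : -m ≤ x := (abs_le.1 hxm).1
  have hA := normSq_A v
  have hB := normSq_B a m v
  have hM := M_le a ha ha1 v
  rw [← hm, ← hx] at hA hB hM
  set A := ‖1 - v‖
  set B := ‖(1 + (a : ℂ) * v) - m * ((a : ℂ) + v)‖
  set M := ‖(a : ℂ) + 2 * v + a * v ^ 2‖
  have hA0 : 0 ≤ A := norm_nonneg _
  have hB0 : 0 ≤ B := norm_nonneg _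
  have hM0 : 0 ≤ M := norm_nonneg _
  have hax : -m ≤ a * x := by nlinarith
  have hW : 0 < 1 + 2 * a * x + m ^ 2 := by nlinarith
  -- `W + M ≤ (1 + a) N`
  have hE : (1 + 2 * a * x + m ^ 2) + M ≤ (1 + a) * ((1 + m) ^ 2 - a * (2 * (m - x))) := by
    have : 0 ≤ a * (1 - a) * (m - x) :=
      mul_nonneg (mul_nonneg ha (by linarith)) (by linarith)
    nlinarith
  have hN : 0 ≤ (1 + m) ^ 2 - a * (2 * (m - x)) := by nlinarith
  have hpoly := poly_nonneg a (1 - a) m (2 * (m - x)) ((1 - m) ^ 2) ha (by linarith) (by ring)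
    (by linarith) (by linarith) (by nlinarith)
  have hmain : A * (1 + 2 * a * x + m ^ 2) * ((1 + m) ^ 2 - a * (2 * (m - x))) ≤
      (1 + m) ^ 3 * B := by
    apply le_of_sq_le_sq _ (by positivity)
    have e1 : (A * (1 + 2 * a * x + m ^ 2) * ((1 + m) ^ 2 - a * (2 * (m - x)))) ^ 2 =
        ((1 - m) ^ 2 + 2 * (m - x)) * ((1 - m) ^ 2 + 4 * m - a * (2 * (m - x))) ^ 2 *
        ((1 - m) ^ 2 + 4 * m - a * (2 * (m - x)) - 2 * m * (1 - a)) ^ 2 := by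
      rw [mul_pow, mul_pow, hA]; ring
    have e2 : ((1 + m) ^ 3 * B) ^ 2 = ((1 - m) ^ 2 + 4 * m) ^ 3 *
        ((1 - m) ^ 2 * ((1 - m) ^ 2 + 4 * m - a * (2 * (m - x))) +
          (1 - a) ^ 2 * m * (2 * (m - x))) := by
      rw [mul_pow, hB]; ring
    rw [e1, e2]
    exact hpoly
  calc A * (1 + 2 * a * x + m ^ 2) * ((1 + 2 * a * x + m ^ 2) + M)
      ≤ A * (1 + 2 * a * x + m ^ 2) * ((1 + a) * ((1 + m) ^ 2 - a * (2 * (m - x)))) :=
        mul_le_mul_of_nonneg_left hE (by positivity)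
    _ = (1 + a) * (A * (1 + 2 * a * x + m ^ 2) * ((1 + m) ^ 2 - a * (2 * (m - x)))) := by ring
    _ ≤ (1 + a) * ((1 + m) ^ 3 * B) := mul_le_mul_of_nonneg_left hmain (by linarith)
    _ = (1 + m) ^ 3 * (1 + a) * B := by ring
/-- monotonicity in `r` -/
lemma C2 (X Y : ℂ) (hXY : ‖Y‖ ≤ ‖X‖) (m r : ℝ) (hm : 0 ≤ m) (hmr : m ≤ r) (hr : r < 1) :
    (1 - r) * ‖X - m * Y‖ ≤ (1 - m) * ‖X - r * Y‖ := by
  apply le_of_sq_le_sq _ (mul_nonneg (by linarith) (norm_nonneg _))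
  have key : ∀ t : ℝ, ‖X - t * Y‖ ^ 2 =
      ‖X‖ ^ 2 - 2 * t * (X.re * Y.re + X.im * Y.im) + t ^ 2 * ‖Y‖ ^ 2 := by
    intro t
    rw [← Complex.normSq_eq_norm_sq, ← Complex.normSq_eq_norm_sq, ← Complex.normSq_eq_norm_sq,
      Complex.normSq_apply, Complex.normSq_apply, Complex.normSq_apply]
    simp
    ring
  rw [mul_pow, mul_pow, key, key]
  have hpq : ‖Y‖ ^ 2 ≤ ‖X‖ ^ 2 := pow_le_pow_left₀ (norm_nonneg _) hXY 2
  have hs : 2 * (X.re * Y.re + X.im * Y.im) ≤ ‖X‖ ^ 2 + ‖Y‖ ^ 2 := by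
    rw [← Complex.normSq_eq_norm_sq, ← Complex.normSq_eq_norm_sq, Complex.normSq_apply,
      Complex.normSq_apply]
    nlinarith [sq_nonneg (X.re - Y.re), sq_nonneg (X.im - Y.im)]
  set p := ‖X‖ ^ 2
  set q := ‖Y‖ ^ 2
  set s := X.re * Y.re + X.im * Y.im
  have h1 : 0 ≤ (r - m) * ((1 - m) * (1 - r)) * (p - q) :=
    mul_nonneg (mul_nonneg (by linarith) (mul_nonneg (by linarith) (by linarith)))
      (by linarith)
  have h2 : 0 ≤ (r - m) * (1 - r * m) * (p + q - 2 * s) :=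
    mul_nonneg (mul_nonneg (by linarith) (by nlinarith)) (by linarith)
  nlinarith

/-- the main inequality without denominators -/
lemma C4 (a : ℝ) (ha : 0 ≤ a) (ha1 : a < 1) (r : ℝ) (hr : r < 1) (hr4 : 4 * r ≤ 1 + r ^ 2)
    (v : ℂ) (hvr : ‖v‖ ≤ r) :
    (1 - r) * ‖(1 + (a : ℂ) * v) - ((a : ℂ) + v)‖ *
      (‖1 + (a : ℂ) * v‖ ^ 2 - r ^ 2 * ‖(a : ℂ) + v‖ ^ 2) ≤
    (1 + r) ^ 2 * ‖(1 + (a : ℂ) * v) - r * ((a : ℂ) + v)‖ *
      ((1 + 2 * a * v.re + ‖v‖ ^ 2) - ‖(a : ℂ) + 2 * v + a * v ^ 2‖) := by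
  have hv1 : ‖v‖ < 1 := lt_of_le_of_lt hvr hr
  have hm0 : 0 ≤ ‖v‖ := norm_nonneg _
  have hv4 : 4 * ‖v‖ ≤ 1 + ‖v‖ ^ 2 := by nlinarith
  have hC1 := C1 a ha ha1.le v hv1 hv4
  have hMsq := normSq_M a v
  have hP := normSq_one_add a v
  have hQ := normSq_add a v
  have hxm : |v.re| ≤ ‖v‖ := Complex.abs_re_le_norm v
  have hx2 : -‖v‖ ≤ v.re := (abs_le.1 hxm).1
  have eXY : ‖(1 + (a : ℂ) * v) - ((a : ℂ) + v)‖ = (1 - a) * ‖1 - v‖ := by
    have : (1 + (a : ℂ) * v) - ((a : ℂ) + v) = ((1 - a : ℝ) : ℂ) * (1 - v) := by push_cast; ring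
    rw [this, norm_mul, Complex.norm_real, Real.norm_of_nonneg (by linarith)]
  have hYX : ‖(a : ℂ) + v‖ ≤ ‖1 + (a : ℂ) * v‖ := by
    apply le_of_sq_le_sq _ (norm_nonneg _)
    rw [hP, hQ]
    have : 0 ≤ (1 - a ^ 2) * (1 - ‖v‖ ^ 2) := mul_nonneg (by nlinarith) (by nlinarith)
    nlinarith
  have hC2 := C2 (1 + (a : ℂ) * v) ((a : ℂ) + v) hYX ‖v‖ r hm0 hvr hr
  rw [eXY, hP, hQ]
  set m := ‖v‖ with hm
  set x := v.re
  set A := ‖1 - v‖ with hA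
  set Bm := ‖(1 + (a : ℂ) * v) - m * ((a : ℂ) + v)‖ with hBm
  set Br := ‖(1 + (a : ℂ) * v) - r * ((a : ℂ) + v)‖ with hBr
  set M := ‖(a : ℂ) + 2 * v + a * v ^ 2‖ with hM
  have hA0 : 0 ≤ A := norm_nonneg _
  have hBr0 : 0 ≤ Br := norm_nonneg _
  have hM0 : 0 ≤ M := norm_nonneg _
  have hW : 0 < 1 + 2 * a * x + m ^ 2 := by nlinarith
  set W := 1 + 2 * a * x + m ^ 2 with hWd
  have hWM : 0 < W + M := by linarith
  have hWM2 : (W - M) * (W + M) = (1 - a ^ 2) * (1 - m ^ 2) ^ 2 := by linear_combination -hMsq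
  have hWMn : 0 ≤ W - M := by
    by_contra hcon
    have h1 : (W - M) * (W + M) < 0 := mul_neg_of_neg_of_pos (not_le.1 hcon) hWM
    rw [hWM2] at h1
    have : 0 ≤ (1 - a ^ 2) * (1 - m ^ 2) ^ 2 := mul_nonneg (by nlinarith) (sq_nonneg _)
    linarith
  have hBm0 : 0 < Bm := by
    rw [hBm, norm_pos_iff]
    intro h0
    have h1 : ‖(1 : ℂ) + (a : ℂ) * v‖ = m * ‖(a : ℂ) + v‖ := by
      rw [sub_eq_zero.1 h0, norm_mul, Complex.norm_real, Real.norm_of_nonneg hm0]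
    have h2 : 0 < ‖(1 : ℂ) + (a : ℂ) * v‖ ^ 2 := by
      rw [hP]
      have : (0:ℝ) < (1 - a * m) ^ 2 := by
        have : 0 < 1 - a * m := by nlinarith
        positivity
      nlinarith
    have h3 : 0 < ‖(1 : ℂ) + (a : ℂ) * v‖ := by
      by_contra hcon
      have : ‖(1 : ℂ) + (a : ℂ) * v‖ = 0 := le_antisymm (not_lt.1 hcon) (norm_nonneg _)
      rw [this] at h2; norm_num at h2
    nlinarith [norm_nonneg ((a : ℂ) + v)]
  -- the case `r = m`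
  have hcase : (1 - m) * ((1 - a) * A) * ((1 - m ^ 2) * W) ≤ (1 + m) ^ 2 * Bm * (W - M) := by
    have h1 : ((1 - m) * ((1 - a) * A) * ((1 - m ^ 2) * W)) * (W + M) ≤
        ((1 + m) ^ 2 * Bm * (W - M)) * (W + M) := by
      have e1 : ((1 + m) ^ 2 * Bm * (W - M)) * (W + M) =
          (1 - m) * (1 - a) * (1 - m ^ 2) * ((1 + m) ^ 3 * (1 + a) * Bm) := by
        rw [mul_assoc, hWM2]; ring
      rw [e1]
      have e2 : ((1 - m) * ((1 - a) * A) * ((1 - m ^ 2) * W)) * (W + M) =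
          (1 - m) * (1 - a) * (1 - m ^ 2) * (A * W * (W + M)) := by ring
      rw [e2]
      apply mul_le_mul_of_nonneg_left hC1
      exact mul_nonneg (mul_nonneg (by linarith) (by linarith)) (by nlinarith)
    exact le_of_mul_le_mul_right h1 hWM
  -- conclusion
  have hD : 1 + 2 * a * x + a ^ 2 * m ^ 2 - r ^ 2 * (a ^ 2 + 2 * a * x + m ^ 2) ≤
      (1 - m ^ 2) * W := by
    have : 0 ≤ (r ^ 2 - m ^ 2) * (a ^ 2 + 2 * a * x + m ^ 2) := by
      apply mul_nonneg (by nlinarith)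
      rw [← hQ]; positivity
    rw [hWd]
    nlinarith
  have h5 : ((1 - r) * ((1 - a) * A) *
      (1 + 2 * a * x + a ^ 2 * m ^ 2 - r ^ 2 * (a ^ 2 + 2 * a * x + m ^ 2))) * Bm ≤
      ((1 + r) ^ 2 * Br * (W - M)) * Bm := by
    calc ((1 - r) * ((1 - a) * A) *
        (1 + 2 * a * x + a ^ 2 * m ^ 2 - r ^ 2 * (a ^ 2 + 2 * a * x + m ^ 2))) * Bm
        ≤ ((1 - r) * ((1 - a) * A) * ((1 - m ^ 2) * W)) * Bm := by
          apply mul_le_mul_of_nonneg_right _ hBm0.le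
          apply mul_le_mul_of_nonneg_left hD
          exact mul_nonneg (by linarith) (mul_nonneg (by linarith) hA0)
      _ = ((1 - a) * A * ((1 - m ^ 2) * W)) * ((1 - r) * Bm) := by ring
      _ ≤ ((1 - a) * A * ((1 - m ^ 2) * W)) * ((1 - m) * Br) := by
          apply mul_le_mul_of_nonneg_left hC2
          exact mul_nonneg (mul_nonneg (by linarith) hA0) (mul_nonneg (by nlinarith) hW.le)
      _ = ((1 - m) * ((1 - a) * A) * ((1 - m ^ 2) * W)) * Br := by ring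
      _ ≤ ((1 + m) ^ 2 * Bm * (W - M)) * Br := mul_le_mul_of_nonneg_right hcase hBr0
      _ = ((1 + m) ^ 2 * Br * (W - M)) * Bm := by ring
      _ ≤ ((1 + r) ^ 2 * Br * (W - M)) * Bm := by
          apply mul_le_mul_of_nonneg_right _ hBm0.le
          apply mul_le_mul_of_nonneg_right _ hWMn
          apply mul_le_mul_of_nonneg_right _ hBr0
          exact pow_le_pow_left₀ (by linarith) (by linarith) 2
  exact le_of_mul_le_mul_right h5 hBm0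
/-- the main inequality, in the form in which it is used -/
lemma C5 (a : ℝ) (ha : 0 ≤ a) (ha1 : a < 1) (r : ℝ) (hr : r < 1) (hr4 : 4 * r ≤ 1 + r ^ 2)
    (v η : ℂ) (hvr : ‖v‖ ≤ r) (hη : (1 - r ^ 2) * ‖η‖ ≤ r ^ 2 - ‖v‖ ^ 2) (u w1 : ℂ)
    (hu : u = ((a : ℂ) + v) / (1 + a * v))
    (hw : w1 = u + (1 - (a : ℂ) ^ 2) * (v + η) / (1 + a * v) ^ 2) :
    0 < ‖1 - (r : ℂ) * u‖ ∧
    (1 - r ^ 2) * ‖w1‖ ≤ (1 - r ^ 2 * ‖u‖ ^ 2) *
      (1 - (1 - r) ^ 2 * ‖1 - u‖ / ((1 + r) * ‖1 - (r : ℂ) * u‖)) := by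
  have hr0 : 0 ≤ r := (norm_nonneg _).trans hvr
  have hv1 : ‖v‖ < 1 := lt_of_le_of_lt hvr hr
  have hm0 : 0 ≤ ‖v‖ := norm_nonneg _
  have hX0 : (1 + (a : ℂ) * v) ≠ 0 := by
    intro h0
    have h1 : ‖(a : ℂ) * v‖ = 1 := by
      have : (a : ℂ) * v = -1 := by linear_combination h0
      rw [this]; simp
    rw [norm_mul, Complex.norm_real, Real.norm_of_nonneg ha] at h1
    nlinarith
  have hρ : 0 < ‖1 + (a : ℂ) * v‖ := norm_pos_iff.2 hX0
  have hP := normSq_one_add a v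
  have hQ := normSq_add a v
  have hC4 := C4 a ha ha1 r hr hr4 v hvr
  have e1 : ‖1 - (r : ℂ) * u‖ * ‖1 + (a : ℂ) * v‖ =
      ‖(1 + (a : ℂ) * v) - r * ((a : ℂ) + v)‖ := by
    rw [← norm_mul, hu]
    congr 1
    field_simp
  have e2 : ‖1 - u‖ * ‖1 + (a : ℂ) * v‖ = ‖(1 + (a : ℂ) * v) - ((a : ℂ) + v)‖ := by
    rw [← norm_mul, hu]
    congr 1
    field_simp
  have e3 : ‖u‖ * ‖1 + (a : ℂ) * v‖ = ‖(a : ℂ) + v‖ := by
    rw [← norm_mul, hu]
    congr 1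
    field_simp
  have e4 : ‖w1‖ * ‖1 + (a : ℂ) * v‖ ^ 2 ≤
      ‖(a : ℂ) + 2 * v + a * v ^ 2‖ + (1 - a ^ 2) * ‖η‖ := by
    rw [← norm_pow, ← norm_mul, hw, hu]
    have : (((a : ℂ) + v) / (1 + a * v) + (1 - (a : ℂ) ^ 2) * (v + η) / (1 + a * v) ^ 2) *
        (1 + (a : ℂ) * v) ^ 2 = ((a : ℂ) + 2 * v + a * v ^ 2) + ((1 - a ^ 2 : ℝ) : ℂ) * η := by
      field_simp
      push_cast
      ring
    rw [this]
    refine (norm_add_le _ _).trans ?_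
    rw [norm_mul, Complex.norm_real, Real.norm_of_nonneg (by nlinarith)]
  -- `B > 0`
  have hYX : ‖(a : ℂ) + v‖ ≤ ‖1 + (a : ℂ) * v‖ := by
    apply le_of_sq_le_sq _ (norm_nonneg _)
    rw [hP, hQ]
    have : 0 ≤ (1 - a ^ 2) * (1 - ‖v‖ ^ 2) := mul_nonneg (by nlinarith) (by nlinarith)
    nlinarith
  have hu1 : ‖u‖ ≤ 1 := by
    by_contra hcon
    have : ‖1 + (a : ℂ) * v‖ < ‖u‖ * ‖1 + (a : ℂ) * v‖ := by nlinarith [not_le.1 hcon]
    rw [e3] at this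
    linarith
  have hB0 : 0 < ‖1 - (r : ℂ) * u‖ := by
    rw [norm_pos_iff]
    intro h0
    have h1 : ‖(r : ℂ) * u‖ = 1 := by
      have : (r : ℂ) * u = 1 := by linear_combination -h0
      rw [this]; simp
    rw [norm_mul, Complex.norm_real, Real.norm_of_nonneg hr0] at h1
    nlinarith [norm_nonneg u]
  refine ⟨hB0, ?_⟩
  set b := ‖1 - (r : ℂ) * u‖ with hb
  set c := ‖1 - u‖ with hc
  set ρ := ‖1 + (a : ℂ) * v‖ with hρd
  set U := ‖u‖ with hU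
  rw [← e1, ← e2] at hC4
  rw [← e3] at hC4
  set M := ‖(a : ℂ) + 2 * v + a * v ^ 2‖ with hM
  have hW : ρ ^ 2 - r ^ 2 * (U * ρ) ^ 2 - (1 - a ^ 2) * (r ^ 2 - ‖v‖ ^ 2) =
      (1 - r ^ 2) * (1 + 2 * a * v.re + ‖v‖ ^ 2) := by
    rw [e3, hP, hQ]; ring
  have hfin : (1 - r ^ 2) * ‖w1‖ * ((1 + r) * b) * ρ ^ 3 ≤
      (1 - r ^ 2 * U ^ 2) * ((1 + r) * b - (1 - r) ^ 2 * c) * ρ ^ 3 := by
    calc (1 - r ^ 2) * ‖w1‖ * ((1 + r) * b) * ρ ^ 3
        = (1 - r ^ 2) * ((1 + r) * b * ρ) * (‖w1‖ * ρ ^ 2) := by ring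
      _ ≤ (1 - r ^ 2) * ((1 + r) * b * ρ) * (M + (1 - a ^ 2) * ‖η‖) := by
          apply mul_le_mul_of_nonneg_left e4
          exact mul_nonneg (by nlinarith) (by positivity)
      _ = ((1 + r) * b * ρ) * ((1 - r ^ 2) * M + (1 - a ^ 2) * ((1 - r ^ 2) * ‖η‖)) := by ring
      _ ≤ ((1 + r) * b * ρ) * ((1 - r ^ 2) * M + (1 - a ^ 2) * (r ^ 2 - ‖v‖ ^ 2)) := by
          apply mul_le_mul_of_nonneg_left _ (by positivity)
          have := mul_le_mul_of_nonneg_left hη (by nlinarith : (0:ℝ) ≤ 1 - a ^ 2)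
          linarith
      _ = ((1 + r) * b * ρ) * (ρ ^ 2 - r ^ 2 * (U * ρ) ^ 2) -
          (1 - r) * ((1 + r) ^ 2 * (b * ρ) * ((1 + 2 * a * v.re + ‖v‖ ^ 2) - M)) := by
          have h9 : (1 - a ^ 2) * (r ^ 2 - ‖v‖ ^ 2) = ρ ^ 2 - r ^ 2 * (U * ρ) ^ 2 -
            (1 - r ^ 2) * (1 + 2 * a * v.re + ‖v‖ ^ 2) := by linear_combination -hW
          rw [h9]; ring
      _ ≤ ((1 + r) * b * ρ) * (ρ ^ 2 - r ^ 2 * (U * ρ) ^ 2) -
          (1 - r) * ((1 - r) * (c * ρ) * (ρ ^ 2 - r ^ 2 * (U * ρ) ^ 2)) := by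
          have := mul_le_mul_of_nonneg_left hC4 (by linarith : (0:ℝ) ≤ 1 - r)
          linarith
      _ = (1 - r ^ 2 * U ^ 2) * ((1 + r) * b - (1 - r) ^ 2 * c) * ρ ^ 3 := by ring
  have hfin2 := le_of_mul_le_mul_right hfin (by positivity)
  have e5 : (1 - r ^ 2 * U ^ 2) * (1 - (1 - r) ^ 2 * c / ((1 + r) * b)) =
      (1 - r ^ 2 * U ^ 2) * ((1 + r) * b - (1 - r) ^ 2 * c) / ((1 + r) * b) := by
    have : (1 + r) * b ≠ 0 := by positivity
    field_simp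
  rw [e5, le_div_iff₀ (by positivity)]
  exact hfin2
/-! ### Schwarz–Pick -/

open Metric Set

lemma normSq_one_sub_conj (c w : ℂ) : ‖1 - (starRingEnd ℂ) c * w‖ ^ 2 - ‖w - c‖ ^ 2 =
    (1 - ‖c‖ ^ 2) * (1 - ‖w‖ ^ 2) := by
  simp only [← Complex.normSq_eq_norm_sq, Complex.normSq_apply]
  simp
  ring

lemma normSq_one_add_conj (c w : ℂ) : ‖1 + (starRingEnd ℂ) c * w‖ ^ 2 - ‖w + c‖ ^ 2 =
    (1 - ‖c‖ ^ 2) * (1 - ‖w‖ ^ 2) := by
  simp only [← Complex.normSq_eq_norm_sq, Complex.normSq_apply]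
  simp
  ring

lemma den_ne (c w : ℂ) (hc : ‖c‖ < 1) (hw : ‖w‖ ≤ 1) : 1 - (starRingEnd ℂ) c * w ≠ 0 := by
  intro h0
  have h1 : ‖(starRingEnd ℂ) c * w‖ = 1 := by
    have : (starRingEnd ℂ) c * w = 1 := by linear_combination -h0
    rw [this]; simp
  rw [norm_mul, RCLike.norm_conj] at h1
  nlinarith [norm_nonneg c, norm_nonneg w]

lemma den_ne' (c w : ℂ) (hc : ‖c‖ < 1) (hw : ‖w‖ ≤ 1) : 1 + (starRingEnd ℂ) c * w ≠ 0 := by
  have := den_ne c (-w) hc (by rwa [norm_neg])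
  simpa using this

/-- the automorphism `t ↦ (t + z) / (1 + conj z t)` maps the disc into itself -/
lemma phi_mem (z t : ℂ) (hz : ‖z‖ < 1) (ht : ‖t‖ < 1) :
    ‖(t + z) / (1 + (starRingEnd ℂ) z * t)‖ < 1 := by
  have h0 := den_ne' z t hz ht.le
  rw [norm_div, div_lt_one (norm_pos_iff.2 h0)]
  apply lt_of_pow_lt_pow_left₀ 2 (norm_nonneg _)
  have h1 := normSq_one_add_conj z t
  have : 0 < (1 - ‖z‖ ^ 2) * (1 - ‖t‖ ^ 2) :=
    mul_pos (by nlinarith [norm_nonneg z]) (by nlinarith [norm_nonneg t])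
  linarith

lemma one_sub_normSq_phi (z t : ℂ) (hz : ‖z‖ < 1) (ht : ‖t‖ < 1) :
    (1 - ‖(t + z) / (1 + (starRingEnd ℂ) z * t)‖ ^ 2) * ‖1 + (starRingEnd ℂ) z * t‖ ^ 2 =
      (1 - ‖z‖ ^ 2) * (1 - ‖t‖ ^ 2) := by
  have h0 := den_ne' z t hz ht.le
  have h1 := normSq_one_add_conj z t
  have h2 : ‖1 + (starRingEnd ℂ) z * t‖ ≠ 0 := norm_ne_zero_iff.2 h0
  rw [norm_div, div_pow, sub_mul, one_mul, div_mul_cancel₀ _ (pow_ne_zero 2 h2)]
  linarith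

lemma hasDerivAt_phi (z t : ℂ) (hz : ‖z‖ < 1) (ht : ‖t‖ < 1) :
    HasDerivAt (fun t : ℂ => (t + z) / (1 + (starRingEnd ℂ) z * t))
      ((1 - (starRingEnd ℂ) z * z) / (1 + (starRingEnd ℂ) z * t) ^ 2) t := by
  have h0 := den_ne' z t hz ht.le
  have h1 : HasDerivAt (fun t : ℂ => t + z) 1 t := (hasDerivAt_id t).add_const z
  have h2 : HasDerivAt (fun t : ℂ => 1 + (starRingEnd ℂ) z * t) ((starRingEnd ℂ) z) t := by
    simpa using ((hasDerivAt_id t).const_mul ((starRingEnd ℂ) z)).const_add 1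
  exact (h1.div h2 h0).congr_deriv (by ring)

lemma schwarz_pick_aux (χ : ℂ → ℂ) (hd : DifferentiableOn ℂ χ (ball 0 1))
    (hb : ∀ t, ‖t‖ < 1 → ‖χ t‖ ≤ 1) (z : ℂ) (hz : ‖z‖ < 1) (hc : ‖χ z‖ < 1) :
    (1 - ‖z‖ ^ 2) * ‖deriv χ z‖ ≤ 1 - ‖χ z‖ ^ 2 := by
  set c := χ z with hcd
  set φ : ℂ → ℂ := fun t => (t + z) / (1 + (starRingEnd ℂ) z * t) with hφ
  set g : ℂ → ℂ := fun t => (χ (φ t) - c) / (1 - (starRingEnd ℂ) c * χ (φ t)) with hg
  have hφm : ∀ t, ‖t‖ < 1 → ‖φ t‖ < 1 := fun t ht => phi_mem z t hz ht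
  have hχd : ∀ t, ‖t‖ < 1 → HasDerivAt χ (deriv χ t) t := fun t ht =>
    ((hd t (by simpa using ht)).differentiableAt
      (isOpen_ball.mem_nhds (by simpa using ht))).hasDerivAt
  have hgd : ∀ t, ‖t‖ < 1 → HasDerivAt g
      ((deriv χ (φ t) * ((1 - (starRingEnd ℂ) z * z) / (1 + (starRingEnd ℂ) z * t) ^ 2)) *
        (1 - (starRingEnd ℂ) c * c) / (1 - (starRingEnd ℂ) c * χ (φ t)) ^ 2) t := by
    intro t ht
    have h1 : HasDerivAt (fun t => χ (φ t))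
        (deriv χ (φ t) * ((1 - (starRingEnd ℂ) z * z) / (1 + (starRingEnd ℂ) z * t) ^ 2)) t :=
      (hχd (φ t) (hφm t ht)).comp t (hasDerivAt_phi z t hz ht)
    have h0 : 1 - (starRingEnd ℂ) c * χ (φ t) ≠ 0 := den_ne c _ hc (hb _ (hφm t ht))
    have h2 := (h1.sub_const c).div ((h1.const_mul ((starRingEnd ℂ) c)).const_sub 1) h0
    exact h2.congr_deriv (by ring)
  have hg0 : g 0 = 0 := by simp [hg, hφ, hcd]
  have hmaps : MapsTo g (ball 0 1) (closedBall (g 0) 1) := by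
    intro t ht
    have ht' : ‖t‖ < 1 := by simpa using ht
    rw [hg0]
    rw [mem_closedBall_zero_iff]
    have h0 : 1 - (starRingEnd ℂ) c * χ (φ t) ≠ 0 := den_ne c _ hc (hb _ (hφm t ht'))
    have h1 := normSq_one_sub_conj c (χ (φ t))
    rw [hg]
    simp only
    rw [norm_div, div_le_one (norm_pos_iff.2 h0)]
    apply le_of_sq_le_sq _ (norm_nonneg _)
    have : 0 ≤ (1 - ‖c‖ ^ 2) * (1 - ‖χ (φ t)‖ ^ 2) :=
      mul_nonneg (by nlinarith [norm_nonneg c]) (by nlinarith [norm_nonneg (χ (φ t)), hb _ (hφm t ht')])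
    linarith
  have hdg : DifferentiableOn ℂ g (ball 0 1) := fun t ht =>
    (hgd t (by simpa using ht)).differentiableAt.differentiableWithinAt
  have h1 := Complex.norm_deriv_le_div_of_mapsTo_ball hdg hmaps one_pos
  rw [(hgd 0 (by simp)).deriv] at h1
  have e1 : φ 0 = z := by simp [hφ]
  rw [e1, ← hcd] at h1
  have e2 : ∀ w : ℂ, (1 : ℂ) - (starRingEnd ℂ) w * w = ((1 - ‖w‖ ^ 2 : ℝ) : ℂ) := by
    intro w
    rw [← Complex.normSq_eq_conj_mul_self, Complex.normSq_eq_norm_sq]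
    push_cast; ring
  rw [e2 z, e2 c] at h1
  have hc2 : 0 < 1 - ‖c‖ ^ 2 := by nlinarith [norm_nonneg c]
  have hz2 : 0 < 1 - ‖z‖ ^ 2 := by nlinarith [norm_nonneg z]
  simp only [mul_zero, add_zero, one_pow, div_one, norm_div, norm_mul, norm_pow,
    Complex.norm_real, Real.norm_of_nonneg hc2.le, Real.norm_of_nonneg hz2.le] at h1
  have h2 : ‖deriv χ z‖ * (1 - ‖z‖ ^ 2) * (1 - ‖c‖ ^ 2) / (1 - ‖c‖ ^ 2) ^ 2 =
      ‖deriv χ z‖ * (1 - ‖z‖ ^ 2) / (1 - ‖c‖ ^ 2) := by field_simp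
  rw [h2, div_le_iff₀ hc2] at h1
  linarith

lemma schwarz_pick (χ : ℂ → ℂ) (hd : DifferentiableOn ℂ χ (ball 0 1))
    (hb : ∀ t, ‖t‖ < 1 → ‖χ t‖ ≤ 1) (z : ℂ) (hz : ‖z‖ < 1) :
    (1 - ‖z‖ ^ 2) * ‖deriv χ z‖ ≤ 1 - ‖χ z‖ ^ 2 := by
  have h1 : ∀ s ∈ Ioo (0:ℝ) 1, (1 - ‖z‖ ^ 2) * (s * ‖deriv χ z‖) ≤ 1 - s ^ 2 * ‖χ z‖ ^ 2 := by
    intro s hs
    have hs0 : (0:ℝ) < s := hs.1
    have h2 := schwarz_pick_aux (fun t => (s : ℂ) * χ t) (hd.const_mul _) (by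
      intro t ht
      rw [norm_mul, Complex.norm_real, Real.norm_of_nonneg hs0.le]
      nlinarith [hb t ht, norm_nonneg (χ t), hs.2]) z hz (by
      rw [norm_mul, Complex.norm_real, Real.norm_of_nonneg hs0.le]
      nlinarith [hb z hz, norm_nonneg (χ z), hs.2])
    rw [deriv_const_mul_field, norm_mul, norm_mul, Complex.norm_real,
      Real.norm_of_nonneg hs0.le, mul_pow] at h2
    exact h2
  have hl : Filter.Tendsto (fun s : ℝ => (1 - ‖z‖ ^ 2) * (s * ‖deriv χ z‖)) (nhdsWithin 1 (Iio 1))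
      (nhds ((1 - ‖z‖ ^ 2) * (1 * ‖deriv χ z‖))) := by
    apply Filter.Tendsto.mono_left _ nhdsWithin_le_nhds
    exact Continuous.tendsto (by fun_prop) 1
  have hr : Filter.Tendsto (fun s : ℝ => 1 - s ^ 2 * ‖χ z‖ ^ 2) (nhdsWithin 1 (Iio 1))
      (nhds (1 - 1 ^ 2 * ‖χ z‖ ^ 2)) := by
    apply Filter.Tendsto.mono_left _ nhdsWithin_le_nhds
    exact Continuous.tendsto (by fun_prop) 1
  have h3 := le_of_tendsto_of_tendsto hl hr (by
    filter_upwards [Ioo_mem_nhdsLT (zero_lt_one' ℝ)] with s hs using h1 s hs)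
  simpa using h3
/-- the structure of Schwarz functions with real derivative at the origin -/
lemma w_struct (w : ℂ → ℂ) (hd : DifferentiableOn ℂ w (ball 0 1))
    (hw : ∀ t, ‖t‖ < 1 → ‖w t‖ ≤ ‖t‖) (a : ℝ) (ha : 0 ≤ a) (hda : deriv w 0 = a)
    (z : ℂ) (hz : ‖z‖ < 1) :
    (∀ t, ‖t‖ < 1 → w t = t) ∨ (a < 1 ∧ ∃ v η : ℂ, ‖v‖ ≤ ‖z‖ ∧
      (1 - ‖z‖ ^ 2) * ‖η‖ ≤ ‖z‖ ^ 2 - ‖v‖ ^ 2 ∧ w z = z * (((a : ℂ) + v) / (1 + a * v)) ∧
      deriv w z = ((a : ℂ) + v) / (1 + a * v) +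
        (1 - (a : ℂ) ^ 2) * (v + η) / (1 + a * v) ^ 2) := by
  have hw0 : w 0 = 0 := by
    have := hw 0 (by simp)
    rwa [norm_zero, norm_le_zero_iff] at this
  have h0mem : (0 : ℂ) ∈ ball (0 : ℂ) 1 := by simp
  have hmaps : MapsTo w (ball 0 1) (closedBall (w 0) 1) := by
    intro t ht
    have ht' : ‖t‖ < 1 := by simpa using ht
    rw [hw0, mem_closedBall_zero_iff]
    exact (hw t ht').trans ht'.le
  have ha1 : a ≤ 1 := by
    have := Complex.norm_deriv_le_div_of_mapsTo_ball hd hmaps one_pos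
    rw [hda, Complex.norm_real, Real.norm_of_nonneg ha] at this
    simpa using this
  rcases eq_or_lt_of_le ha1 with hae | hal
  · left
    have h1 := Complex.affine_of_mapsTo_ball_of_norm_dslope_eq_div hd hmaps h0mem (by
      rw [dslope_same, hda, hae]; simp)
    intro t ht
    have h2 := h1 (show t ∈ ball (0:ℂ) 1 by simpa using ht)
    rw [h2, dslope_same, hda, hae, hw0]
    simp
  · right
    refine ⟨hal, ?_⟩
    set ψ := dslope w 0 with hψ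
    have hψd : DifferentiableOn ℂ ψ (ball 0 1) :=
      (Complex.differentiableOn_dslope (isOpen_ball.mem_nhds h0mem)).2 hd
    have hψb : ∀ t, ‖t‖ < 1 → ‖ψ t‖ ≤ 1 := by
      intro t ht
      have := Complex.norm_dslope_le_div_of_mapsTo_ball hd hmaps
        (show t ∈ ball (0:ℂ) 1 by simpa using ht)
      simpa using this
    have hψw : ∀ t, w t = t * ψ t := by
      intro t
      have := sub_smul_dslope w 0 t
      rw [hw0] at this
      simpa [smul_eq_mul] using this.symm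
    have hψ0 : ψ 0 = a := by rw [hψ, dslope_same, hda]
    have hca : (starRingEnd ℂ) (a : ℂ) = a := Complex.conj_ofReal a
    have hac : ‖(a : ℂ)‖ < 1 := by rwa [Complex.norm_real, Real.norm_of_nonneg ha]
    have hden : ∀ t, ‖t‖ < 1 → 1 - (a : ℂ) * ψ t ≠ 0 := by
      intro t ht
      have := den_ne (a : ℂ) (ψ t) hac (hψb t ht)
      rwa [hca] at this
    set g : ℂ → ℂ := fun t => (ψ t - a) / (1 - a * ψ t) with hg
    have hgd : DifferentiableOn ℂ g (ball 0 1) := by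
      apply DifferentiableOn.div (hψd.sub_const _) ((hψd.const_mul _).const_sub 1)
      intro t ht
      exact hden t (by simpa using ht)
    have hg0 : g 0 = 0 := by simp [hg, hψ0]
    have hgmaps : MapsTo g (ball 0 1) (closedBall (g 0) 1) := by
      intro t ht
      have ht' : ‖t‖ < 1 := by simpa using ht
      rw [hg0, mem_closedBall_zero_iff]
      have h1 := normSq_one_sub_conj (a : ℂ) (ψ t)
      rw [hca] at h1
      rw [hg]
      simp only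
      rw [norm_div, div_le_one (norm_pos_iff.2 (hden t ht'))]
      apply le_of_sq_le_sq _ (norm_nonneg _)
      have : 0 ≤ (1 - ‖(a : ℂ)‖ ^ 2) * (1 - ‖ψ t‖ ^ 2) :=
        mul_nonneg (by nlinarith [norm_nonneg (a : ℂ)])
          (by nlinarith [norm_nonneg (ψ t), hψb t ht'])
      linarith
    set χ := dslope g 0 with hχ
    have hχd : DifferentiableOn ℂ χ (ball 0 1) :=
      (Complex.differentiableOn_dslope (isOpen_ball.mem_nhds h0mem)).2 hgd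
    have hχb : ∀ t, ‖t‖ < 1 → ‖χ t‖ ≤ 1 := by
      intro t ht
      have := Complex.norm_dslope_le_div_of_mapsTo_ball hgd hgmaps
        (show t ∈ ball (0:ℂ) 1 by simpa using ht)
      simpa using this
    have hχg : ∀ t, g t = t * χ t := by
      intro t
      have := sub_smul_dslope g 0 t
      rw [hg0] at this
      simpa [smul_eq_mul] using this.symm
    have hden2 : ∀ t, ‖t‖ < 1 → 1 + (a : ℂ) * (t * χ t) ≠ 0 := by
      intro t ht
      have h1 : ‖t * χ t‖ ≤ 1 := by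
        rw [norm_mul]
        nlinarith [hχb t ht, norm_nonneg t, norm_nonneg (χ t)]
      have := den_ne' (a : ℂ) (t * χ t) hac h1
      rwa [hca] at this
    have hψχ : ∀ t, ‖t‖ < 1 → ψ t = ((a : ℂ) + t * χ t) / (1 + a * (t * χ t)) := by
      intro t ht
      have e1 : g t * (1 - (a : ℂ) * ψ t) = ψ t - a := div_mul_cancel₀ _ (hden t ht)
      rw [eq_div_iff (hden2 t ht), ← hχg t]
      linear_combination -e1
    refine ⟨z * χ z, z ^ 2 * deriv χ z, ?_, ?_, ?_, ?_⟩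
    · rw [norm_mul]
      nlinarith [hχb z hz, norm_nonneg z, norm_nonneg (χ z)]
    · have h1 := schwarz_pick χ hχd hχb z hz
      rw [norm_mul, norm_mul, norm_pow]
      have h2 := mul_le_mul_of_nonneg_left h1 (sq_nonneg ‖z‖)
      calc (1 - ‖z‖ ^ 2) * (‖z‖ ^ 2 * ‖deriv χ z‖)
          = ‖z‖ ^ 2 * ((1 - ‖z‖ ^ 2) * ‖deriv χ z‖) := by ring
        _ ≤ ‖z‖ ^ 2 * (1 - ‖χ z‖ ^ 2) := h2
        _ = ‖z‖ ^ 2 - (‖z‖ * ‖χ z‖) ^ 2 := by ring
    · rw [hψw z, hψχ z hz]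
    · have hχz : HasDerivAt χ (deriv χ z) z :=
        ((hχd z (by simpa using hz)).differentiableAt
          (isOpen_ball.mem_nhds (by simpa using hz))).hasDerivAt
      have h1 : HasDerivAt (fun t => t * χ t) (χ z + z * deriv χ z) z := by
        have := (hasDerivAt_id z).mul hχz
        exact this.congr_deriv (by simp)
      have h2 : HasDerivAt (fun t => ((a : ℂ) + t * χ t) / (1 + a * (t * χ t)))
          ((1 - (a : ℂ) ^ 2) * (χ z + z * deriv χ z) / (1 + a * (z * χ z)) ^ 2) z := by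
        have h3 := (h1.const_add (a : ℂ)).div ((h1.const_mul (a : ℂ)).const_add 1) (hden2 z hz)
        exact h3.congr_deriv (by ring)
      have h4 : HasDerivAt (fun t => t * (((a : ℂ) + t * χ t) / (1 + a * (t * χ t))))
          (((a : ℂ) + z * χ z) / (1 + a * (z * χ z)) + z * ((1 - (a : ℂ) ^ 2) *
            (χ z + z * deriv χ z) / (1 + a * (z * χ z)) ^ 2)) z := by
        have := (hasDerivAt_id z).mul h2
        exact this.congr_deriv (by simp)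
      have h5 : w =ᶠ[nhds z] (fun t => t * (((a : ℂ) + t * χ t) / (1 + a * (t * χ t)))) := by
        filter_upwards [isOpen_ball.mem_nhds (show z ∈ ball (0:ℂ) 1 by simpa using hz)] with t ht
        rw [hψw t, hψχ t (by simpa using ht)]
      rw [h5.deriv_eq, h4.deriv]
      ring

/-! ### Two-point distortion in linear invariant families of order `α` -/

/-- The pullback identity: the Pommerenke order functional is invariant under automorphisms. -/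
lemma order_inv (z t R : ℂ) (hz : ‖z‖ < 1) (ht : ‖t‖ < 1) (α : ℝ)
    (hR : ‖-(starRingEnd ℂ) ((t + z) / (1 + (starRingEnd ℂ) z * t)) +
      (1 - (‖(t + z) / (1 + (starRingEnd ℂ) z * t)‖ : ℂ) ^ 2) * R / 2‖ ≤ α) :
    ‖(1 - (‖t‖ : ℂ) ^ 2) * (R * ((1 - (starRingEnd ℂ) z * z) / (1 + (starRingEnd ℂ) z * t) ^ 2)
      - 2 * (starRingEnd ℂ) z / (1 + (starRingEnd ℂ) z * t)) / 2 - (starRingEnd ℂ) t‖ ≤ α := by
  have h0 := den_ne' z t hz ht.le
  have h0' : 1 + z * (starRingEnd ℂ) t ≠ 0 := by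
    intro h
    apply h0
    have := congrArg (starRingEnd ℂ) h
    simpa using this
  have hn : ‖1 + z * (starRingEnd ℂ) t‖ = ‖1 + (starRingEnd ℂ) z * t‖ := by
    rw [← RCLike.norm_conj (1 + (starRingEnd ℂ) z * t)]
    simp
  have e2 : ∀ w : ℂ, (1 : ℂ) - (‖w‖ : ℂ) ^ 2 = 1 - w * (starRingEnd ℂ) w := by
    intro w
    rw [Complex.mul_conj, Complex.normSq_eq_norm_sq]
    push_cast; ring
  rw [e2] at hR ⊢
  have hkey : (1 + z * (starRingEnd ℂ) t) *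
      (-(starRingEnd ℂ) ((t + z) / (1 + (starRingEnd ℂ) z * t)) +
      (1 - ((t + z) / (1 + (starRingEnd ℂ) z * t)) *
        (starRingEnd ℂ) ((t + z) / (1 + (starRingEnd ℂ) z * t))) * R / 2) =
      (1 + (starRingEnd ℂ) z * t) *
      ((1 - t * (starRingEnd ℂ) t) *
        (R * ((1 - (starRingEnd ℂ) z * z) / (1 + (starRingEnd ℂ) z * t) ^ 2)
      - 2 * (starRingEnd ℂ) z / (1 + (starRingEnd ℂ) z * t)) / 2 - (starRingEnd ℂ) t) := by
    simp only [map_div₀, map_add, map_one, map_mul, Complex.conj_conj]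
    field_simp
    ring
  have h1 := congrArg norm hkey
  rw [norm_mul, norm_mul, hn] at h1
  have h2 := mul_left_cancel₀ (norm_ne_zero_iff.2 h0) h1
  rw [← h2]
  exact hR

/-- the logarithmic derivative along a ray -/
lemma ray_bound (t e L : ℂ) (s α : ℝ) (hs0 : 0 ≤ s) (_hs1 : s < 1) (he : ‖e‖ = 1)
    (ht : t = s * e)
    (hL : ‖(1 - (‖t‖ : ℂ) ^ 2) * L / 2 - (starRingEnd ℂ) t‖ ≤ α) :
    (e * L).re * (1 - s ^ 2) ≤ 2 * (s + α) := by
  have hts : ‖t‖ = s := by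
    rw [ht, norm_mul, he, Complex.norm_real, Real.norm_of_nonneg hs0, mul_one]
  rw [hts] at hL
  have hee : e * (starRingEnd ℂ) e = 1 := by
    rw [Complex.mul_conj, Complex.normSq_eq_norm_sq, he]; simp
  have h1 : (1 - (s : ℂ) ^ 2) * (e * L) / 2 =
      e * ((1 - (s : ℂ) ^ 2) * L / 2 - (starRingEnd ℂ) t) + s := by
    rw [ht]
    simp only [map_mul, Complex.conj_ofReal]
    linear_combination (s : ℂ) * hee
  have h2 := congrArg Complex.re h1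
  have h3 : ((1 - (s : ℂ) ^ 2) * (e * L) / 2).re = (1 - s ^ 2) * (e * L).re / 2 := by
    have : (1 - (s : ℂ) ^ 2) * (e * L) / 2 = (((1 - s ^ 2) / 2 : ℝ) : ℂ) * (e * L) := by
      push_cast; ring
    rw [this, Complex.re_ofReal_mul]
    ring
  rw [h3, Complex.add_re, Complex.ofReal_re] at h2
  have h4 : (e * ((1 - (s : ℂ) ^ 2) * L / 2 - (starRingEnd ℂ) t)).re ≤ α := by
    calc _ ≤ ‖e * ((1 - (s : ℂ) ^ 2) * L / 2 - (starRingEnd ℂ) t)‖ := Complex.re_le_norm _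
      _ = ‖(1 - (s : ℂ) ^ 2) * L / 2 - (starRingEnd ℂ) t‖ := by rw [norm_mul, he, one_mul]
      _ ≤ α := hL
  nlinarith

/-- integration of the ray bound -/
lemma ray_integrated (G L : ℂ → ℂ) (α : ℝ)
    (hG : ∀ t, ‖t‖ < 1 → HasDerivAt G (G t * L t) t) (hG0 : ∀ t, ‖t‖ < 1 → G t ≠ 0)
    (hL : ∀ t, ‖t‖ < 1 → ‖(1 - (‖t‖ : ℂ) ^ 2) * L t / 2 - (starRingEnd ℂ) t‖ ≤ α)
    (τ : ℂ) (hτ : ‖τ‖ < 1) :
    ‖G τ‖ * (1 - ‖τ‖ ^ 2) * ((1 - ‖τ‖) / (1 + ‖τ‖)) ^ α ≤ ‖G 0‖ := by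
  obtain ⟨e, he, hτe⟩ : ∃ e : ℂ, ‖e‖ = 1 ∧ τ = ‖τ‖ * e := by
    rcases eq_or_ne τ 0 with h | h
    · exact ⟨1, by simp, by simp [h]⟩
    · refine ⟨τ / ‖τ‖, ?_, ?_⟩
      · rw [norm_div, Complex.norm_real, norm_norm, div_self (norm_ne_zero_iff.2 h)]
      · have : (‖τ‖ : ℂ) ≠ 0 := by exact_mod_cast norm_ne_zero_iff.2 h
        field_simp
  set δ := ‖τ‖ with hδ
  have hδ0 : 0 ≤ δ := norm_nonneg _
  set H : ℝ → ℝ := fun s => Real.log (‖G (s * e)‖ ^ 2) -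
    2 * α * (Real.log (1 + s) - Real.log (1 - s)) + 2 * Real.log (1 - s ^ 2) with hH
  have hse : ∀ s : ℝ, 0 ≤ s → s < 1 → ‖(s : ℂ) * e‖ < 1 := by
    intro s h0 h1
    rw [norm_mul, he, Complex.norm_real, Real.norm_of_nonneg h0, mul_one]
    exact h1
  have hd : ∀ s : ℝ, 0 ≤ s → s < 1 → HasDerivAt H (2 * (e * L (s * e)).re -
      2 * α * (1 / (1 + s) + 1 / (1 - s)) + 2 * (-(2 * s) / (1 - s ^ 2))) s := by
    intro s h0 h1
    have hne := hG0 _ (hse s h0 h1)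
    have g1 : HasDerivAt (fun t : ℂ => G (t * e)) (G (s * e) * L (s * e) * e) (s : ℂ) := by
      have := (hG _ (hse s h0 h1)).comp (s : ℂ) ((hasDerivAt_id (s : ℂ)).mul_const e)
      exact this.congr_deriv (by simp)
    have g2 : HasDerivAt (fun x : ℝ => G (x * e)) (G (s * e) * L (s * e) * e) s :=
      g1.comp_ofReal
    have g3 := g2.norm_sq
    have hn2 : ‖G (s * e)‖ ^ 2 ≠ 0 := pow_ne_zero 2 (norm_ne_zero_iff.2 hne)
    have g4 := g3.log hn2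
    have e4 : 2 * inner ℝ (G (s * e)) (G (s * e) * L (s * e) * e) / ‖G (s * e)‖ ^ 2 =
        2 * (e * L (s * e)).re := by
      rw [Complex.inner]
      have : G (s * e) * L (s * e) * e * (starRingEnd ℂ) (G (s * e)) =
          ((‖G (s * e)‖ ^ 2 : ℝ) : ℂ) * (e * L (s * e)) := by
        have h5 : (starRingEnd ℂ) (G (s * e)) * G (s * e) = ((‖G (s * e)‖ ^ 2 : ℝ) : ℂ) := by
          rw [← Complex.normSq_eq_conj_mul_self, Complex.normSq_eq_norm_sq]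
        rw [← h5]; ring
      rw [this, Complex.re_ofReal_mul]
      field_simp
    have g5 : HasDerivAt (fun x : ℝ => Real.log (1 + x)) (1 / (1 + s)) s := by
      have := ((hasDerivAt_id s).const_add 1).log (by simp; linarith)
      simpa using this
    have g6 : HasDerivAt (fun x : ℝ => Real.log (1 - x)) (-1 / (1 - s)) s := by
      have := ((hasDerivAt_id s).const_sub 1).log (by simp; linarith)
      simpa using this
    have hs2 : (1 : ℝ) - s ^ 2 ≠ 0 := by nlinarith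
    have g7 : HasDerivAt (fun x : ℝ => Real.log (1 - x ^ 2)) (-(2 * s) / (1 - s ^ 2)) s := by
      have := ((hasDerivAt_pow 2 s).const_sub 1).log hs2
      exact this.congr_deriv (by simp)
    have g8 := (g4.sub ((g5.sub g6).const_mul (2 * α))).add (g7.const_mul 2)
    exact g8.congr_deriv (by rw [e4]; ring)
  have hanti : AntitoneOn H (Icc 0 δ) := by
    apply antitoneOn_of_deriv_nonpos (convex_Icc 0 δ)
    · intro s hs
      exact (hd s hs.1 (lt_of_le_of_lt hs.2 hτ)).continuousAt.continuousWithinAt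
    · intro s hs
      rw [interior_Icc] at hs
      exact (hd s hs.1.le (lt_trans hs.2 hτ)).differentiableAt.differentiableWithinAt
    · intro s hs
      rw [interior_Icc] at hs
      have h1 : s < 1 := lt_trans hs.2 hτ
      rw [(hd s hs.1.le h1).deriv]
      have h2 := ray_bound (s * e) e (L (s * e)) s α hs.1.le h1 he rfl (hL _ (hse s hs.1.le h1))
      have h3 : 0 < 1 - s ^ 2 := by nlinarith [hs.1]
      have h4 : 2 * (e * L (s * e)).re - 2 * α * (1 / (1 + s) + 1 / (1 - s)) +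
          2 * (-(2 * s) / (1 - s ^ 2)) =
          2 * ((e * L (s * e)).re * (1 - s ^ 2) - 2 * (s + α)) / (1 - s ^ 2) := by
        have h5 : 1 + s ≠ 0 := by linarith [hs.1]
        have h6 : 1 - s ≠ 0 := by linarith
        have h7 : 1 - s ^ 2 ≠ 0 := h3.ne'
        have h8 : 1 - s ^ 2 = (1 + s) * (1 - s) := by ring
        rw [h8]
        field_simp
        ring
      rw [h4]
      apply div_nonpos_of_nonpos_of_nonneg _ h3.le
      linarith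
  have hfin := hanti (left_mem_Icc.2 hδ0) (right_mem_Icc.2 hδ0) hδ0
  have hH0 : H 0 = Real.log (‖G 0‖ ^ 2) := by simp [hH]
  have hHδ : H δ = Real.log (‖G τ‖ ^ 2) -
    2 * α * (Real.log (1 + δ) - Real.log (1 - δ)) + 2 * Real.log (1 - δ ^ 2) := by
    rw [hH]; simp only; rw [← hτe]
  rw [hH0, hHδ] at hfin
  have p1 : 0 < ‖G τ‖ := norm_pos_iff.2 (hG0 τ hτ)
  have p2 : 0 < ‖G 0‖ := norm_pos_iff.2 (hG0 0 (by simp))
  have p3 : 0 < 1 - δ ^ 2 := by nlinarith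
  have p4 : 0 < 1 + δ := by linarith
  have p5 : 0 < 1 - δ := by linarith
  have p6 : 0 < (1 - δ) / (1 + δ) := div_pos p5 p4
  rw [Real.log_pow, Real.log_pow] at hfin
  push_cast at hfin
  have q1 : Real.log (‖G τ‖ * (1 - δ ^ 2) * ((1 - δ) / (1 + δ)) ^ α) ≤ Real.log ‖G 0‖ := by
    rw [Real.log_mul (mul_pos p1 p3).ne' (Real.rpow_pos_of_pos p6 α).ne',
      Real.log_mul p1.ne' p3.ne', Real.log_rpow p6, Real.log_div p5.ne' p4.ne']
    nlinarith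
  exact (Real.log_le_log_iff (mul_pos (mul_pos p1 p3) (Real.rpow_pos_of_pos p6 α)) p2).1 q1

/-- Two-point distortion theorem. -/
lemma two_point (P : ℂ → ℂ) (α : ℝ) (hP : DifferentiableOn ℂ P (ball 0 1))
    (hP0 : ∀ t, ‖t‖ < 1 → P t ≠ 0)
    (hord : ∀ t, ‖t‖ < 1 → ‖-(starRingEnd ℂ) t + (1 - (‖t‖ : ℂ) ^ 2) * deriv P t /
      (2 * P t)‖ ≤ α)
    (z ζ : ℂ) (hz : ‖z‖ < 1) (hζ : ‖ζ‖ < 1) (τ : ℂ) (hτd : τ = (ζ - z) / (1 - (starRingEnd ℂ) z * ζ)) :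
    ‖τ‖ < 1 ∧ ‖P ζ‖ * (1 - ‖ζ‖ ^ 2) * ((1 - ‖τ‖) / (1 + ‖τ‖)) ^ α ≤ ‖P z‖ * (1 - ‖z‖ ^ 2) := by
  have hd0 : 1 - (starRingEnd ℂ) z * ζ ≠ 0 := den_ne z ζ hz hζ.le
  have hd0' : 1 - ζ * (starRingEnd ℂ) z ≠ 0 := by rwa [mul_comm ζ]
  have hz2 : 0 < 1 - ‖z‖ ^ 2 := by nlinarith [norm_nonneg z]
  have hz2c : (1 : ℂ) - (starRingEnd ℂ) z * z = ((1 - ‖z‖ ^ 2 : ℝ) : ℂ) := by
    rw [← Complex.normSq_eq_conj_mul_self, Complex.normSq_eq_norm_sq]
    push_cast; ring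
  have hz2n : (1 : ℂ) - (starRingEnd ℂ) z * z ≠ 0 := by
    rw [hz2c]; exact_mod_cast hz2.ne'
  have hτ : ‖τ‖ < 1 := by
    have := phi_mem (-z) ζ (by rwa [norm_neg]) hζ
    rw [hτd]
    simpa [sub_eq_add_neg] using this
  refine ⟨hτ, ?_⟩
  have h1τ : 1 + (starRingEnd ℂ) z * τ = (1 - (starRingEnd ℂ) z * z) / (1 - (starRingEnd ℂ) z * ζ) := by
    rw [hτd]; field_simp; ring
  have hφτ : (τ + z) / (1 + (starRingEnd ℂ) z * τ) = ζ := by
    have hτz : τ + z = ζ * (1 - (starRingEnd ℂ) z * z) / (1 - (starRingEnd ℂ) z * ζ) := by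
      rw [hτd]; field_simp; ring
    rw [hτz, h1τ, div_div_div_cancel_right₀ hd0, mul_div_assoc, div_self hz2n, mul_one]
  set φ : ℂ → ℂ := fun t => (t + z) / (1 + (starRingEnd ℂ) z * t) with hφ
  have hφm : ∀ t, ‖t‖ < 1 → ‖φ t‖ < 1 := fun t ht => phi_mem z t hz ht
  set G : ℂ → ℂ := fun t => P (φ t) / (1 + (starRingEnd ℂ) z * t) ^ 2 with hGdef
  set L : ℂ → ℂ := fun t => (deriv P (φ t) / P (φ t)) *
    ((1 - (starRingEnd ℂ) z * z) / (1 + (starRingEnd ℂ) z * t) ^ 2)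
      - 2 * (starRingEnd ℂ) z / (1 + (starRingEnd ℂ) z * t) with hLdef
  have hG : ∀ t, ‖t‖ < 1 → HasDerivAt G (G t * L t) t := by
    intro t ht
    have h0 := den_ne' z t hz ht.le
    have h1 : HasDerivAt P (deriv P (φ t)) (φ t) :=
      ((hP _ (by simpa using hφm t ht)).differentiableAt
        (isOpen_ball.mem_nhds (by simpa using hφm t ht))).hasDerivAt
    have h2 : HasDerivAt (fun t => P (φ t)) _ t := h1.comp t (hasDerivAt_phi z t hz ht)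
    have h3 : HasDerivAt (fun t : ℂ => (1 + (starRingEnd ℂ) z * t) ^ 2)
        (2 * (1 + (starRingEnd ℂ) z * t) * (starRingEnd ℂ) z) t := by
      have := (((hasDerivAt_id t).const_mul ((starRingEnd ℂ) z)).const_add 1).pow 2
      exact this.congr_deriv (by simp)
    have h4 := h2.div h3 (pow_ne_zero 2 h0)
    refine h4.congr_deriv ?_
    have h5 := hP0 _ (hφm t ht)
    rw [hGdef, hLdef]
    simp only
    field_simp
  have hG0 : ∀ t, ‖t‖ < 1 → G t ≠ 0 := fun t ht =>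
    div_ne_zero (hP0 _ (hφm t ht)) (pow_ne_zero 2 (den_ne' z t hz ht.le))
  have hL : ∀ t, ‖t‖ < 1 → ‖(1 - (‖t‖ : ℂ) ^ 2) * L t / 2 - (starRingEnd ℂ) t‖ ≤ α := by
    intro t ht
    apply order_inv z t _ hz ht α
    have := hord _ (hφm t ht)
    have e1 : ∀ x y : ℂ, (1 - (‖φ t‖ : ℂ) ^ 2) * x / (2 * y) =
      (1 - (‖φ t‖ : ℂ) ^ 2) * (x / y) / 2 := by
      intro x y; rw [mul_comm 2 y, ← div_div, mul_div_assoc]
    rw [e1] at this
    exact this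
  have hmain := ray_integrated G L α hG hG0 hL τ hτ
  have hGτ : ‖G τ‖ * (1 - ‖τ‖ ^ 2) = ‖P ζ‖ * (1 - ‖ζ‖ ^ 2) / (1 - ‖z‖ ^ 2) := by
    have h1 := one_sub_normSq_phi z τ hz hτ
    rw [hφτ] at h1
    have h2 : ‖G τ‖ = ‖P ζ‖ / ‖1 + (starRingEnd ℂ) z * τ‖ ^ 2 := by
      rw [hGdef]; simp only
      rw [norm_div, norm_pow]
      have : φ τ = ζ := hφτ
      rw [this]
    have h3 : ‖1 + (starRingEnd ℂ) z * τ‖ ≠ 0 := norm_ne_zero_iff.2 (den_ne' z τ hz hτ.le)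
    rw [h2]
    have h4 : 1 - ‖τ‖ ^ 2 = (1 - ‖ζ‖ ^ 2) * ‖1 + (starRingEnd ℂ) z * τ‖ ^ 2 / (1 - ‖z‖ ^ 2) := by
      rw [eq_div_iff hz2.ne']; linarith
    rw [h4]
    field_simp
  have hG00 : G 0 = P z := by simp [hGdef, hφ]
  rw [hGτ, hG00, div_mul_eq_mul_div, div_le_iff₀ hz2] at hmain
  exact hmain

/-! ### Assembly -/

/-- Campbell's majorization theorem, for every `α ≥ 1`. -/
theorem campbell (α : ℝ) (hα : 1 ≤ α) (F f w : ℂ → ℂ) (hF : DifferentiableOn ℂ F (ball 0 1))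
    (hF' : ∀ t, ‖t‖ < 1 → deriv F t ≠ 0) (hF1 : deriv F 0 = 1)
    (hord : ∀ t, ‖t‖ < 1 → ‖-(starRingEnd ℂ) t + (1 - (‖t‖ : ℂ) ^ 2) * deriv (deriv F) t /
      (2 * deriv F t)‖ ≤ α)
    (hw : DifferentiableOn ℂ w (ball 0 1)) (hwz : ∀ t, ‖t‖ < 1 → ‖w t‖ ≤ ‖t‖)
    (hf : ∀ t, ‖t‖ < 1 → f t = F (w t)) (a : ℝ) (ha : 0 ≤ a) (hfa : deriv f 0 = a)
    (z : ℂ) (hz : ‖z‖ < α + 1 - √(α ^ 2 + 2 * α)) : ‖deriv f z‖ ≤ ‖deriv F z‖ := by
  set r := ‖z‖ with hr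
  have hr0 : 0 ≤ r := norm_nonneg z
  have hsq0 : 0 ≤ √(α ^ 2 + 2 * α) := Real.sqrt_nonneg _
  have hsq : √(α ^ 2 + 2 * α) ^ 2 = α ^ 2 + 2 * α := Real.sq_sqrt (by positivity)
  have hr1 : r < 1 := by
    have : α ≤ √(α ^ 2 + 2 * α) := Real.le_sqrt_of_sq_le (by nlinarith)
    linarith
  have h2a : 2 * α * r ≤ (1 - r) ^ 2 := by nlinarith
  have h4 : 4 * r ≤ 1 + r ^ 2 := by nlinarith
  have hball : ∀ t : ℂ, ‖t‖ < 1 → ball (0 : ℂ) 1 ∈ nhds t := fun t ht =>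
    isOpen_ball.mem_nhds (by simpa using ht)
  have hderiv : ∀ t, ‖t‖ < 1 → deriv f t = deriv F (w t) * deriv w t := by
    intro t ht
    have h1 : f =ᶠ[nhds t] (fun t => F (w t)) := by
      filter_upwards [hball t ht] with s hs
      exact hf s (by simpa using hs)
    rw [h1.deriv_eq]
    have h2 : HasDerivAt w (deriv w t) t :=
      ((hw t (by simpa using ht)).differentiableAt (hball t ht)).hasDerivAt
    have h3 : ‖w t‖ < 1 := (hwz t ht).trans_lt ht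
    have h4 : HasDerivAt F (deriv F (w t)) (w t) :=
      ((hF _ (by simpa using h3)).differentiableAt (hball _ h3)).hasDerivAt
    exact (h4.comp t h2).deriv
  have hw0 : w 0 = 0 := by
    have := hwz 0 (by simp)
    rwa [norm_zero, norm_le_zero_iff] at this
  have hda : deriv w 0 = a := by
    have := hderiv 0 (by simp)
    rw [hw0, hF1, one_mul] at this
    rw [← this, hfa]
  have hP : DifferentiableOn ℂ (deriv F) (ball 0 1) := hF.deriv isOpen_ball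
  rcases w_struct w hw hwz a ha hda z hr1 with hid | ⟨ha1, v, η, hv, hη, hwz', hw1⟩
  · have h1 : f =ᶠ[nhds z] F := by
      filter_upwards [hball z hr1] with s hs
      have hs' : ‖s‖ < 1 := by simpa using hs
      rw [hf s hs', hid s hs']
    rw [h1.deriv_eq]
  · set u : ℂ := ((a : ℂ) + v) / (1 + a * v) with hu
    obtain ⟨hpos, hC5⟩ := C5 a ha ha1 r hr1 h4 v η hv hη u (deriv w z) hu (by rw [hw1])
    have hζ1 : ‖w z‖ < 1 := (hwz z hr1).trans_lt hr1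
    obtain ⟨hτ1, hD⟩ := two_point (deriv F) α hP hF' hord z (w z) hr1 hζ1 _ rfl
    have hden : ‖1 - (r : ℂ) ^ 2 * u‖ ≠ 0 := by
      rw [norm_ne_zero_iff]
      have := den_ne z (w z) hr1 hζ1.le
      rw [hwz'] at this
      intro h
      apply this
      rw [← h, ← mul_assoc, ← Complex.normSq_eq_conj_mul_self, Complex.normSq_eq_norm_sq]
      push_cast; rfl
    have hδ : ‖(w z - z) / (1 - (starRingEnd ℂ) z * w z)‖ = r * ‖1 - u‖ / ‖1 - (r : ℂ) ^ 2 * u‖ := by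
      rw [hwz', norm_div]
      congr 1
      · rw [hr, ← norm_mul, ← norm_neg]
        congr 1; ring
      · congr 1
        rw [← mul_assoc, ← Complex.normSq_eq_conj_mul_self, Complex.normSq_eq_norm_sq]
        push_cast; rfl
    rw [hδ] at hD hτ1
    set N := ‖1 - (r : ℂ) ^ 2 * u‖ with hN
    have hNpos : 0 < N := lt_of_le_of_ne (norm_nonneg _) (Ne.symm hden)
    set m := ‖1 - u‖ with hm
    have hm0 : 0 ≤ m := norm_nonneg _
    set K := ‖1 - (r : ℂ) * u‖ with hK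
    have htri : (1 + r) * K ≤ N + r * m := by
      have e1 : (1 + r : ℝ) * K = ‖(1 - (r : ℂ) ^ 2 * u) + (r : ℂ) * (1 - u)‖ := by
        rw [hK]
        have : (1 - (r : ℂ) ^ 2 * u) + (r : ℂ) * (1 - u) = ((1 + r : ℝ) : ℂ) * (1 - (r : ℂ) * u) := by
          push_cast; ring
        rw [this, norm_mul, Complex.norm_real, Real.norm_of_nonneg (by linarith)]
      have e2 : r * m = ‖(r : ℂ) * (1 - u)‖ := by
        rw [norm_mul, Complex.norm_real, Real.norm_of_nonneg hr0]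
      rw [e1, e2]
      exact norm_add_le _ _
    have hq : (1 - r * m / N) / (1 + r * m / N) = 1 + -(2 * (r * m) / (N + r * m)) := by
      have : N + r * m ≠ 0 := by positivity
      field_simp
      ring
    have hbern : 1 + α * (-(2 * (r * m) / (N + r * m))) ≤
        ((1 - r * m / N) / (1 + r * m / N)) ^ α := by
      rw [hq]
      apply one_add_mul_self_le_rpow_one_add _ hα
      have h5 : 0 < N + r * m := by positivity
      have h6 : r * m < N := by rwa [div_lt_one hNpos] at hτ1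
      have : 2 * (r * m) / (N + r * m) ≤ 1 := by
        rw [div_le_one h5]; linarith
      linarith
    have hX : 2 * α * (r * m) / (N + r * m) ≤ (1 - r) ^ 2 * m / ((1 + r) * K) := by
      have h5 : 0 < (1 + r) * K := by positivity
      calc 2 * α * (r * m) / (N + r * m) ≤ 2 * α * (r * m) / ((1 + r) * K) :=
            div_le_div_of_nonneg_left (by positivity) h5 htri
        _ ≤ (1 - r) ^ 2 * m / ((1 + r) * K) := by
            apply div_le_div_of_nonneg_right _ h5.le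
            nlinarith
    have hqX : 1 - (1 - r) ^ 2 * m / ((1 + r) * K) ≤ ((1 - r * m / N) / (1 + r * m / N)) ^ α := by
      have e : α * (-(2 * (r * m) / (N + r * m))) = -(2 * α * (r * m) / (N + r * m)) := by ring
      rw [e] at hbern
      linarith
    have hζn : ‖w z‖ ^ 2 = r ^ 2 * ‖u‖ ^ 2 := by
      rw [hwz', norm_mul, mul_pow]
    have hr2 : 0 < 1 - r ^ 2 := by nlinarith
    have hζ2 : 0 ≤ 1 - r ^ 2 * ‖u‖ ^ 2 := by
      rw [← hζn]; nlinarith [norm_nonneg (w z)]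
    rw [hζn] at hD
    rw [hderiv z hr1, norm_mul]
    have hPn := norm_nonneg (deriv F (w z))
    have h7 : ‖deriv F (w z)‖ * ((1 - r ^ 2) * ‖deriv w z‖) ≤ ‖deriv F z‖ * (1 - r ^ 2) := by
      calc ‖deriv F (w z)‖ * ((1 - r ^ 2) * ‖deriv w z‖)
          ≤ ‖deriv F (w z)‖ * ((1 - r ^ 2 * ‖u‖ ^ 2) *
            (1 - (1 - r) ^ 2 * m / ((1 + r) * K))) := mul_le_mul_of_nonneg_left hC5 hPn
        _ ≤ ‖deriv F (w z)‖ * ((1 - r ^ 2 * ‖u‖ ^ 2) *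
            ((1 - r * m / N) / (1 + r * m / N)) ^ α) := by gcongr
        _ = ‖deriv F (w z)‖ * (1 - r ^ 2 * ‖u‖ ^ 2) *
            ((1 - r * m / N) / (1 + r * m / N)) ^ α := by ring
        _ ≤ ‖deriv F z‖ * (1 - r ^ 2) := hD
    have h8 : ‖deriv F (w z)‖ * ‖deriv w z‖ * (1 - r ^ 2) ≤ ‖deriv F z‖ * (1 - r ^ 2) := by
      linarith
    exact le_of_mul_le_mul_right h8 hr2
end Pool.Agent.H174.Campbell
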