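import Mathlib

/-!
# Exposed points of the unit balls of finite codimensional subspaces of `H^∞`

For a finite set `Φ` of bounded linear functionals on `H^∞` of the circle, a function `f` in the
common kernel `H^∞_Φ` is an exposed point of the unit ball of `H^∞_Φ` if and only if `‖f‖ = 1` and
`|f| = 1` on a set of positive measure.

Forward direction.  Let `‖f‖ = 1`, `|f| < 1` a.e.  Choose `Ψ ∈ L²`, `Ψ ≥ 0`, tending to infinity
as `|f| → 1`, and an analytic completion `Q` with `Re Q = Ψ`.  The functions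
`B_t = (1 + Q)^{-t}`, `t > 0`, lie in `H^∞`, they tend to `0` as `|f| → 1`, and
`Re B_t ≥ |B_t| / 2` for `t ≤ 1/2`.  The images of the increasing subspaces `B_{2^{-n}} H^∞` under
the finite rank map `T = (φ)_{φ ∈ Φ}` stabilise, so for some `n`, with `P = B_{2^{-n-1}}`, there is
`h₁ ∈ H^∞` with `T(P f) = T(P² h₁)`.  Then `h = P f - P² h₁ ∈ H^∞_Φ` is nonzero, it is annihilated
by every norm one functional `Λ` with `Λ f = 1`, and `‖f - ε h‖ ≤ 1` for small `ε > 0`.

Converse: the functional `g ↦ m(E)⁻¹ ∫_E g \bar f`, `E = {|f| = 1}`, exposes `f`, by the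
uniqueness theorem for functions of `H^∞` vanishing on a set of positive measure.
-/

open MeasureTheory AddCircle Filter Topology
open scoped ENNReal

namespace Pool.Agent.H174.Exposed


/-- the coordinate function -/
noncomputable abbrev ze (x : UnitAddCircle) : ℂ := fourier 1 x

lemma ze_norm (x : UnitAddCircle) : ‖ze x‖ = 1 := by
  simp only [ze, fourier_apply]
  exact Circle.norm_coe _

lemma fou_norm (n : ℤ) (x : UnitAddCircle) : ‖(fourier n x : ℂ)‖ = 1 := by
  simp only [fourier_apply]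
  exact Circle.norm_coe _

lemma ze_pow (k : ℕ) (x : UnitAddCircle) : (fourier (k : ℤ) x : ℂ) = ze x ^ k := by
  simp only [ze, fourier_apply]
  rw [one_smul, ← Circle.coe_pow, ← AddCircle.toCircle_nsmul]
  simp

lemma integral_comp_ze (G : ℂ → ℂ) :
    ∫ x, G (ze x) ∂(haarAddCircle : Measure UnitAddCircle) = Real.circleAverage G 0 1 := by
  have h := fourierCoeff_eq_intervalIntegral (T := 1) (fun x : UnitAddCircle => G (ze x)) 0 0
  have h2 : fourierCoeff (fun x : UnitAddCircle => G (ze x)) 0 = ∫ x, G (ze x) ∂(haarAddCircle : Measure UnitAddCircle) := by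
    simp [fourierCoeff]
  rw [← h2, h, Real.circleAverage]
  have h3 := intervalIntegral.integral_comp_mul_left (a := 0) (b := 1)
    (fun θ : ℝ => G (circleMap 0 1 θ)) (c := 2 * Real.pi) (by positivity)
  simp only [mul_zero, mul_one] at h3
  rw [← h3]
  simp only [ze, div_one, one_smul, zero_add]
  apply intervalIntegral.integral_congr
  intro x _
  simp only [neg_zero, fourier_zero, one_smul]
  rw [fourier_coe_apply]
  simp [circleMap]
  congr 2
  ring

lemma integral_mv (G : ℂ → ℂ) (hG : ∀ z ∈ Metric.closedBall (0 : ℂ) 1, DifferentiableAt ℂ G z) :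
    ∫ x, G (ze x) ∂(haarAddCircle : Measure UnitAddCircle) = G 0 := by
  rw [integral_comp_ze]
  apply circleAverage_of_differentiable_on_off_countable (s := ∅) (by simp)
  · intro z hz
    simp only [abs_one] at hz
    exact (hG z hz).continuousAt.continuousWithinAt
  · intro z hz
    simp only [abs_one, Set.sdiff_empty] at hz
    exact hG z (Metric.ball_subset_closedBall hz)

/-- bounded functions with vanishing negative Fourier coefficients -/
structure HB (F : UnitAddCircle → ℂ) : Prop where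
  aesm : AEStronglyMeasurable F (haarAddCircle : Measure UnitAddCircle)
  bdd : ∃ C : ℝ, ∀ᵐ x ∂(haarAddCircle : Measure UnitAddCircle), ‖F x‖ ≤ C
  coeff : ∀ n : ℤ, n < 0 → fourierCoeff F n = 0

lemma memLp_of_bdd {F : UnitAddCircle → ℂ} (h1 : AEStronglyMeasurable F (haarAddCircle : Measure UnitAddCircle))
    (h2 : ∃ C : ℝ, ∀ᵐ x ∂(haarAddCircle : Measure UnitAddCircle), ‖F x‖ ≤ C) (p : ℝ≥0∞) : MemLp F p (haarAddCircle : Measure UnitAddCircle) := by
  obtain ⟨C, hC⟩ := h2
  exact MemLp.of_bound h1 C hC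

lemma conv_coeff {F G : UnitAddCircle → ℂ} (hF1 : AEStronglyMeasurable F (haarAddCircle : Measure UnitAddCircle))
    (hF2 : ∃ C : ℝ, ∀ᵐ x ∂(haarAddCircle : Measure UnitAddCircle), ‖F x‖ ≤ C) (hG1 : AEStronglyMeasurable G (haarAddCircle : Measure UnitAddCircle))
    (hG2 : ∃ C : ℝ, ∀ᵐ x ∂(haarAddCircle : Measure UnitAddCircle), ‖G x‖ ≤ C) (n : ℤ) :
    HasSum (fun i : ℤ => fourierCoeff F i * fourierCoeff G (n - i))
      (fourierCoeff (fun x => F x * G x) n) := by
  have hF := memLp_of_bdd hF1 hF2 2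
  have hG := memLp_of_bdd hG1 hG2 2
  -- the test function
  let K : UnitAddCircle → ℂ := fun x => (starRingEnd ℂ) (fourier (-n) x * G x)
  have hK1 : AEStronglyMeasurable K (haarAddCircle : Measure UnitAddCircle) := by
    apply (Complex.continuous_conj.comp_aestronglyMeasurable)
    exact ((fourier (-n)).continuous.aestronglyMeasurable).mul hG1
  have hK2 : ∃ C : ℝ, ∀ᵐ x ∂(haarAddCircle : Measure UnitAddCircle), ‖K x‖ ≤ C := by
    obtain ⟨C, hC⟩ := hG2
    refine ⟨C, hC.mono fun x hx => ?_⟩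
    simp only [K, RCLike.norm_conj, norm_mul, fou_norm, one_mul]
    exact hx
  have hK := memLp_of_bdd hK1 hK2 2
  have hs := hasSum_fourier_series_L2 (T := 1) (hF.toLp F)
  have hs2 := hs.mapL (innerSL ℂ (hK.toLp K))
  have e1 : ∀ (H : UnitAddCircle → ℂ) (hH : MemLp H 2 (haarAddCircle : Measure UnitAddCircle)),
      innerSL ℂ (hK.toLp K) (hH.toLp H) = fourierCoeff (fun x => H x * G x) n := by
    intro H hH
    rw [innerSL_apply_apply, L2.inner_def, fourierCoeff]
    apply integral_congr_ae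
    filter_upwards [hK.coeFn_toLp, hH.coeFn_toLp] with x hx hx2
    rw [hx, hx2]
    simp only [K, RCLike.inner_apply, Complex.conj_conj, smul_eq_mul]
    ring
  rw [e1 F hF] at hs2
  suffices h : (fun i : ℤ => fourierCoeff F i * fourierCoeff G (n - i)) = (fun b =>
      ((innerSL ℂ) (MemLp.toLp K hK)) (fourierCoeff (↑↑(MemLp.toLp F hF)) b • fourierLp 2 b)) by
    rw [h]; exact hs2
  funext i
  have hi : MemLp (fun x : UnitAddCircle => (fourier i x : ℂ)) 2 (haarAddCircle : Measure UnitAddCircle) :=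
    memLp_of_bdd (fourier i).continuous.aestronglyMeasurable
      ⟨1, Eventually.of_forall fun x => (fou_norm i x).le⟩ 2
  have e2 : fourierLp (T := 1) 2 i = hi.toLp _ := by
    apply Lp.ext
    filter_upwards [coeFn_fourierLp (T := 1) 2 i, hi.coeFn_toLp] with x hx hx2
    rw [hx, hx2]
  rw [map_smul, e2, e1 _ hi, smul_eq_mul]
  congr 1
  · rw [fourierCoeff_congr_ae hF.coeFn_toLp]
  · rw [fourierCoeff, fourierCoeff]
    congr 1
    funext x
    simp only [smul_eq_mul]
    rw [← mul_assoc, ← fourier_add]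
    congr 3
    ring

lemma HB.mul {F G : UnitAddCircle → ℂ} (hF : HB F) (hG : HB G) : HB (fun x => F x * G x) := by
  refine ⟨hF.aesm.mul hG.aesm, ?_, ?_⟩
  · obtain ⟨C, hC⟩ := hF.bdd
    obtain ⟨D, hD⟩ := hG.bdd
    refine ⟨C * D, ?_⟩
    filter_upwards [hC, hD] with x h1 h2
    rw [norm_mul]
    exact mul_le_mul h1 h2 (norm_nonneg _) ((norm_nonneg _).trans h1)
  · intro n hn
    have h := conv_coeff hF.aesm hF.bdd hG.aesm hG.bdd n
    have h0 : (fun i : ℤ => fourierCoeff F i * fourierCoeff G (n - i)) = fun _ => 0 := by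
      funext i
      by_cases hi : i < 0
      · rw [hF.coeff i hi, zero_mul]
      · rw [hG.coeff (n - i) (by omega), mul_zero]
    rw [h0] at h
    exact (hasSum_zero.unique h).symm

lemma HB.mul_coeff_zero {F G : UnitAddCircle → ℂ} (hF : HB F) (hG : HB G) :
    fourierCoeff (fun x => F x * G x) 0 = fourierCoeff F 0 * fourierCoeff G 0 := by
  have h := conv_coeff hF.aesm hF.bdd hG.aesm hG.bdd 0
  have h0 : ∀ i : ℤ, i ≠ 0 → fourierCoeff F i * fourierCoeff G (0 - i) = 0 := by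
    intro i hi
    by_cases hi : i < 0
    · rw [hF.coeff i hi, zero_mul]
    · rw [hG.coeff (0 - i) (by omega), mul_zero]
  have h1 := hasSum_single (f := fun i : ℤ => fourierCoeff F i * fourierCoeff G (0 - i)) 0 h0
  have := h.unique h1
  simpa using this

lemma HB.add {F G : UnitAddCircle → ℂ} (hF : HB F) (hG : HB G) : HB (fun x => F x + G x) := by
  refine ⟨hF.aesm.add hG.aesm, ?_, ?_⟩
  · obtain ⟨C, hC⟩ := hF.bdd
    obtain ⟨D, hD⟩ := hG.bdd
    refine ⟨C + D, ?_⟩
    filter_upwards [hC, hD] with x h1 h2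
    exact (norm_add_le _ _).trans (add_le_add h1 h2)
  · intro n hn
    have e : fourierCoeff (fun x => F x + G x) n = fourierCoeff F n + fourierCoeff G n := by
      rw [fourierCoeff, fourierCoeff, fourierCoeff, ← integral_add]
      · simp only [smul_add]
      · exact (memLp_of_bdd hF.aesm hF.bdd 1).integrable le_rfl |>.bdd_mul
          (c := 1) (fourier (-n)).continuous.aestronglyMeasurable
          (Eventually.of_forall fun x => (fou_norm _ x).le)
      · exact (memLp_of_bdd hG.aesm hG.bdd 1).integrable le_rfl |>.bdd_mul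
          (c := 1) (fourier (-n)).continuous.aestronglyMeasurable
          (Eventually.of_forall fun x => (fou_norm _ x).le)
    rw [e, hF.coeff n hn, hG.coeff n hn, add_zero]

lemma HB.smul {F : UnitAddCircle → ℂ} (hF : HB F) (c : ℂ) : HB (fun x => c * F x) := by
  refine ⟨hF.aesm.const_mul c, ?_, ?_⟩
  · obtain ⟨C, hC⟩ := hF.bdd
    refine ⟨‖c‖ * C, ?_⟩
    filter_upwards [hC] with x h1
    rw [norm_mul]
    exact mul_le_mul_of_nonneg_left h1 (norm_nonneg _)
  · intro n hn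
    have e : fourierCoeff (fun x => c * F x) n = c * fourierCoeff F n := by
      rw [fourierCoeff, fourierCoeff, ← integral_const_mul]
      congr 1
      funext x
      simp only [smul_eq_mul]
      ring
    rw [e, hF.coeff n hn, mul_zero]

lemma HB.congr {F G : UnitAddCircle → ℂ} (hF : HB F) (h : F =ᵐ[(haarAddCircle : Measure UnitAddCircle)] G) : HB G := by
  refine ⟨hF.aesm.congr h, ?_, ?_⟩
  · obtain ⟨C, hC⟩ := hF.bdd
    refine ⟨C, ?_⟩
    filter_upwards [hC, h] with x h1 h2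
    rwa [← h2]
  · intro n hn
    rw [← fourierCoeff_congr_ae h]
    exact hF.coeff n hn

lemma tendsto_coeff {F : ℕ → UnitAddCircle → ℂ} {G : UnitAddCircle → ℂ} (C : ℝ)
    (hm : ∀ m, AEStronglyMeasurable (F m) (haarAddCircle : Measure UnitAddCircle))
    (hC : ∀ m, ∀ᵐ x ∂(haarAddCircle : Measure UnitAddCircle), ‖F m x‖ ≤ C)
    (hl : ∀ᵐ x ∂(haarAddCircle : Measure UnitAddCircle), Tendsto (fun m => F m x) atTop (𝓝 (G x))) (n : ℤ) :
    Tendsto (fun m => fourierCoeff (F m) n) atTop (𝓝 (fourierCoeff G n)) := by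
  unfold fourierCoeff
  apply tendsto_integral_of_dominated_convergence (fun _ => C)
  · intro m
    exact ((fourier (-n)).continuous.aestronglyMeasurable).smul (hm m)
  · exact integrable_const C
  · intro m
    filter_upwards [hC m] with x hx
    rw [norm_smul, fou_norm, one_mul]
    exact hx
  · filter_upwards [hl] with x hx
    exact hx.const_smul _

lemma HB.limit {F : ℕ → UnitAddCircle → ℂ} {G : UnitAddCircle → ℂ} (C : ℝ)
    (hF : ∀ m, HB (F m)) (hC : ∀ m, ∀ᵐ x ∂(haarAddCircle : Measure UnitAddCircle), ‖F m x‖ ≤ C)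
    (hl : ∀ᵐ x ∂(haarAddCircle : Measure UnitAddCircle), Tendsto (fun m => F m x) atTop (𝓝 (G x))) : HB G := by
  refine ⟨aestronglyMeasurable_of_tendsto_ae atTop (fun m => (hF m).aesm) hl, ⟨C, ?_⟩, ?_⟩
  · filter_upwards [hl, ae_all_iff.2 hC] with x h1 h2
    exact le_of_tendsto h1.norm (Eventually.of_forall h2)
  · intro n hn
    have h := tendsto_coeff C (fun m => (hF m).aesm) hC hl n
    have h0 : (fun m => fourierCoeff (F m) n) = fun _ => 0 := by
      funext m
      exact (hF m).coeff n hn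
    rw [h0] at h
    exact (tendsto_nhds_unique h tendsto_const_nhds)

lemma HB.of_holo (G : ℂ → ℂ) (hG : ∀ z ∈ Metric.closedBall (0 : ℂ) 1, DifferentiableAt ℂ G z) :
    HB (fun x => G (ze x)) := by
  have hcont : Continuous (fun x : UnitAddCircle => G (ze x)) := by
    rw [continuous_iff_continuousAt]
    intro x
    have h1 : ContinuousAt G (ze x) := (hG _ (by
      rw [mem_closedBall_zero_iff, ze_norm])).continuousAt
    exact ContinuousAt.comp h1 (fourier 1).continuous.continuousAt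
  refine ⟨hcont.aestronglyMeasurable, ?_, ?_⟩
  · obtain ⟨C, hC⟩ := isCompact_univ.exists_bound_of_continuousOn
      (f := fun x : UnitAddCircle => G (ze x)) hcont.continuousOn
    exact ⟨C, Eventually.of_forall fun x => hC x (Set.mem_univ x)⟩
  · intro n hn
    obtain ⟨k, hk⟩ : ∃ k : ℕ, -n = (k : ℤ) := ⟨(-n).toNat, by omega⟩
    have hk0 : k ≠ 0 := by omega
    have h := integral_mv (fun z => z ^ k * G z) (fun z hz => by
      exact (differentiableAt_pow k).mul (hG z hz))
    rw [fourierCoeff]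
    simp only [zero_pow hk0, zero_mul] at h
    rw [← h]
    congr 1
    funext x
    rw [hk, ze_pow, smul_eq_mul]

lemma coeff_zero_of_holo (G : ℂ → ℂ)
    (hG : ∀ z ∈ Metric.closedBall (0 : ℂ) 1, DifferentiableAt ℂ G z) :
    fourierCoeff (fun x => G (ze x)) 0 = G 0 := by
  rw [← integral_mv G hG, fourierCoeff]
  simp

lemma re_nonneg_of_circle (p : Polynomial ℂ) (hp : ∀ x : UnitAddCircle, 0 ≤ (p.eval (ze x)).re)
    (z : ℂ) (hz : ‖z‖ ≤ 1) : 0 ≤ (p.eval z).re := by
  have h := Complex.norm_le_of_forall_mem_frontier_norm_le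
    (f := fun z : ℂ => Complex.exp (-(p.eval z))) (U := Metric.ball (0 : ℂ) 1)
    Metric.isBounded_ball (C := 1) (z := z)
    (by
      apply Differentiable.diffContOnCl
      exact (Complex.differentiable_exp).comp (p.differentiable.neg))
    (by
      intro w hw
      rw [frontier_ball (0 : ℂ) one_ne_zero, mem_sphere_zero_iff_norm] at hw
      obtain ⟨x, hx⟩ := (AddCircle.homeomorphCircle (T := 1) one_ne_zero).surjective
        ⟨w, by rw [Submonoid.unitSphere]; exact mem_sphere_zero_iff_norm.2 hw⟩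
      rw [AddCircle.homeomorphCircle_apply] at hx
      have hx2 : ze x = w := by
        simp only [ze, fourier_apply, one_smul]
        rw [hx]
      have := hp x
      rw [hx2] at this
      rw [Complex.norm_exp]
      simp only [Complex.neg_re]
      exact Real.exp_le_one_iff.2 (by linarith))
    (by
      rw [closure_ball (0 : ℂ) one_ne_zero, mem_closedBall_zero_iff]
      exact hz)
  rw [Complex.norm_exp, Real.exp_le_one_iff, Complex.neg_re] at h
  linarith

/-- real parts of polynomials are dense in the real continuous functions on the circle -/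
lemma exists_poly_approx (g : C(UnitAddCircle, ℝ)) (δ : ℝ) (hδ : 0 < δ) :
    ∃ p : Polynomial ℂ, (∀ x, |(p.eval (ze x)).re - g x| ≤ δ) ∧ (p.eval 0).im = 0 := by
  let g' : C(UnitAddCircle, ℂ) := ⟨fun x => (g x : ℂ), by fun_prop⟩
  have h1 : g' ∈ (Submodule.span ℂ (Set.range (@fourier 1))).topologicalClosure := by
    rw [span_fourier_closure_eq_top]; trivial
  have h2 := Metric.mem_closure_iff.1 h1 δ hδ
  obtain ⟨τ, hτ, hd⟩ := h2
  have h3 : ∃ p q : Polynomial ℂ, ∀ x, τ x = p.eval (ze x) + (starRingEnd ℂ) (q.eval (ze x)) := by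
    have hτ' : τ ∈ Submodule.span ℂ (Set.range (@fourier 1)) := hτ
    clear hd hτ
    induction hτ' using Submodule.span_induction with
    | mem y hy =>
      obtain ⟨n, rfl⟩ := hy
      by_cases hn : 0 ≤ n
      · refine ⟨Polynomial.X ^ n.toNat, 0, fun x => ?_⟩
        have : n = (n.toNat : ℤ) := by omega
        conv_lhs => rw [this]
        rw [ze_pow]; simp
      · refine ⟨0, Polynomial.X ^ (-n).toNat, fun x => ?_⟩
        have : n = -((-n).toNat : ℤ) := by omega
        conv_lhs => rw [this]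
        rw [fourier_neg, ze_pow]; simp
    | zero => exact ⟨0, 0, fun x => by simp⟩
    | add y z _ _ hy hz =>
      obtain ⟨p, q, h⟩ := hy
      obtain ⟨p', q', h'⟩ := hz
      refine ⟨p + p', q + q', fun x => ?_⟩
      rw [ContinuousMap.add_apply, h, h']
      simp only [Polynomial.eval_add, map_add]
      ring
    | smul a y _ hy =>
      obtain ⟨p, q, h⟩ := hy
      refine ⟨Polynomial.C a * p, Polynomial.C ((starRingEnd ℂ) a) * q, fun x => ?_⟩
      rw [ContinuousMap.smul_apply, h]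
      simp only [Polynomial.eval_mul, Polynomial.eval_C, map_mul, Complex.conj_conj, smul_eq_mul]
      ring
  obtain ⟨p, q, hpq⟩ := h3
  refine ⟨p + q - Polynomial.C (((p + q).eval 0).im * Complex.I), fun x => ?_, ?_⟩
  · have h4 : dist (g' x) (τ x) < δ := (ContinuousMap.dist_apply_le_dist x).trans_lt hd
    have h5 : ((p + q - Polynomial.C (((p + q).eval 0).im * Complex.I)).eval (ze x)).re
        = (τ x).re := by
      rw [hpq]
      simp
    rw [h5]
    have h6 : (τ x).re - g x = (τ x - g' x).re := by simp [g']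
    rw [h6]
    calc |(τ x - g' x).re| ≤ ‖τ x - g' x‖ := Complex.abs_re_le_norm _
      _ = dist (τ x) (g' x) := (dist_eq_norm _ _).symm
      _ = dist (g' x) (τ x) := dist_comm _ _
      _ ≤ δ := h4.le
  · simp

lemma poly_memLp (p : Polynomial ℂ) (r : ℝ≥0∞) : MemLp (fun x : UnitAddCircle => p.eval (ze x)) r (haarAddCircle : Measure UnitAddCircle) := by
  have h := HB.of_holo (fun z => p.eval z) (fun z _ => p.differentiable z)
  exact memLp_of_bdd h.aesm h.bdd r

lemma poly_L2 (p : Polynomial ℂ) (h0 : (p.eval 0).im = 0) :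
    eLpNorm (fun x : UnitAddCircle => p.eval (ze x)) 2 (haarAddCircle : Measure UnitAddCircle)
      ≤ 2 * eLpNorm (fun x : UnitAddCircle => (p.eval (ze x)).re) 2 (haarAddCircle : Measure UnitAddCircle) := by
  have hp := poly_memLp p 2
  have hre : MemLp (fun x : UnitAddCircle => (p.eval (ze x)).re) 2 (haarAddCircle : Measure UnitAddCircle) := hp.re
  have him : MemLp (fun x : UnitAddCircle => (p.eval (ze x)).im) 2 (haarAddCircle : Measure UnitAddCircle) := hp.im
  have h1 := integral_mv (fun z => (p.eval z) ^ 2) (fun z _ => (p.differentiable z).pow 2)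
  have h2 : ∫ x, ((p.eval (ze x)).re ^ 2 - (p.eval (ze x)).im ^ 2) ∂(haarAddCircle : Measure UnitAddCircle) = (p.eval 0).re ^ 2 := by
    have h3 : ∫ x, ((p.eval (ze x)) ^ 2).re ∂(haarAddCircle : Measure UnitAddCircle) = (∫ x, (p.eval (ze x)) ^ 2 ∂(haarAddCircle : Measure UnitAddCircle)).re := by
      have hi : Integrable (fun x : UnitAddCircle => (p.eval (ze x)) ^ 2) (haarAddCircle : Measure UnitAddCircle) := by
        have := poly_memLp (p ^ 2) 1
        rw [memLp_one_iff_integrable] at this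
        simpa using this
      exact integral_re hi
    have h4 : ((p.eval 0) ^ 2).re = (p.eval 0).re ^ 2 := by
      rw [sq, Complex.mul_re, h0]; ring
    rw [← h4, ← h1, ← h3]
    congr 1
    funext x
    rw [sq (p.eval (ze x)), Complex.mul_re]; ring
  rw [integral_sub hre.integrable_sq him.integrable_sq] at h2
  have h5 : ∫ x, ‖p.eval (ze x)‖ ^ 2 ∂(haarAddCircle : Measure UnitAddCircle) ≤ 2 * ∫ x, (p.eval (ze x)).re ^ 2 ∂(haarAddCircle : Measure UnitAddCircle) := by
    have h6 : ∫ x, ‖p.eval (ze x)‖ ^ 2 ∂(haarAddCircle : Measure UnitAddCircle)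
        = ∫ x, (p.eval (ze x)).re ^ 2 ∂(haarAddCircle : Measure UnitAddCircle) + ∫ x, (p.eval (ze x)).im ^ 2 ∂(haarAddCircle : Measure UnitAddCircle) := by
      rw [← integral_add hre.integrable_sq him.integrable_sq]
      congr 1
      funext x
      rw [Complex.sq_norm, Complex.normSq_apply]; ring
    have : 0 ≤ (p.eval 0).re ^ 2 := sq_nonneg _
    linarith
  rw [hp.eLpNorm_eq_integral_rpow_norm (by norm_num) (by norm_num),
    hre.eLpNorm_eq_integral_rpow_norm (by norm_num) (by norm_num)]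
  simp only [ENNReal.toReal_ofNat, Real.rpow_two, Real.norm_eq_abs, sq_abs]
  rw [show (2 : ℝ≥0∞) = ENNReal.ofReal 2 by simp, ← ENNReal.ofReal_mul (by norm_num)]
  apply ENNReal.ofReal_le_ofReal
  have h7 : (0:ℝ) ≤ ∫ x, (p.eval (ze x)).re ^ 2 ∂(haarAddCircle : Measure UnitAddCircle) := integral_nonneg fun x => sq_nonneg _
  calc (∫ x, ‖p.eval (ze x)‖ ^ 2 ∂(haarAddCircle : Measure UnitAddCircle)) ^ (2 : ℝ)⁻¹
      ≤ (2 * ∫ x, (p.eval (ze x)).re ^ 2 ∂(haarAddCircle : Measure UnitAddCircle)) ^ (2 : ℝ)⁻¹ := by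
        apply Real.rpow_le_rpow (integral_nonneg fun x => by positivity) h5 (by norm_num)
    _ ≤ (2 ^ 2 * ∫ x, (p.eval (ze x)).re ^ 2 ∂(haarAddCircle : Measure UnitAddCircle)) ^ (2 : ℝ)⁻¹ := by
        apply Real.rpow_le_rpow (by positivity) (by nlinarith) (by norm_num)
    _ = 2 * (∫ x, (p.eval (ze x)).re ^ 2 ∂(haarAddCircle : Measure UnitAddCircle)) ^ (2 : ℝ)⁻¹ := by
        rw [Real.mul_rpow (by norm_num) h7]
        congr 1
        rw [← Real.rpow_natCast, ← Real.rpow_mul (by norm_num)]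
        norm_num

lemma exists_poly_L2 {Ψ : UnitAddCircle → ℝ} (h0 : ∀ x, 0 ≤ Ψ x) (hΨ : MemLp Ψ 2 (haarAddCircle : Measure UnitAddCircle))
    {ε : ℝ} (hε : 0 < ε) :
    ∃ p : Polynomial ℂ, (∀ x : UnitAddCircle, 0 ≤ (p.eval (ze x)).re) ∧ (p.eval 0).im = 0 ∧
      eLpNorm (fun x : UnitAddCircle => (p.eval (ze x)).re - Ψ x) 2 (haarAddCircle : Measure UnitAddCircle) ≤ ENNReal.ofReal ε := by
  obtain ⟨g, hg, hgm⟩ := hΨ.exists_boundedContinuous_eLpNorm_sub_le (by norm_num)
    (ε := ENNReal.ofReal (ε / 2)) (by simpa using hε)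
  let g' : C(UnitAddCircle, ℝ) := ⟨fun x => max (g x) 0, by fun_prop⟩
  obtain ⟨q, hq1, hq2⟩ := exists_poly_approx g' (ε / 4) (by positivity)
  have hval : ∀ z, (q + Polynomial.C ((ε / 4 : ℝ) : ℂ)).eval z = q.eval z + ((ε / 4 : ℝ) : ℂ) := by
    intro z; simp
  refine ⟨q + Polynomial.C ((ε / 4 : ℝ) : ℂ), fun x => ?_, ?_, ?_⟩
  · rw [hval, Complex.add_re, Complex.ofReal_re]
    have h1 := abs_le.1 (hq1 x)
    have h2 : 0 ≤ g' x := le_max_right _ _
    linarith
  · rw [hval, Complex.add_im, Complex.ofReal_im, hq2, add_zero]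
  · have e : (fun x : UnitAddCircle => ((q + Polynomial.C ((ε / 4 : ℝ) : ℂ)).eval (ze x)).re - Ψ x)
        = (fun x => ((q + Polynomial.C ((ε / 4 : ℝ) : ℂ)).eval (ze x)).re - g' x)
          + (fun x => g' x - Ψ x) := by
      funext x; simp
    rw [e]
    have hq3 : MemLp (fun x : UnitAddCircle =>
        ((q + Polynomial.C ((ε / 4 : ℝ) : ℂ)).eval (ze x)).re) 2 (haarAddCircle : Measure UnitAddCircle) := (poly_memLp _ 2).re
    have hg3 : AEStronglyMeasurable (fun x => g' x) (haarAddCircle : Measure UnitAddCircle) := g'.continuous.aestronglyMeasurable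
    refine (eLpNorm_add_le (hq3.1.sub hg3) (hg3.sub hΨ.1) (by norm_num)).trans ?_
    have a1 : eLpNorm (fun x => ((q + Polynomial.C ((ε / 4 : ℝ) : ℂ)).eval (ze x)).re - g' x) 2 (haarAddCircle : Measure UnitAddCircle)
        ≤ ENNReal.ofReal (ε / 2) := by
      have := eLpNorm_le_of_ae_bound (μ := (haarAddCircle : Measure UnitAddCircle)) (p := 2) (C := ε / 2)
        (f := fun x => ((q + Polynomial.C ((ε / 4 : ℝ) : ℂ)).eval (ze x)).re - g' x)
        (Eventually.of_forall fun x => by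
          rw [hval, Complex.add_re, Complex.ofReal_re, Real.norm_eq_abs]
          have h1 := abs_le.1 (hq1 x)
          rw [abs_le]; constructor <;> linarith)
      simpa using this
    have a2 : eLpNorm (fun x => g' x - Ψ x) 2 (haarAddCircle : Measure UnitAddCircle) ≤ ENNReal.ofReal (ε / 2) := by
      refine le_trans (eLpNorm_mono fun x => ?_) hg
      rw [Real.norm_eq_abs, Pi.sub_apply, Real.norm_eq_abs]
      have h3 : g' x = max (g x) 0 := rfl
      rw [h3]
      rcases le_total (g x) 0 with h | h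
      · rw [max_eq_right h, zero_sub, abs_neg, abs_of_nonneg (h0 x),
          abs_of_nonneg (by linarith [h0 x])]
        linarith
      · rw [max_eq_left h, abs_sub_comm]
    calc _ ≤ ENNReal.ofReal (ε / 2) + ENNReal.ofReal (ε / 2) := add_le_add a1 a2
      _ = ENNReal.ofReal ε := by
        rw [← ENNReal.ofReal_add (by positivity) (by positivity)]
        congr 1; ring

/-- completion of a nonnegative square integrable function to (boundary values of) an analytic
function with nonnegative real part, as a limit of polynomials with nonnegative real part -/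
lemma exists_completion (Ψ : UnitAddCircle → ℝ) (h0 : ∀ x, 0 ≤ Ψ x) (hΨ : MemLp Ψ 2 (haarAddCircle : Measure UnitAddCircle)) :
    ∃ (p : ℕ → Polynomial ℂ) (Q : UnitAddCircle → ℂ),
      (∀ m, ∀ z : ℂ, ‖z‖ ≤ 1 → 0 ≤ ((p m).eval z).re) ∧
      (∀ᵐ x ∂(haarAddCircle : Measure UnitAddCircle), Tendsto (fun m => (p m).eval (ze x)) atTop (𝓝 (Q x))) ∧
      (∀ᵐ x ∂(haarAddCircle : Measure UnitAddCircle), (Q x).re = Ψ x) ∧
      Tendsto (fun m => (p m).eval 0) atTop (𝓝 ((∫ x, Ψ x ∂(haarAddCircle : Measure UnitAddCircle) : ℝ) : ℂ)) := by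
  have hch : ∀ m : ℕ, ∃ p : Polynomial ℂ, (∀ x : UnitAddCircle, 0 ≤ (p.eval (ze x)).re) ∧
      (p.eval 0).im = 0 ∧
      eLpNorm (fun x : UnitAddCircle => (p.eval (ze x)).re - Ψ x) 2 (haarAddCircle : Measure UnitAddCircle)
        ≤ ENNReal.ofReal ((1/2) ^ m / 8) :=
    fun m => exists_poly_L2 h0 hΨ (by positivity)
  choose p hp1 hp2 hp3 using hch
  have hpm : ∀ m, MemLp (fun x : UnitAddCircle => (p m).eval (ze x)) 2 (haarAddCircle : Measure UnitAddCircle) := fun m => poly_memLp _ 2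
  have hpr : ∀ m, MemLp (fun x : UnitAddCircle => ((p m).eval (ze x)).re) 2 (haarAddCircle : Measure UnitAddCircle) := fun m => (hpm m).re
  -- a.e. convergence
  have hcau : ∀ᵐ x ∂(haarAddCircle : Measure UnitAddCircle), ∃ l : ℂ, Tendsto (fun m => (p m).eval (ze x)) atTop (𝓝 l) := by
    apply Lp.ae_tendsto_of_cauchy_eLpNorm (f := fun m (x : UnitAddCircle) => (p m).eval (ze x))
      (p := 2) (fun m => (hpm m).1) (by norm_num)
      (B := fun N => ENNReal.ofReal ((1/2) ^ N))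
    · rw [← ENNReal.ofReal_tsum_of_nonneg (fun n => by positivity)
        (summable_geometric_of_lt_one (by norm_num) (by norm_num))]
      exact ENNReal.ofReal_ne_top
    · intro N n m hn hm
      have e1 : ((fun (x : UnitAddCircle) => (p n).eval (ze x)) - fun x => (p m).eval (ze x))
          = fun x => (p n - p m).eval (ze x) := by
        funext x; simp
      rw [e1]
      have e2 : (fun x : UnitAddCircle => ((p n - p m).eval (ze x)).re)
          = (fun x => ((p n).eval (ze x)).re - Ψ x) - fun x => ((p m).eval (ze x)).re - Ψ x := by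
        funext x; simp
      have e3 : ENNReal.ofReal ((1/2) ^ n / 8) ≤ ENNReal.ofReal ((1/2) ^ N / 8) :=
        ENNReal.ofReal_le_ofReal (by
          have := pow_le_pow_of_le_one (a := (1/2 : ℝ)) (by norm_num) (by norm_num) hn
          linarith)
      have e4 : ENNReal.ofReal ((1/2) ^ m / 8) ≤ ENNReal.ofReal ((1/2) ^ N / 8) :=
        ENNReal.ofReal_le_ofReal (by
          have := pow_le_pow_of_le_one (a := (1/2 : ℝ)) (by norm_num) (by norm_num) hm
          linarith)
      calc eLpNorm (fun x => (p n - p m).eval (ze x)) 2 (haarAddCircle : Measure UnitAddCircle)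
          ≤ 2 * eLpNorm (fun x : UnitAddCircle => ((p n - p m).eval (ze x)).re) 2 (haarAddCircle : Measure UnitAddCircle) := by
            apply poly_L2
            simp [hp2]
        _ ≤ 2 * (eLpNorm (fun x : UnitAddCircle => ((p n).eval (ze x)).re - Ψ x) 2 (haarAddCircle : Measure UnitAddCircle)
            + eLpNorm (fun x : UnitAddCircle => ((p m).eval (ze x)).re - Ψ x) 2 (haarAddCircle : Measure UnitAddCircle)) := by
            rw [e2]
            gcongr
            exact eLpNorm_sub_le ((hpr n).1.sub hΨ.1) ((hpr m).1.sub hΨ.1) (by norm_num)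
        _ ≤ 2 * (ENNReal.ofReal ((1/2) ^ N / 8) + ENNReal.ofReal ((1/2) ^ N / 8)) := by
            gcongr
            · exact (hp3 n).trans e3
            · exact (hp3 m).trans e4
        _ = ENNReal.ofReal ((1/2) ^ N / 2) := by
            rw [← ENNReal.ofReal_add (by positivity) (by positivity),
              show (2 : ℝ≥0∞) = ENNReal.ofReal 2 by simp, ← ENNReal.ofReal_mul (by norm_num)]
            congr 1; ring
        _ < ENNReal.ofReal ((1/2) ^ N) := by
            apply ENNReal.ofReal_lt_ofReal_iff_of_nonneg (by positivity) |>.2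
            have : (0:ℝ) < (1/2) ^ N := by positivity
            linarith
  have hQ : ∀ᵐ x ∂(haarAddCircle : Measure UnitAddCircle), Tendsto (fun m => (p m).eval (ze x)) atTop
      (𝓝 (limUnder atTop (fun m => (p m).eval (ze x)))) := by
    filter_upwards [hcau] with x hx
    exact tendsto_nhds_limUnder hx
  have hreal : Tendsto (fun m => eLpNorm
      ((fun (m : ℕ) (x : UnitAddCircle) => ((p m).eval (ze x)).re) m - Ψ) 2 (haarAddCircle : Measure UnitAddCircle)) atTop (𝓝 0) := by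
    apply tendsto_of_tendsto_of_tendsto_of_le_of_le tendsto_const_nhds
      (h := fun m : ℕ => ENNReal.ofReal ((1/2) ^ m / 8)) ?_ (fun m => zero_le) (fun m => hp3 m)
    rw [← ENNReal.ofReal_zero]
    apply ENNReal.tendsto_ofReal
    have := (tendsto_pow_atTop_nhds_zero_of_lt_one (r := (1/2:ℝ)) (by norm_num) (by norm_num)).div_const 8
    simpa using this
  refine ⟨p, fun x => limUnder atTop (fun m => (p m).eval (ze x)), ?_, hQ, ?_, ?_⟩
  · intro m z hz
    exact re_nonneg_of_circle (p m) (hp1 m) z hz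
  · obtain ⟨ns, hns, hsub⟩ := (tendstoInMeasure_of_tendsto_eLpNorm (by norm_num)
      (fun m => (hpr m).1) hΨ.1 hreal).exists_seq_tendsto_ae
    filter_upwards [hQ, hsub] with x h1 h2
    have h3 : Tendsto (fun i => ((p (ns i)).eval (ze x)).re) atTop
        (𝓝 (limUnder atTop (fun m => (p m).eval (ze x))).re) :=
      (Complex.continuous_re.tendsto _).comp (h1.comp hns.tendsto_atTop)
    exact tendsto_nhds_unique h3 h2
  · have h1 : ∀ m, (p m).eval 0 = ((∫ x, ((p m).eval (ze x)).re ∂(haarAddCircle : Measure UnitAddCircle) : ℝ) : ℂ) := by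
      intro m
      have h2 := integral_mv (fun z => (p m).eval z) (fun z _ => (p m).differentiable z)
      have hi : Integrable (fun x : UnitAddCircle => (p m).eval (ze x)) (haarAddCircle : Measure UnitAddCircle) :=
        (poly_memLp (p m) 1).integrable le_rfl
      have h3 : ∫ x, ((p m).eval (ze x)).re ∂(haarAddCircle : Measure UnitAddCircle) = (∫ x, (p m).eval (ze x) ∂(haarAddCircle : Measure UnitAddCircle)).re := integral_re hi
      rw [h3, h2]
      apply Complex.ext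
      · simp
      · simp [hp2 m]
    have h4 : Tendsto (fun m => ∫ x, ((p m).eval (ze x)).re ∂(haarAddCircle : Measure UnitAddCircle)) atTop (𝓝 (∫ x, Ψ x ∂(haarAddCircle : Measure UnitAddCircle))) := by
      apply tendsto_integral_of_L1' Ψ hΨ.1
        (F := fun (m : ℕ) (x : UnitAddCircle) => ((p m).eval (ze x)).re)
      · exact Eventually.of_forall fun m => (hpr m).integrable (by norm_num)
      · apply tendsto_of_tendsto_of_tendsto_of_le_of_le tendsto_const_nhds hreal
          (fun m => zero_le)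
        intro m
        exact eLpNorm_le_eLpNorm_of_exponent_le (by norm_num) ((hpr m).1.sub hΨ.1)
    simp_rw [h1]
    exact (Complex.continuous_ofReal.tendsto _).comp h4

lemma holo_calc {p : ℕ → Polynomial ℂ} {Q : UnitAddCircle → ℂ}
    (hp : ∀ m, ∀ z : ℂ, ‖z‖ ≤ 1 → 0 ≤ ((p m).eval z).re)
    (hQ : ∀ᵐ x ∂(haarAddCircle : Measure UnitAddCircle), Tendsto (fun m => (p m).eval (ze x)) atTop (𝓝 (Q x)))
    (Θ : ℂ → ℂ) (hΘ : ∀ w : ℂ, 0 ≤ w.re → DifferentiableAt ℂ Θ w) (C : ℝ)
    (hC : ∀ w : ℂ, 0 ≤ w.re → ‖Θ w‖ ≤ C) :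
    HB (fun x => Θ (Q x)) ∧
      Tendsto (fun m => Θ ((p m).eval 0)) atTop (𝓝 (fourierCoeff (fun x => Θ (Q x)) 0)) := by
  have hd : ∀ m, ∀ z ∈ Metric.closedBall (0 : ℂ) 1,
      DifferentiableAt ℂ (fun z => Θ ((p m).eval z)) z := by
    intro m z hz
    rw [mem_closedBall_zero_iff] at hz
    exact (hΘ _ (hp m z hz)).comp z ((p m).differentiable z)
  have h1 : ∀ m, HB (fun x => Θ ((p m).eval (ze x))) := fun m =>
    HB.of_holo (fun z => Θ ((p m).eval z)) (hd m)
  have h2 : ∀ m, ∀ᵐ x ∂(haarAddCircle : Measure UnitAddCircle), ‖Θ ((p m).eval (ze x))‖ ≤ C := fun m =>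
    Eventually.of_forall fun x => hC _ (hp m _ (ze_norm x).le)
  have h3 : ∀ᵐ x ∂(haarAddCircle : Measure UnitAddCircle), Tendsto (fun m => Θ ((p m).eval (ze x))) atTop (𝓝 (Θ (Q x))) := by
    filter_upwards [hQ] with x hx
    have hre : 0 ≤ (Q x).re := by
      have := (Complex.continuous_re.tendsto _).comp hx
      exact ge_of_tendsto this (Eventually.of_forall fun m => hp m _ (ze_norm x).le)
    exact ((hΘ _ hre).continuousAt.tendsto).comp hx
  refine ⟨HB.limit C h1 h2 h3, ?_⟩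
  have h4 := tendsto_coeff C (fun m => (h1 m).aesm) h2 h3 0
  have h5 : (fun m => fourierCoeff (fun x => Θ ((p m).eval (ze x))) 0)
      = fun m => Θ ((p m).eval 0) := by
    funext m
    exact coeff_zero_of_holo (fun z => Θ ((p m).eval z)) (hd m)
  rwa [h5] at h4

/-- the function `(1 + w)^{-t}` -/
noncomputable def Bt (t : ℝ) (w : ℂ) : ℂ := Complex.exp (-(t : ℂ) * Complex.log (1 + w))

lemma slit {w : ℂ} (hw : 0 ≤ w.re) : 1 + w ∈ Complex.slitPlane := by
  left
  simp only [Complex.add_re, Complex.one_re]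
  linarith

lemma one_le_norm_one_add {w : ℂ} (hw : 0 ≤ w.re) : 1 + w.re ≤ ‖1 + w‖ := by
  calc 1 + w.re = (1 + w).re := by simp
    _ ≤ ‖1 + w‖ := Complex.re_le_norm _

lemma Bt_diff (t : ℝ) {w : ℂ} (hw : 0 ≤ w.re) : DifferentiableAt ℂ (Bt t) w := by
  unfold Bt
  exact ((((differentiableAt_id.const_add 1).clog (slit hw))).const_mul _).cexp

lemma Bt_norm (t : ℝ) (w : ℂ) : ‖Bt t w‖ = Real.exp (-t * Real.log ‖1 + w‖) := by
  unfold Bt
  rw [Complex.norm_exp]
  congr 1
  simp [Complex.log_re]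

lemma Bt_le {t : ℝ} (ht : 0 ≤ t) {w : ℂ} (hw : 0 ≤ w.re) :
    ‖Bt t w‖ ≤ Real.exp (-t * Real.log (1 + w.re)) := by
  rw [Bt_norm]
  apply Real.exp_le_exp.2
  have h1 : Real.log (1 + w.re) ≤ Real.log ‖1 + w‖ :=
    Real.log_le_log (by linarith) (one_le_norm_one_add hw)
  nlinarith

lemma Bt_le_one {t : ℝ} (ht : 0 ≤ t) {w : ℂ} (hw : 0 ≤ w.re) : ‖Bt t w‖ ≤ 1 := by
  refine (Bt_le ht hw).trans ?_
  apply Real.exp_le_one_iff.2
  have h1 : 0 ≤ Real.log (1 + w.re) := Real.log_nonneg (by linarith)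
  nlinarith

lemma Bt_ne (t : ℝ) (w : ℂ) : Bt t w ≠ 0 := Complex.exp_ne_zero _

lemma Bt_mul (s t : ℝ) (w : ℂ) : Bt s w * Bt t w = Bt (s + t) w := by
  unfold Bt
  rw [← Complex.exp_add]
  congr 1
  push_cast
  ring

lemma Bt_re {t : ℝ} (ht : 0 ≤ t) (ht2 : t ≤ 1 / 2) {w : ℂ} (hw : 0 ≤ w.re) :
    ‖Bt t w‖ / 2 ≤ (Bt t w).re := by
  have h1 : (Bt t w).re = ‖Bt t w‖ * Real.cos (t * Complex.arg (1 + w)) := by
    rw [Bt_norm]
    unfold Bt
    rw [Complex.exp_re]
    congr 1
    · simp [Complex.log_re]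
    · rw [show (-(t:ℂ) * Complex.log (1 + w)).im = -(t * Complex.arg (1 + w)) by
        simp [Complex.log_im], Real.cos_neg]
  have h2 : |Complex.arg (1 + w)| ≤ Real.pi / 2 := by
    rw [Complex.abs_arg_le_pi_div_two_iff]
    simp only [Complex.add_re, Complex.one_re]
    linarith
  have h3 : |t * Complex.arg (1 + w)| ≤ Real.pi / 3 := by
    rw [abs_mul, abs_of_nonneg ht]
    have : t * |Complex.arg (1 + w)| ≤ 1 / 2 * (Real.pi / 2) := by
      apply mul_le_mul ht2 h2 (abs_nonneg _) (by norm_num)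
    linarith [Real.pi_pos]
  have h4 : 1 / 2 ≤ Real.cos (t * Complex.arg (1 + w)) := by
    rw [← Real.cos_abs, ← Real.cos_pi_div_three]
    apply Real.cos_le_cos_of_nonneg_of_le_pi (abs_nonneg _) _ h3
    linarith [Real.pi_pos]
  rw [h1]
  have := norm_nonneg (Bt t w)
  nlinarith

lemma exists_weight {f : UnitAddCircle → ℂ} (hf : StronglyMeasurable f)
    (h1 : ∀ᵐ x ∂(haarAddCircle : Measure UnitAddCircle), ‖f x‖ ≤ 1) (h0 : (haarAddCircle : Measure UnitAddCircle) {x | ‖f x‖ = 1} = 0) :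
    ∃ Ψ : UnitAddCircle → ℝ, (∀ x, 0 ≤ Ψ x) ∧ MemLp Ψ 2 (haarAddCircle : Measure UnitAddCircle) ∧
      ∀ M : ℝ, ∃ δ : ℝ, 0 < δ ∧ ∀ᵐ x ∂(haarAddCircle : Measure UnitAddCircle), 1 - δ < ‖f x‖ → M ≤ Ψ x := by
  let E : ℕ → Set UnitAddCircle := fun k => {x | 1 - 1 / ((k : ℝ) + 1) < ‖f x‖}
  have hEm : ∀ k, MeasurableSet (E k) := fun k => measurableSet_lt measurable_const hf.norm.measurable
  have hanti : Antitone E := by
    intro a b hab x hx
    simp only [E, Set.mem_ofPred_eq] at hx ⊢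
    have : 1 / ((b : ℝ) + 1) ≤ 1 / ((a : ℝ) + 1) := by
      apply one_div_le_one_div_of_le (by positivity)
      have : (a : ℝ) ≤ b := by exact_mod_cast hab
      linarith
    linarith
  have hlim := tendsto_measure_iInter_atTop (μ := (haarAddCircle : Measure UnitAddCircle)) (s := E)
    (fun k => (hEm k).nullMeasurableSet) hanti ⟨0, measure_ne_top _ _⟩
  have hz : (haarAddCircle : Measure UnitAddCircle) (⋂ n, E n) = 0 := by
    have hsub : ∀ᵐ x ∂(haarAddCircle : Measure UnitAddCircle), x ∈ ⋂ n, E n → x ∈ {x | ‖f x‖ = 1} := by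
      filter_upwards [h1] with x hx hx2
      simp only [Set.mem_iInter, E, Set.mem_ofPred_eq] at hx2
      have h3 : Tendsto (fun k : ℕ => 1 - 1 / ((k : ℝ) + 1)) atTop (𝓝 (1 - 0)) :=
        tendsto_const_nhds.sub tendsto_one_div_add_atTop_nhds_zero_nat
      have h4 : 1 - 0 ≤ ‖f x‖ := le_of_tendsto h3 (Eventually.of_forall fun k => (hx2 k).le)
      change ‖f x‖ = 1
      linarith
    have := measure_mono_ae (μ := (haarAddCircle : Measure UnitAddCircle)) (s := ⋂ n, E n) (t := {x | ‖f x‖ = 1}) hsub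
    rw [h0] at this
    exact le_antisymm this zero_le
  rw [hz] at hlim
  have hk : ∀ n : ℕ, ∃ k, (haarAddCircle : Measure UnitAddCircle) (E k) ≤ (4 : ℝ≥0∞)⁻¹ ^ n := by
    intro n
    have := hlim.eventually_le_const (ENNReal.pow_pos (a := (4 : ℝ≥0∞)⁻¹) (by simp) n)
    exact this.exists
  choose k hk using hk
  let V : UnitAddCircle → ℝ≥0∞ := fun x => ∑' n, (E (k n)).indicator (fun _ => (2 : ℝ≥0∞) ^ n) x
  have hVm : Measurable V := by
    apply Measurable.tsum
    intro n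
    exact measurable_const.indicator (hEm _)
  have hVi : ∫⁻ x, V x ∂(haarAddCircle : Measure UnitAddCircle) ≠ ∞ := by
    have e : ∫⁻ x, V x ∂(haarAddCircle : Measure UnitAddCircle) ≤ ∑' n : ℕ, (2 : ℝ≥0∞)⁻¹ ^ n := by
      rw [lintegral_tsum (fun n => (measurable_const.indicator (hEm _)).aemeasurable)]
      apply ENNReal.tsum_le_tsum
      intro n
      rw [lintegral_indicator_const (hEm _)]
      calc (2 : ℝ≥0∞) ^ n * (haarAddCircle : Measure UnitAddCircle) (E (k n)) ≤ 2 ^ n * (4 : ℝ≥0∞)⁻¹ ^ n := by gcongr; exact hk n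
        _ = (2 : ℝ≥0∞)⁻¹ ^ n := by
          rw [← mul_pow]
          congr 1
          rw [show (4 : ℝ≥0∞) = 2 * 2 by norm_num, ENNReal.mul_inv (by simp) (by simp),
            ← mul_assoc, ENNReal.mul_inv_cancel (by simp) (by simp), one_mul]
    refine ne_top_of_le_ne_top ?_ e
    rw [ENNReal.tsum_geometric]
    simp
  refine ⟨fun x => Real.sqrt (V x).toReal, fun x => Real.sqrt_nonneg _, ?_, ?_⟩
  · rw [memLp_two_iff_integrable_sq]
    · have := integrable_toReal_of_lintegral_ne_top hVm.aemeasurable hVi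
      refine this.congr (Eventually.of_forall fun x => ?_)
      simp only
      rw [Real.sq_sqrt ENNReal.toReal_nonneg]
    · exact (Real.continuous_sqrt.measurable.comp hVm.ennreal_toReal).aestronglyMeasurable
  · intro M
    obtain ⟨n, hn⟩ := pow_unbounded_of_one_lt (M ^ 2) (one_lt_two (α := ℝ))
    refine ⟨1 / ((k n : ℝ) + 1), by positivity, ?_⟩
    filter_upwards [ae_lt_top hVm hVi] with x hx hxE
    have h2 : (2 : ℝ≥0∞) ^ n ≤ V x := by
      have : (E (k n)).indicator (fun _ => (2 : ℝ≥0∞) ^ n) x ≤ V x := ENNReal.le_tsum n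
      rwa [Set.indicator_of_mem (show x ∈ E (k n) from hxE)] at this
    have h3 : (2 : ℝ) ^ n ≤ (V x).toReal := by
      have := ENNReal.toReal_mono hx.ne h2
      simpa using this
    apply Real.le_sqrt_of_sq_le
    linarith

lemma eq_zero_of_coeff {h : UnitAddCircle → ℂ} (hh : MemLp h 2 (haarAddCircle : Measure UnitAddCircle))
    (hc : ∀ n : ℤ, fourierCoeff h n = 0) : h =ᵐ[(haarAddCircle : Measure UnitAddCircle)] 0 := by
  have hs := hasSum_fourier_series_L2 (T := 1) (hh.toLp h)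
  have h0 : (fun i : ℤ => fourierCoeff (hh.toLp h : UnitAddCircle → ℂ) i • fourierLp (T := 1) 2 i)
      = fun _ => 0 := by
    funext i
    rw [fourierCoeff_congr_ae hh.coeFn_toLp, hc i, zero_smul]
  rw [h0] at hs
  have h1 : hh.toLp h = 0 := (hasSum_zero.unique hs).symm
  have h2 := hh.coeFn_toLp
  rw [h1] at h2
  exact h2.symm.trans (Lp.coeFn_zero _ _ _)

lemma HB.shift {h : UnitAddCircle → ℂ} (hh : HB h) (N : ℕ)
    (hN : ∀ m : ℕ, m < N → fourierCoeff h m = 0) :
    HB (fun x => fourier (-(N : ℤ)) x * h x) ∧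
      fourierCoeff (fun x : UnitAddCircle => fourier (-(N : ℤ)) x * h x) 0 = fourierCoeff h N := by
  have e : ∀ n : ℤ, fourierCoeff (fun x : UnitAddCircle => fourier (-(N : ℤ)) x * h x) n
      = fourierCoeff h (n + N) := by
    intro n
    rw [fourierCoeff, fourierCoeff]
    congr 1
    funext x
    simp only [smul_eq_mul]
    rw [← mul_assoc, ← fourier_add]
    congr 3
    ring
  refine ⟨⟨(fourier (-(N : ℤ))).continuous.aestronglyMeasurable.mul hh.aesm, ?_, ?_⟩, ?_⟩
  · obtain ⟨C, hC⟩ := hh.bdd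
    refine ⟨C, hC.mono fun x hx => ?_⟩
    rw [norm_mul, fou_norm, one_mul]
    exact hx
  · intro n hn
    rw [e]
    by_cases h1 : n + N < 0
    · exact hh.coeff _ h1
    · have := hN (n + N).toNat (by omega)
      rwa [show (((n + N).toNat : ℕ) : ℤ) = n + N by omega] at this
  · rw [e]; simp

/-- uniqueness: a bounded analytic function vanishing on a set of positive measure vanishes -/
lemma uniqueness {h : UnitAddCircle → ℂ} (hh : HB h) {E : Set UnitAddCircle}
    (hE : MeasurableSet E) (hpos : (haarAddCircle : Measure UnitAddCircle) E ≠ 0) (h0 : ∀ᵐ x ∂(haarAddCircle : Measure UnitAddCircle), x ∈ E → h x = 0) :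
    h =ᵐ[(haarAddCircle : Measure UnitAddCircle)] 0 := by
  by_contra hne
  have hex : ∃ n : ℕ, fourierCoeff h n ≠ 0 := by
    by_contra hcon
    push Not at hcon
    apply hne
    apply eq_zero_of_coeff (memLp_of_bdd hh.aesm hh.bdd 2)
    intro n
    by_cases hn : n < 0
    · exact hh.coeff n hn
    · have := hcon n.toNat
      rwa [show ((n.toNat : ℕ) : ℤ) = n by omega] at this
  classical
  obtain ⟨hs1, hs2⟩ := hh.shift (Nat.find hex) (fun m hm => by
    have := Nat.find_min hex hm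
    push Not at this
    exact this)
  have hN : fourierCoeff h (Nat.find hex) ≠ 0 := Nat.find_spec hex
  set k : UnitAddCircle → ℂ := fun x => fourier (-((Nat.find hex : ℕ) : ℤ)) x * h x with hk
  rw [← hs2] at hN
  have hk0 : ∀ᵐ x ∂(haarAddCircle : Measure UnitAddCircle), x ∈ E → k x = 0 := by
    filter_upwards [h0] with x hx hxE
    simp [hk, hx hxE]
  obtain ⟨C, hC⟩ := hs1.bdd
  -- the completion of the indicator of the complement
  have hψm : MemLp (Eᶜ.indicator (fun _ => (1 : ℝ))) 2 (haarAddCircle : Measure UnitAddCircle) :=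
    (memLp_const 1).indicator hE.compl
  obtain ⟨p, Q, hp, hQ, hre, hmean⟩ := exists_completion (Eᶜ.indicator (fun _ => (1 : ℝ)))
    (fun x => Set.indicator_nonneg (fun _ _ => zero_le_one) x) hψm
  have hint : ∫ x, Eᶜ.indicator (fun _ => (1 : ℝ)) x ∂(haarAddCircle : Measure UnitAddCircle) = 1 - (haarAddCircle : Measure UnitAddCircle).real E := by
    rw [integral_indicator_const _ hE.compl, smul_eq_mul, mul_one, probReal_compl_eq_one_sub hE]
  rw [hint] at hmean
  have hEr : 0 < (haarAddCircle : Measure UnitAddCircle).real E := by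
    rw [measureReal_def]
    exact ENNReal.toReal_pos hpos (measure_ne_top _ _)
  -- main estimate
  have hest : ∀ s : ℝ, 0 ≤ s → ‖fourierCoeff k 0‖ ≤ C * Real.exp (-s * (haarAddCircle : Measure UnitAddCircle).real E) := by
    intro s hs
    obtain ⟨hb, hlim⟩ := holo_calc hp hQ (fun w => Complex.exp (-(s : ℂ) * w))
      (fun w _ => (differentiableAt_id.const_mul _).cexp) 1 (fun w hw => by
        rw [Complex.norm_exp]
        apply Real.exp_le_one_iff.2
        simp only [Complex.mul_re, Complex.neg_re, Complex.ofReal_re, Complex.neg_im,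
          Complex.ofReal_im, neg_zero, zero_mul, sub_zero]
        nlinarith)
    have h1 : fourierCoeff (fun x => Complex.exp (-(s : ℂ) * Q x)) 0
        = Complex.exp (-(s : ℂ) * ((1 - (haarAddCircle : Measure UnitAddCircle).real E : ℝ) : ℂ)) := by
      apply tendsto_nhds_unique hlim
      exact (Complex.continuous_exp.tendsto _).comp (hmean.const_mul _)
    have h2 := hb.mul_coeff_zero hs1
    have h3 : ‖fourierCoeff (fun x => Complex.exp (-(s : ℂ) * Q x) * k x) 0‖
        ≤ Real.exp (-s) * C := by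
      rw [fourierCoeff]
      have h4 : ∀ᵐ x ∂(haarAddCircle : Measure UnitAddCircle), ‖fourier (-0) x • (Complex.exp (-(s : ℂ) * Q x) * k x)‖
          ≤ Real.exp (-s) * C := by
        filter_upwards [hk0, hre, hC] with x hx1 hx2 hx3
        rw [norm_smul, fou_norm, one_mul, norm_mul]
        by_cases hxE : x ∈ E
        · rw [hx1 hxE, norm_zero, mul_zero]
          have : 0 ≤ C := (norm_nonneg _).trans hx3
          positivity
        · rw [Set.indicator_of_mem (by exact hxE)] at hx2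
          rw [Complex.norm_exp]
          simp only [Complex.mul_re, Complex.neg_re, Complex.ofReal_re, Complex.neg_im,
            Complex.ofReal_im, neg_zero, zero_mul, sub_zero, hx2, mul_one]
          gcongr
      have := norm_integral_le_of_norm_le_const h4
      simpa using this
    rw [h2, norm_mul, h1, Complex.norm_exp] at h3
    simp only [Complex.mul_re, Complex.neg_re, Complex.ofReal_re, Complex.neg_im,
      Complex.ofReal_im, neg_zero, zero_mul, sub_zero] at h3
    have h5 : Real.exp (-s * (1 - (haarAddCircle : Measure UnitAddCircle).real E)) * ‖fourierCoeff k 0‖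
        ≤ Real.exp (-s * (1 - (haarAddCircle : Measure UnitAddCircle).real E)) * (C * Real.exp (-s * (haarAddCircle : Measure UnitAddCircle).real E)) := by
      calc _ ≤ Real.exp (-s) * C := h3
        _ = _ := by
          rw [mul_left_comm, ← Real.exp_add]
          rw [mul_comm]
          congr 2
          ring
    exact le_of_mul_le_mul_left h5 (Real.exp_pos _)
  have hlim : Tendsto (fun s : ℝ => C * Real.exp (-s * (haarAddCircle : Measure UnitAddCircle).real E)) atTop (𝓝 (C * 0)) := by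
    apply Tendsto.const_mul
    apply Real.tendsto_exp_atBot.comp
    have := (tendsto_neg_atTop_atBot (G := ℝ)).atBot_mul_const hEr
    exact this
  have hle : ‖fourierCoeff k 0‖ ≤ C * 0 :=
    ge_of_tendsto hlim ((eventually_ge_atTop 0).mono hest)
  rw [mul_zero] at hle
  exact hN (norm_le_zero_iff.1 hle)

/-- `L^∞` of the circle `ℝ/ℤ` with normalized Haar measure. -/
abbrev Linf : Type := Lp ℂ ∞ (haarAddCircle : Measure UnitAddCircle)

lemma Lp_bdd (f : Lp ℂ ∞ (haarAddCircle : Measure UnitAddCircle)) : ∀ᵐ x ∂(haarAddCircle : Measure UnitAddCircle), ‖f x‖ ≤ ‖f‖ := by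
  filter_upwards [enorm_ae_le_eLpNormEssSup (f : UnitAddCircle → ℂ) (haarAddCircle : Measure UnitAddCircle)] with x hx
  rw [Lp.norm_def, eLpNorm_exponent_top]
  have h1 : eLpNormEssSup (f : UnitAddCircle → ℂ) (haarAddCircle : Measure UnitAddCircle) ≠ ∞ := by
    rw [← eLpNorm_exponent_top]; exact Lp.eLpNorm_ne_top f
  have h2 := ENNReal.toReal_mono h1 hx
  simpa using h2

lemma Lp_norm_le {f : Lp ℂ ∞ (haarAddCircle : Measure UnitAddCircle)} {C : ℝ} (hC : 0 ≤ C) (h : ∀ᵐ x ∂(haarAddCircle : Measure UnitAddCircle), ‖f x‖ ≤ C) : ‖f‖ ≤ C := by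
  have := Lp.norm_le_of_ae_bound hC h
  simpa using this

lemma HB_of_Lp (f : Lp ℂ ∞ (haarAddCircle : Measure UnitAddCircle)) (hf : ∀ n : ℤ, n < 0 → fourierCoeff (f : UnitAddCircle → ℂ) n = 0) :
    HB f := ⟨Lp.aestronglyMeasurable f, ⟨‖f‖, Lp_bdd f⟩, hf⟩

/-- `H^∞`, as the subspace of `L^∞` of the circle of functions whose Fourier coefficients of
negative index vanish. -/
noncomputable def Hinf : Submodule ℂ Linf where
  carrier := {f | ∀ n : ℤ, n < 0 → fourierCoeff (f : UnitAddCircle → ℂ) n = 0}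
  add_mem' := by
    intro a b ha hb
    exact (((HB_of_Lp a ha).add (HB_of_Lp b hb)).congr (Lp.coeFn_add a b).symm).coeff
  zero_mem' := by
    intro n _
    rw [fourierCoeff_congr_ae (Lp.coeFn_zero ℂ ∞ (haarAddCircle : Measure UnitAddCircle))]
    simp [fourierCoeff]
  smul_mem' := by
    intro c a ha
    exact (((HB_of_Lp a ha).smul c).congr (Lp.coeFn_smul c a).symm).coeff

/-- `H^∞_Φ`: the common kernel in `H^∞` of the functionals in `Φ`. -/
def HPhi0 (Φ : Set (Hinf →L[ℂ] ℂ)) : Submodule ℂ Hinf where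
  carrier := {f | ∀ φ ∈ Φ, φ f = 0}
  add_mem' := by
    intro a b ha hb φ hφ
    rw [map_add, ha φ hφ, hb φ hφ, add_zero]
  zero_mem' := by
    intro φ _
    exact map_zero φ
  smul_mem' := by
    intro c a ha φ hφ
    rw [map_smul, ha φ hφ, smul_zero]

/-- `x` is an exposed point of the closed unit ball of the complex normed space `X`. -/
def IsExposedPoint {X : Type*} [NormedAddCommGroup X] [NormedSpace ℂ X] (x : X) : Prop :=
  ∃ φ : X →L[ℂ] ℂ, ‖φ‖ = 1 ∧ {y : X | ‖y‖ ≤ 1 ∧ φ y = 1} = {x}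

lemma Hinf_HB (f : Hinf) : HB ((f : Lp ℂ ∞ (haarAddCircle : Measure UnitAddCircle)) : UnitAddCircle → ℂ) := HB_of_Lp _ f.2

/-- the element of `H^∞` defined by a function -/
noncomputable def mkH (F : UnitAddCircle → ℂ) (hF : HB F) : Hinf :=
  ⟨(memLp_of_bdd hF.aesm hF.bdd ∞).toLp F,
    (hF.congr (memLp_of_bdd hF.aesm hF.bdd ∞).coeFn_toLp.symm).coeff⟩

lemma mkH_coe (F : UnitAddCircle → ℂ) (hF : HB F) :
    ((mkH F hF : Lp ℂ ∞ (haarAddCircle : Measure UnitAddCircle)) : UnitAddCircle → ℂ) =ᵐ[(haarAddCircle : Measure UnitAddCircle)] F :=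
  (memLp_of_bdd hF.aesm hF.bdd ∞).coeFn_toLp

lemma Hinf_ext {f g : Hinf} (h : ((f : Lp ℂ ∞ (haarAddCircle : Measure UnitAddCircle)) : UnitAddCircle → ℂ) =ᵐ[(haarAddCircle : Measure UnitAddCircle)] (g : Lp ℂ ∞ (haarAddCircle : Measure UnitAddCircle))) :
    f = g := Subtype.ext (Lp.ext h)

/-- multiplication by a bounded analytic function on `H^∞` -/
noncomputable def mulH (F : UnitAddCircle → ℂ) (hF : HB F) : Hinf →ₗ[ℂ] Hinf where
  toFun g := mkH (fun x => F x * (g : Lp ℂ ∞ (haarAddCircle : Measure UnitAddCircle)) x) (hF.mul (Hinf_HB g))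
  map_add' := by
    intro a b
    apply Hinf_ext
    refine (mkH_coe _ _).trans ?_
    have h1 := mkH_coe (fun x => F x * (a : Lp ℂ ∞ (haarAddCircle : Measure UnitAddCircle)) x) (hF.mul (Hinf_HB a))
    have h2 := mkH_coe (fun x => F x * (b : Lp ℂ ∞ (haarAddCircle : Measure UnitAddCircle)) x) (hF.mul (Hinf_HB b))
    have h3 := Lp.coeFn_add (a : Lp ℂ ∞ (haarAddCircle : Measure UnitAddCircle)) (b : Lp ℂ ∞ (haarAddCircle : Measure UnitAddCircle))
    have h4 := Lp.coeFn_add (mkH (fun x => F x * (a : Lp ℂ ∞ (haarAddCircle : Measure UnitAddCircle)) x) (hF.mul (Hinf_HB a)) : Lp ℂ ∞ (haarAddCircle : Measure UnitAddCircle))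
      (mkH (fun x => F x * (b : Lp ℂ ∞ (haarAddCircle : Measure UnitAddCircle)) x) (hF.mul (Hinf_HB b)) : Lp ℂ ∞ (haarAddCircle : Measure UnitAddCircle))
    filter_upwards [h1, h2, h3, h4] with x h1 h2 h3 h4
    rw [Submodule.coe_add, Submodule.coe_add, h3, h4, Pi.add_apply, Pi.add_apply, h1, h2]
    ring
  map_smul' := by
    intro c a
    apply Hinf_ext
    refine (mkH_coe _ _).trans ?_
    have h1 := mkH_coe (fun x => F x * (a : Lp ℂ ∞ (haarAddCircle : Measure UnitAddCircle)) x) (hF.mul (Hinf_HB a))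
    have h3 := Lp.coeFn_smul c (a : Lp ℂ ∞ (haarAddCircle : Measure UnitAddCircle))
    have h4 := Lp.coeFn_smul c (mkH (fun x => F x * (a : Lp ℂ ∞ (haarAddCircle : Measure UnitAddCircle)) x) (hF.mul (Hinf_HB a)) : Lp ℂ ∞ (haarAddCircle : Measure UnitAddCircle))
    filter_upwards [h1, h3, h4] with x h1 h3 h4
    rw [Submodule.coe_smul, Submodule.coe_smul, h3]
    simp only [RingHom.id_apply]
    rw [h4, Pi.smul_apply, Pi.smul_apply, h1]
    simp only [smul_eq_mul]
    ring

lemma mulH_coe (F : UnitAddCircle → ℂ) (hF : HB F) (g : Hinf) :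
    ((mulH F hF g : Lp ℂ ∞ (haarAddCircle : Measure UnitAddCircle)) : UnitAddCircle → ℂ) =ᵐ[(haarAddCircle : Measure UnitAddCircle)] fun x => F x * (g : Lp ℂ ∞ (haarAddCircle : Measure UnitAddCircle)) x :=
  mkH_coe _ (hF.mul (Hinf_HB g))

lemma P_small {f : UnitAddCircle → ℂ} {Ψ : UnitAddCircle → ℝ} {Q : UnitAddCircle → ℂ}
    (hΨ : ∀ M : ℝ, ∃ δ : ℝ, 0 < δ ∧ ∀ᵐ x ∂(haarAddCircle : Measure UnitAddCircle), 1 - δ < ‖f x‖ → M ≤ Ψ x)
    (hΨ0 : ∀ x, 0 ≤ Ψ x) (hre : ∀ᵐ x ∂(haarAddCircle : Measure UnitAddCircle), (Q x).re = Ψ x) {t : ℝ} (ht : 0 < t) (η : ℝ) (hη : 0 < η) :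
    ∃ δ : ℝ, 0 < δ ∧ ∀ᵐ x ∂(haarAddCircle : Measure UnitAddCircle), 1 - δ < ‖f x‖ → ‖Bt t (Q x)‖ ≤ η := by
  obtain ⟨δ, hδ, h⟩ := hΨ (Real.exp (-Real.log η / t))
  refine ⟨δ, hδ, ?_⟩
  filter_upwards [h, hre] with x h1 h2 hx
  have h3 := h1 hx
  have h4 : 0 ≤ (Q x).re := by rw [h2]; exact hΨ0 x
  refine (Bt_le ht.le h4).trans ?_
  have h5 : -Real.log η / t ≤ Real.log (1 + (Q x).re) := by
    rw [h2, Real.le_log_iff_exp_le (by linarith [hΨ0 x])]
    linarith
  have h6 : -t * Real.log (1 + (Q x).re) ≤ Real.log η := by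
    have := mul_le_mul_of_nonneg_left h5 ht.le
    rw [mul_div_cancel₀ _ ht.ne'] at this
    linarith
  calc _ ≤ Real.exp (Real.log η) := Real.exp_le_exp.2 h6
    _ = η := Real.exp_log hη

/-- the elementary inequality behind non-exposedness -/
lemma one_sub_le {P : ℂ} {ε : ℝ} (hε : 0 ≤ ε) (hε2 : ε ≤ 1 / 2) (hP1 : ‖P‖ ≤ 1)
    (hP : ‖P‖ / 2 ≤ P.re) : ‖1 - (ε : ℂ) * P‖ ≤ 1 - ε / 4 * ‖P‖ := by
  have h0 := norm_nonneg P
  have h1 : ‖1 - (ε : ℂ) * P‖ ^ 2 = 1 - 2 * ε * P.re + ε ^ 2 * ‖P‖ ^ 2 := by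
    rw [Complex.sq_norm, Complex.sq_norm, Complex.normSq_apply, Complex.normSq_apply]
    simp
    ring
  have h2 : 0 ≤ 1 - ε / 4 * ‖P‖ := by nlinarith
  apply le_of_sq_le_sq _ h2
  rw [h1]
  have h3 : ε * P.re ≥ ε * (‖P‖ / 2) := mul_le_mul_of_nonneg_left hP hε
  have h4 : ε * ‖P‖ ≤ 1 / 2 := by nlinarith
  have h5 : 0 ≤ ε * ‖P‖ := by positivity
  nlinarith

lemma opnorm_aux {X : Type*} [NormedAddCommGroup X] [NormedSpace ℂ X] (Λ : X →L[ℂ] ℂ)
    (hΛ : ‖Λ‖ = 1) (g : X) : ‖Λ g‖ ≤ ‖g‖ := by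
  have := Λ.le_opNorm g
  rwa [hΛ, one_mul] at this

lemma not_exposed (Φ : Set (Hinf →L[ℂ] ℂ)) (hΦ : Φ.Finite) (f : HPhi0 Φ) (hf : ‖f‖ = 1)
    (h0 : (haarAddCircle : Measure UnitAddCircle) {x | ‖((f : Hinf) : Lp ℂ ∞ (haarAddCircle : Measure UnitAddCircle)) x‖ = 1} = 0)
    (Λ : HPhi0 Φ →L[ℂ] ℂ) (hΛ : ‖Λ‖ = 1) (hΛf : Λ f = 1) :
    ∃ g : HPhi0 Φ, g ≠ f ∧ ‖g‖ ≤ 1 ∧ Λ g = 1 := by
  have hop : ∀ g : HPhi0 Φ, ‖Λ g‖ ≤ ‖g‖ := fun g =>
    @opnorm_aux (HPhi0 Φ) inferInstance inferInstance Λ hΛ g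
  set F : UnitAddCircle → ℂ := (((f : Hinf) : Lp ℂ ∞ (haarAddCircle : Measure UnitAddCircle)) : UnitAddCircle → ℂ) with hF
  have hf' : ‖((f : Hinf) : Lp ℂ ∞ (haarAddCircle : Measure UnitAddCircle))‖ = 1 := hf
  have hF1 : ∀ᵐ x ∂(haarAddCircle : Measure UnitAddCircle), ‖F x‖ ≤ 1 := by
    have := Lp_bdd ((f : Hinf) : Lp ℂ ∞ (haarAddCircle : Measure UnitAddCircle))
    rwa [hf'] at this
  obtain ⟨Ψ, hΨ0, hΨ2, hΨ⟩ := exists_weight (Lp.stronglyMeasurable _) hF1 h0
  obtain ⟨p, Q, hp, hQ, hre, -⟩ := exists_completion Ψ hΨ0 hΨ2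
  have hre0 : ∀ᵐ x ∂(haarAddCircle : Measure UnitAddCircle), 0 ≤ (Q x).re := by
    filter_upwards [hre] with x hx
    rw [hx]; exact hΨ0 x
  have hB : ∀ t : ℝ, 0 ≤ t → HB (fun x => Bt t (Q x)) := fun t ht =>
    (holo_calc hp hQ (Bt t) (fun w hw => Bt_diff t hw) 1 (fun w hw => Bt_le_one ht hw)).1
  have hpos : ∀ n : ℕ, (0 : ℝ) ≤ (1 / 2) ^ n := fun n => by positivity
  let Y : ℕ → Submodule ℂ Hinf := fun n => LinearMap.range (mulH _ (hB _ (hpos n)))
  have hY : Monotone Y := by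
    apply monotone_nat_of_le_succ
    rintro n y ⟨g, rfl⟩
    refine ⟨mulH _ (hB _ (hpos (n + 1))) g, ?_⟩
    apply Hinf_ext
    have h1 := mulH_coe _ (hB _ (hpos (n + 1))) (mulH _ (hB _ (hpos (n + 1))) g)
    have h2 := mulH_coe _ (hB _ (hpos (n + 1))) g
    have h3 := mulH_coe _ (hB _ (hpos n)) g
    filter_upwards [h1, h2, h3] with x h1 h2 h3
    rw [h1, h2, h3, ← mul_assoc, Bt_mul]
    congr 2
    ring
  have : Finite Φ := hΦ.to_subtype
  let T : Hinf →ₗ[ℂ] (Φ → ℂ) := LinearMap.pi (fun φ => (φ.1 : Hinf →ₗ[ℂ] ℂ))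
  have hS : Monotone (fun n => (Y n).map T) := fun a b hab => Submodule.map_mono (hY hab)
  obtain ⟨n, hn⟩ := monotone_stabilizes_iff_noetherian.mpr (inferInstance : IsNoetherian ℂ (Φ → ℂ))
    ⟨_, hS⟩
  have hn1 : (Y n).map T = (Y (n + 1)).map T := hn (n + 1) (Nat.le_succ n)
  -- the element `h`
  set t : ℝ := (1 / 2) ^ (n + 1) with ht
  have ht0 : 0 < t := by positivity
  have ht2 : t ≤ 1 / 2 := by
    rw [ht, pow_succ]
    have : ((1:ℝ) / 2) ^ n ≤ 1 := pow_le_one₀ (by norm_num) (by norm_num)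
    linarith
  have hT : T (mulH _ (hB _ (hpos (n + 1))) (f : Hinf)) ∈ (Y n).map T := by
    rw [hn1]
    exact ⟨_, ⟨_, rfl⟩, rfl⟩
  obtain ⟨y, ⟨h₁, rfl⟩, hy⟩ := hT
  set h : Hinf := mulH _ (hB _ (hpos (n + 1))) (f : Hinf) - mulH _ (hB _ (hpos n)) h₁ with hh
  have hmem : h ∈ HPhi0 Φ := by
    intro φ hφ
    have := congrFun hy ⟨φ, hφ⟩
    simp only [T, LinearMap.pi_apply, ContinuousLinearMap.coe_coe] at this
    rw [hh, map_sub, this, sub_self]
  set P : UnitAddCircle → ℂ := fun x => Bt t (Q x) with hP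
  have hhx : ∀ᵐ x ∂(haarAddCircle : Measure UnitAddCircle), (h : Lp ℂ ∞ (haarAddCircle : Measure UnitAddCircle)) x = P x * F x - P x * P x * (h₁ : Lp ℂ ∞ (haarAddCircle : Measure UnitAddCircle)) x := by
    have h1 := mulH_coe _ (hB _ (hpos (n + 1))) (f : Hinf)
    have h2 := mulH_coe _ (hB _ (hpos n)) h₁
    have h3 := Lp.coeFn_sub (mulH _ (hB _ (hpos (n + 1))) (f : Hinf) : Lp ℂ ∞ (haarAddCircle : Measure UnitAddCircle))
      (mulH _ (hB _ (hpos n)) h₁ : Lp ℂ ∞ (haarAddCircle : Measure UnitAddCircle))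
    filter_upwards [h1, h2, h3] with x h1 h2 h3
    rw [hh, Submodule.coe_sub, h3, Pi.sub_apply, h1, h2]
    have e : P x * P x = Bt ((1 / 2) ^ n) (Q x) := by
      rw [hP]
      simp only
      rw [Bt_mul, ht]
      congr 1
      ring
    rw [e]
  have hP1 : ∀ᵐ x ∂(haarAddCircle : Measure UnitAddCircle), ‖P x‖ ≤ 1 := by
    filter_upwards [hre0] with x hx
    exact Bt_le_one ht0.le hx
  have hPre : ∀ᵐ x ∂(haarAddCircle : Measure UnitAddCircle), ‖P x‖ / 2 ≤ (P x).re := by
    filter_upwards [hre0] with x hx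
    exact Bt_re ht0.le ht2 hx
  have hsmall := fun η hη => P_small hΨ hΨ0 hre ht0 η hη
  set C : ℝ := ‖h₁‖ + 1 with hC
  have hC0 : 0 < C := by positivity
  have hh1 : ∀ᵐ x ∂(haarAddCircle : Measure UnitAddCircle), ‖(h₁ : Lp ℂ ∞ (haarAddCircle : Measure UnitAddCircle)) x‖ ≤ C := by
    filter_upwards [Lp_bdd (h₁ : Lp ℂ ∞ (haarAddCircle : Measure UnitAddCircle))] with x hx
    refine hx.trans ?_
    have : ‖(h₁ : Lp ℂ ∞ (haarAddCircle : Measure UnitAddCircle))‖ = ‖h₁‖ := rfl
    rw [this, hC]; linarith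
  have hhb : ∀ᵐ x ∂(haarAddCircle : Measure UnitAddCircle), ‖(h : Lp ℂ ∞ (haarAddCircle : Measure UnitAddCircle)) x‖ ≤ ‖h‖ := Lp_bdd (h : Lp ℂ ∞ (haarAddCircle : Measure UnitAddCircle))
  let H : HPhi0 Φ := ⟨h, hmem⟩
  have hcoe : ∀ c : ℂ, ∀ᵐ x ∂(haarAddCircle : Measure UnitAddCircle), (((f + c • H : HPhi0 Φ) : Hinf) : Lp ℂ ∞ (haarAddCircle : Measure UnitAddCircle)) x
      = F x + c * (h : Lp ℂ ∞ (haarAddCircle : Measure UnitAddCircle)) x := by
    intro c
    have h1 := Lp.coeFn_add ((f : Hinf) : Lp ℂ ∞ (haarAddCircle : Measure UnitAddCircle)) (c • (h : Lp ℂ ∞ (haarAddCircle : Measure UnitAddCircle)))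
    have h2 := Lp.coeFn_smul c (h : Lp ℂ ∞ (haarAddCircle : Measure UnitAddCircle))
    filter_upwards [h1, h2] with x h1 h2
    have e : (((f + c • H : HPhi0 Φ) : Hinf) : Lp ℂ ∞ (haarAddCircle : Measure UnitAddCircle))
        = ((f : Hinf) : Lp ℂ ∞ (haarAddCircle : Measure UnitAddCircle)) + c • (h : Lp ℂ ∞ (haarAddCircle : Measure UnitAddCircle)) := rfl
    rw [e, h1, Pi.add_apply, h2, Pi.smul_apply, smul_eq_mul]
  -- `h ≠ 0`
  have hne : h ≠ 0 := by
    intro hz
    obtain ⟨δ, hδ, hsm⟩ := hsmall (1 / (4 * C)) (by positivity)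
    have hb : ∀ᵐ x ∂(haarAddCircle : Measure UnitAddCircle), ‖F x‖ ≤ 1 - min δ (1 / 2) := by
      have hz0 : ∀ᵐ x ∂(haarAddCircle : Measure UnitAddCircle), (h : Lp ℂ ∞ (haarAddCircle : Measure UnitAddCircle)) x = 0 := by
        rw [hz]
        exact Lp.coeFn_zero ℂ ∞ (haarAddCircle : Measure UnitAddCircle)
      filter_upwards [hz0, hhx, hsm, hh1] with x a1 a2 a3 a4
      by_contra hcon
      push Not at hcon
      have b1 : 1 - δ < ‖F x‖ := by
        have := min_le_left δ (1 / 2); linarith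
      have b2 : 1 / 2 < ‖F x‖ := by
        have := min_le_right δ (1 / 2); linarith
      have b3 := a3 b1
      rw [a1] at a2
      have b4 : P x * (F x - P x * (h₁ : Lp ℂ ∞ (haarAddCircle : Measure UnitAddCircle)) x) = 0 := by rw [a2]; ring
      have b5 : F x = P x * (h₁ : Lp ℂ ∞ (haarAddCircle : Measure UnitAddCircle)) x := by
        rcases mul_eq_zero.1 b4 with h' | h'
        · exact absurd h' (Bt_ne _ _)
        · exact sub_eq_zero.1 h'
      have b6 : ‖F x‖ ≤ 1 / 4 := by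
        rw [b5, norm_mul]
        calc ‖P x‖ * ‖(h₁ : Lp ℂ ∞ (haarAddCircle : Measure UnitAddCircle)) x‖ ≤ 1 / (4 * C) * C :=
              mul_le_mul b3 a4 (norm_nonneg _) (by positivity)
          _ = 1 / 4 := by field_simp
      linarith
    have hb2 : ‖((f : Hinf) : Lp ℂ ∞ (haarAddCircle : Measure UnitAddCircle))‖ ≤ 1 - min δ (1 / 2) := by
      apply Lp_norm_le _ hb
      have := min_le_right δ (1 / 2 : ℝ)
      linarith
    rw [hf'] at hb2
    have : 0 < min δ (1 / 2 : ℝ) := lt_min hδ (by norm_num)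
    linarith
  -- `Λ` vanishes on `h`
  have hΛh : Λ H = 0 := by
    by_contra hne0
    have hl : 0 < ‖Λ H‖ := norm_pos_iff.2 hne0
    set lam := Λ H with hlam
    obtain ⟨δ, hδ, hsm⟩ := hsmall (‖lam‖ / 2 / (1 + C)) (by positivity)
    set s : ℝ := δ / (‖lam‖ * (‖h‖ + 1)) with hs
    have hs0 : 0 < s := by positivity
    have hs1 : s * ‖lam‖ * ‖h‖ ≤ δ := by
      rw [hs]
      have : δ / (‖lam‖ * (‖h‖ + 1)) * ‖lam‖ * ‖h‖ = δ * (‖h‖ / (‖h‖ + 1)) := by
        field_simp
      rw [this]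
      have h2 : ‖h‖ / (‖h‖ + 1) ≤ 1 := by
        rw [div_le_one (by positivity)]; linarith
      nlinarith
    set c : ℂ := (s : ℂ) * (starRingEnd ℂ) lam with hc
    have hcn : ‖c‖ = s * ‖lam‖ := by
      rw [hc, norm_mul, RCLike.norm_conj, Complex.norm_real, Real.norm_of_nonneg hs0.le]
    have hbd : ‖f + c • H‖ ≤ 1 + ‖lam‖ / 2 * (s * ‖lam‖) := by
      have : ‖(((f + c • H : HPhi0 Φ) : Hinf) : Lp ℂ ∞ (haarAddCircle : Measure UnitAddCircle))‖ ≤ 1 + ‖lam‖ / 2 * (s * ‖lam‖) := by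
        apply Lp_norm_le (by positivity)
        filter_upwards [hcoe c, hhx, hsm, hh1, hF1, hhb, hP1] with x a1 a2 a3 a4 a5 a6 a7
        rw [a1]
        refine (norm_add_le _ _).trans ?_
        rw [norm_mul, hcn]
        by_cases hx : 1 - δ < ‖F x‖
        · have b1 := a3 hx
          have b2 : ‖(h : Lp ℂ ∞ (haarAddCircle : Measure UnitAddCircle)) x‖ ≤ ‖lam‖ / 2 := by
            rw [a2]
            calc ‖P x * F x - P x * P x * (h₁ : Lp ℂ ∞ (haarAddCircle : Measure UnitAddCircle)) x‖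
                ≤ ‖P x * F x‖ + ‖P x * P x * (h₁ : Lp ℂ ∞ (haarAddCircle : Measure UnitAddCircle)) x‖ := norm_sub_le _ _
              _ = ‖P x‖ * ‖F x‖ + ‖P x‖ * (‖P x‖ * ‖(h₁ : Lp ℂ ∞ (haarAddCircle : Measure UnitAddCircle)) x‖) := by
                  simp only [norm_mul]; ring
              _ ≤ ‖P x‖ * 1 + ‖P x‖ * (1 * C) := by gcongr
              _ = ‖P x‖ * (1 + C) := by ring
              _ ≤ ‖lam‖ / 2 / (1 + C) * (1 + C) := by gcongr
              _ = ‖lam‖ / 2 := by field_simp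
          have b3 : s * ‖lam‖ * ‖(h : Lp ℂ ∞ (haarAddCircle : Measure UnitAddCircle)) x‖ ≤ s * ‖lam‖ * (‖lam‖ / 2) := by gcongr
          linarith
        · push Not at hx
          have b3 : s * ‖lam‖ * ‖(h : Lp ℂ ∞ (haarAddCircle : Measure UnitAddCircle)) x‖ ≤ s * ‖lam‖ * ‖h‖ := by gcongr
          have b4 : 0 ≤ ‖lam‖ / 2 * (s * ‖lam‖) := by positivity
          linarith
      exact this
    have h1 : ‖Λ (f + c • H)‖ ≤ 1 + ‖lam‖ / 2 * (s * ‖lam‖) := by
      exact (hop _).trans hbd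
    have h2 : Λ (f + c • H) = ((1 + s * ‖lam‖ ^ 2 : ℝ) : ℂ) := by
      rw [map_add, map_smul, hΛf, ← hlam, smul_eq_mul, hc, mul_assoc, ← Complex.normSq_eq_conj_mul_self,
        Complex.normSq_eq_norm_sq]
      push_cast
      ring
    rw [h2, Complex.norm_real, Real.norm_of_nonneg (by positivity)] at h1
    have h3 : 0 < s * ‖lam‖ ^ 2 := by positivity
    nlinarith
  -- the perturbation `f - ε h`
  obtain ⟨δ, hδ, hsm⟩ := hsmall (1 / (4 * C)) (by positivity)
  set ε : ℝ := min (1 / 2) (δ / (‖h‖ + 1)) with hε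
  have hε0 : 0 < ε := lt_min (by norm_num) (by positivity)
  have hε1 : ε ≤ 1 / 2 := min_le_left _ _
  have hε2 : ε * ‖h‖ ≤ δ := by
    have h1 : ε ≤ δ / (‖h‖ + 1) := min_le_right _ _
    calc ε * ‖h‖ ≤ δ / (‖h‖ + 1) * (‖h‖ + 1) := by
          apply mul_le_mul h1 (by linarith) (norm_nonneg _) (by positivity)
      _ = δ := by field_simp
  refine ⟨f + (-(ε : ℂ)) • H, ?_, ?_, ?_⟩
  · intro he
    have h1 : (-(ε : ℂ)) • H = 0 := by
      exact add_eq_left.1 he
    have h1' : (-(ε : ℂ)) • (h : Lp ℂ ∞ (haarAddCircle : Measure UnitAddCircle)) = 0 :=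
      congrArg (fun y : HPhi0 Φ => ((y : Hinf) : Lp ℂ ∞ (haarAddCircle : Measure UnitAddCircle))) h1
    rcases smul_eq_zero.1 h1' with h2 | h2
    · rw [neg_eq_zero, Complex.ofReal_eq_zero] at h2
      exact hε0.ne' h2
    · exact hne (Subtype.ext h2)
  · have : ‖(((f + (-(ε : ℂ)) • H : HPhi0 Φ) : Hinf) : Lp ℂ ∞ (haarAddCircle : Measure UnitAddCircle))‖ ≤ 1 := by
      apply Lp_norm_le (by norm_num)
      filter_upwards [hcoe (-(ε : ℂ)), hhx, hsm, hh1, hF1, hhb, hP1, hPre] with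
        x a1 a2 a3 a4 a5 a6 a7 a8
      rw [a1]
      by_cases hx : 1 - δ < ‖F x‖
      · have b1 := a3 hx
        have b2 := one_sub_le hε0.le hε1 a7 a8
        rw [a2]
        have e : F x + -(ε : ℂ) * (P x * F x - P x * P x * (h₁ : Lp ℂ ∞ (haarAddCircle : Measure UnitAddCircle)) x)
            = F x * (1 - (ε : ℂ) * P x) + (ε : ℂ) * (P x * (P x * (h₁ : Lp ℂ ∞ (haarAddCircle : Measure UnitAddCircle)) x)) := by ring
        rw [e]
        have b3 : ‖P x‖ * ‖(h₁ : Lp ℂ ∞ (haarAddCircle : Measure UnitAddCircle)) x‖ ≤ 1 / 4 := by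
          calc ‖P x‖ * ‖(h₁ : Lp ℂ ∞ (haarAddCircle : Measure UnitAddCircle)) x‖ ≤ 1 / (4 * C) * C :=
                mul_le_mul b1 a4 (norm_nonneg _) (by positivity)
            _ = 1 / 4 := by field_simp
        calc ‖F x * (1 - (ε : ℂ) * P x) + (ε : ℂ) * (P x * (P x * (h₁ : Lp ℂ ∞ (haarAddCircle : Measure UnitAddCircle)) x))‖
            ≤ ‖F x * (1 - (ε : ℂ) * P x)‖ + ‖(ε : ℂ) * (P x * (P x * (h₁ : Lp ℂ ∞ (haarAddCircle : Measure UnitAddCircle)) x))‖ :=
              norm_add_le _ _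
          _ = ‖F x‖ * ‖1 - (ε : ℂ) * P x‖ + ε * (‖P x‖ * (‖P x‖ * ‖(h₁ : Lp ℂ ∞ (haarAddCircle : Measure UnitAddCircle)) x‖)) := by
              simp only [norm_mul, Complex.norm_real, Real.norm_of_nonneg hε0.le]
          _ ≤ 1 * (1 - ε / 4 * ‖P x‖) + ε * (‖P x‖ * (1 / 4)) := by gcongr
          _ = 1 := by ring
      · push Not at hx
        refine (norm_add_le _ _).trans ?_
        rw [norm_mul, norm_neg, Complex.norm_real, Real.norm_of_nonneg hε0.le]
        have b3 : ε * ‖(h : Lp ℂ ∞ (haarAddCircle : Measure UnitAddCircle)) x‖ ≤ ε * ‖h‖ := by gcongr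
        linarith
    exact this
  · rw [map_add, map_smul, hΛh, hΛf, smul_zero, add_zero]

lemma exposed_norm {X : Type*} [NormedAddCommGroup X] [NormedSpace ℂ X] {x : X}
    (h : IsExposedPoint x) : ‖x‖ = 1 := by
  obtain ⟨φ, h1, h2⟩ := h
  have h3 : x ∈ {y : X | ‖y‖ ≤ 1 ∧ φ y = 1} := by rw [h2]; rfl
  obtain ⟨h4, h5⟩ := h3
  have h6 := φ.le_opNorm x
  rw [h1, h5, norm_one, one_mul] at h6
  exact le_antisymm h4 h6

theorem forward (Φ : Set (Hinf →L[ℂ] ℂ)) (hΦ : Φ.Finite) (f : HPhi0 Φ) (hex : IsExposedPoint f) :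
    ‖f‖ = 1 ∧ 0 < haarAddCircle {x : UnitAddCircle |
      ‖((f : Hinf) : Lp ℂ ∞ (haarAddCircle : Measure UnitAddCircle)) x‖ = 1} := by
  have hf := exposed_norm hex
  refine ⟨hf, ?_⟩
  by_contra hcon
  have h0 : (haarAddCircle : Measure UnitAddCircle) {x | ‖((f : Hinf) : Lp ℂ ∞ (haarAddCircle : Measure UnitAddCircle)) x‖ = 1} = 0 := by
    exact le_antisymm (not_lt.1 hcon) zero_le
  obtain ⟨φ, h1, h2⟩ := hex
  have h3 : f ∈ {y : HPhi0 Φ | ‖y‖ ≤ 1 ∧ φ y = 1} := by rw [h2]; rfl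
  obtain ⟨g, hg1, hg2, hg3⟩ := not_exposed Φ hΦ f hf h0 φ h1 h3.2
  have h4 : g ∈ {y : HPhi0 Φ | ‖y‖ ≤ 1 ∧ φ y = 1} := ⟨hg2, hg3⟩
  rw [h2] at h4
  exact hg1 h4

lemma Lp_int (g F : Lp ℂ ∞ (haarAddCircle : Measure UnitAddCircle)) : Integrable (fun x => g x * (starRingEnd ℂ) (F x)) (haarAddCircle : Measure UnitAddCircle) := by
  have h : MemLp (fun x => g x * (starRingEnd ℂ) (F x)) 1 (haarAddCircle : Measure UnitAddCircle) := by
    apply memLp_of_bdd
    · exact (Lp.aestronglyMeasurable g).mul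
        (Complex.continuous_conj.comp_aestronglyMeasurable (Lp.aestronglyMeasurable F))
    · refine ⟨‖g‖ * ‖F‖, ?_⟩
      filter_upwards [Lp_bdd g, Lp_bdd F] with x h1 h2
      rw [norm_mul, RCLike.norm_conj]
      gcongr
  exact h.integrable le_rfl

/-- the exposing functional -/
noncomputable def expL (Φ : Set (Hinf →L[ℂ] ℂ)) (F : Lp ℂ ∞ (haarAddCircle : Measure UnitAddCircle)) (E : Set UnitAddCircle) :
    HPhi0 Φ →ₗ[ℂ] ℂ where
  toFun g := (((haarAddCircle : Measure UnitAddCircle).real E : ℝ) : ℂ)⁻¹ *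
    ∫ x in E, ((g : Hinf) : Lp ℂ ∞ (haarAddCircle : Measure UnitAddCircle)) x * (starRingEnd ℂ) (F x) ∂(haarAddCircle : Measure UnitAddCircle)
  map_add' := by
    intro a b
    rw [← mul_add, ← integral_add (Lp_int _ _).integrableOn (Lp_int _ _).integrableOn]
    congr 1
    apply integral_congr_ae
    apply ae_restrict_of_ae
    have h := Lp.coeFn_add ((a : Hinf) : Lp ℂ ∞ (haarAddCircle : Measure UnitAddCircle)) ((b : Hinf) : Lp ℂ ∞ (haarAddCircle : Measure UnitAddCircle))
    filter_upwards [h] with x hx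
    have e : (((a + b : HPhi0 Φ) : Hinf) : Lp ℂ ∞ (haarAddCircle : Measure UnitAddCircle))
        = ((a : Hinf) : Lp ℂ ∞ (haarAddCircle : Measure UnitAddCircle)) + ((b : Hinf) : Lp ℂ ∞ (haarAddCircle : Measure UnitAddCircle)) := rfl
    rw [e, hx, Pi.add_apply]
    ring
  map_smul' := by
    intro c a
    simp only [RingHom.id_apply, smul_eq_mul]
    rw [mul_left_comm]
    congr 1
    rw [← integral_const_mul]
    apply integral_congr_ae
    apply ae_restrict_of_ae
    have h := Lp.coeFn_smul c ((a : Hinf) : Lp ℂ ∞ (haarAddCircle : Measure UnitAddCircle))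
    filter_upwards [h] with x hx
    have e : (((c • a : HPhi0 Φ) : Hinf) : Lp ℂ ∞ (haarAddCircle : Measure UnitAddCircle))
        = c • ((a : Hinf) : Lp ℂ ∞ (haarAddCircle : Measure UnitAddCircle)) := rfl
    rw [e, hx, Pi.smul_apply, smul_eq_mul]
    ring

lemma mk_exposed {X : Type*} [NormedAddCommGroup X] [NormedSpace ℂ X] (L : X →ₗ[ℂ] ℂ)
    (hb : ∀ x, ‖L x‖ ≤ 1 * ‖x‖) (f : X) (hf : ‖f‖ = 1) (hv : L f = 1)
    (hu : ∀ g : X, ‖g‖ ≤ 1 → L g = 1 → g = f) : IsExposedPoint f := by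
  refine ⟨LinearMap.mkContinuous L 1 hb, ?_, ?_⟩
  · apply le_antisymm
    · exact LinearMap.mkContinuous_norm_le _ zero_le_one _
    · have h1 := (LinearMap.mkContinuous L 1 hb).le_opNorm f
      rw [hf, mul_one, LinearMap.mkContinuous_apply, hv, norm_one] at h1
      exact h1
  · apply Set.eq_singleton_iff_unique_mem.2
    exact ⟨⟨hf.le, hv⟩, fun g hg => hu g hg.1 hg.2⟩

theorem backward (Φ : Set (Hinf →L[ℂ] ℂ)) (f : HPhi0 Φ) (hf : ‖f‖ = 1)
    (hpos : 0 < haarAddCircle {x : UnitAddCircle |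
      ‖((f : Hinf) : Lp ℂ ∞ (haarAddCircle : Measure UnitAddCircle)) x‖ = 1}) :
    IsExposedPoint f := by
  set F : Lp ℂ ∞ (haarAddCircle : Measure UnitAddCircle) := ((f : Hinf) : Lp ℂ ∞ (haarAddCircle : Measure UnitAddCircle)) with hF
  have hf' : ‖F‖ = 1 := hf
  set E : Set UnitAddCircle := {x | ‖F x‖ = 1} with hE
  have hEm : MeasurableSet E :=
    (Lp.stronglyMeasurable F).norm.measurable (measurableSet_singleton 1)
  have hM : 0 < (haarAddCircle : Measure UnitAddCircle).real E := by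
    rw [measureReal_def]
    exact ENNReal.toReal_pos hpos.ne' (measure_ne_top _ _)
  have hMc : (((haarAddCircle : Measure UnitAddCircle).real E : ℝ) : ℂ) ≠ 0 := by
    rw [Ne, Complex.ofReal_eq_zero]; exact hM.ne'
  have hbound : ∀ g : HPhi0 Φ, ‖expL Φ F E g‖ ≤ 1 * ‖g‖ := by
    intro g
    have h1 : ‖∫ x in E, ((g : Hinf) : Lp ℂ ∞ (haarAddCircle : Measure UnitAddCircle)) x * (starRingEnd ℂ) (F x) ∂(haarAddCircle : Measure UnitAddCircle)‖
        ≤ ‖g‖ * (haarAddCircle : Measure UnitAddCircle).real E := by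
      apply norm_setIntegral_le_of_norm_le_const_ae (measure_lt_top _ _)
      apply ae_restrict_of_ae
      filter_upwards [Lp_bdd ((g : Hinf) : Lp ℂ ∞ (haarAddCircle : Measure UnitAddCircle)), Lp_bdd F] with x h1 h2
      rw [hf'] at h2
      have h3 : ‖((g : Hinf) : Lp ℂ ∞ (haarAddCircle : Measure UnitAddCircle))‖ = ‖g‖ := rfl
      rw [h3] at h1
      rw [norm_mul, RCLike.norm_conj]
      calc _ ≤ ‖g‖ * 1 := mul_le_mul h1 h2 (norm_nonneg _) (norm_nonneg _)
        _ = ‖g‖ := mul_one _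
    have h2 : ‖expL Φ F E g‖ = ((haarAddCircle : Measure UnitAddCircle).real E)⁻¹ *
        ‖∫ x in E, ((g : Hinf) : Lp ℂ ∞ (haarAddCircle : Measure UnitAddCircle)) x * (starRingEnd ℂ) (F x) ∂(haarAddCircle : Measure UnitAddCircle)‖ := by
      simp only [expL, LinearMap.coe_mk, AddHom.coe_mk]
      rw [norm_mul, norm_inv, Complex.norm_real, Real.norm_of_nonneg hM.le]
    rw [h2, one_mul]
    calc _ ≤ ((haarAddCircle : Measure UnitAddCircle).real E)⁻¹ * (‖g‖ * (haarAddCircle : Measure UnitAddCircle).real E) := by gcongr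
      _ = ‖g‖ := by field_simp
  have hval : expL Φ F E f = 1 := by
    simp only [expL, LinearMap.coe_mk, AddHom.coe_mk]
    have h1 : ∫ x in E, ((f : Hinf) : Lp ℂ ∞ (haarAddCircle : Measure UnitAddCircle)) x * (starRingEnd ℂ) (F x) ∂(haarAddCircle : Measure UnitAddCircle)
        = ∫ x in E, (1 : ℂ) ∂(haarAddCircle : Measure UnitAddCircle) := by
      apply setIntegral_congr_fun hEm
      intro x hx
      have hx' : ‖F x‖ = 1 := hx
      change F x * (starRingEnd ℂ) (F x) = 1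
      rw [Complex.mul_conj, Complex.normSq_eq_norm_sq, hx']
      simp
    rw [h1]
    simp only [integral_const, MeasurableSet.univ, measureReal_restrict_apply, Set.univ_inter]
    rw [Complex.real_smul, mul_one, inv_mul_cancel₀ hMc]
  refine @mk_exposed (HPhi0 Φ) inferInstance inferInstance (expL Φ F E) hbound f hf hval ?_
  · intro g hg1 hg2
    set G : Lp ℂ ∞ (haarAddCircle : Measure UnitAddCircle) := ((g : Hinf) : Lp ℂ ∞ (haarAddCircle : Measure UnitAddCircle)) with hG
    have hg1' : ‖G‖ ≤ 1 := hg1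
    have h1 : ∫ x in E, G x * (starRingEnd ℂ) (F x) ∂(haarAddCircle : Measure UnitAddCircle) = (((haarAddCircle : Measure UnitAddCircle).real E : ℝ) : ℂ) := by
      simp only [expL, LinearMap.coe_mk, AddHom.coe_mk] at hg2
      rw [inv_mul_eq_iff_eq_mul₀ hMc, mul_one] at hg2
      exact hg2
    have h2 : ∫ x in E, (1 - (G x * (starRingEnd ℂ) (F x)).re) ∂(haarAddCircle : Measure UnitAddCircle) = 0 := by
      have hi : Integrable (fun x => (G x * (starRingEnd ℂ) (F x)).re) ((haarAddCircle : Measure UnitAddCircle).restrict E) :=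
        (Lp_int G F).integrableOn.re
      rw [integral_sub (integrable_const _) hi]
      have h3 : ∫ x in E, (G x * (starRingEnd ℂ) (F x)).re ∂(haarAddCircle : Measure UnitAddCircle)
          = (∫ x in E, G x * (starRingEnd ℂ) (F x) ∂(haarAddCircle : Measure UnitAddCircle)).re :=
        integral_re (Lp_int G F).integrableOn
      rw [h3, h1]
      simp
    have hGF : ∀ᵐ x ∂(haarAddCircle : Measure UnitAddCircle), ‖G x‖ ≤ 1 ∧ ‖F x‖ ≤ 1 := by
      filter_upwards [Lp_bdd G, Lp_bdd F] with x a1 a2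
      exact ⟨a1.trans hg1', a2.trans hf'.le⟩
    have h4 : ∀ᵐ x ∂(haarAddCircle : Measure UnitAddCircle).restrict E, 0 ≤ 1 - (G x * (starRingEnd ℂ) (F x)).re := by
      apply ae_restrict_of_ae
      filter_upwards [hGF] with x hx
      have := Complex.re_le_norm (G x * (starRingEnd ℂ) (F x))
      rw [norm_mul, RCLike.norm_conj] at this
      have h5 : ‖G x‖ * ‖F x‖ ≤ 1 * 1 := mul_le_mul hx.1 hx.2 (norm_nonneg _) zero_le_one
      linarith
    have h5 := (integral_eq_zero_iff_of_nonneg_ae h4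
      ((integrable_const _).sub (Lp_int G F).integrableOn.re)).1 h2
    have h6 : ∀ᵐ x ∂(haarAddCircle : Measure UnitAddCircle), x ∈ E → G x = F x := by
      have h7 := (ae_restrict_iff' hEm).1 h5
      filter_upwards [h7, hGF] with x a1 a2 a3
      have b1 := a1 a3
      have b2 : ‖F x‖ = 1 := a3
      have b3 : (G x * (starRingEnd ℂ) (F x)).re = 1 := by
        simp only [Pi.zero_apply] at b1
        linarith
      have b4 : ‖G x - F x‖ ^ 2 = ‖G x‖ ^ 2 + ‖F x‖ ^ 2 - 2 * (G x * (starRingEnd ℂ) (F x)).re := by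
        rw [Complex.sq_norm, Complex.sq_norm, Complex.sq_norm, Complex.normSq_sub]
      have b5 : ‖G x - F x‖ ^ 2 ≤ 0 := by
        rw [b4, b3, b2]
        have := norm_nonneg (G x)
        nlinarith [a2.1]
      have b6 : ‖G x - F x‖ = 0 := by
        have := sq_nonneg ‖G x - F x‖
        exact pow_eq_zero_iff (two_ne_zero) |>.1 (le_antisymm b5 this)
      exact sub_eq_zero.1 (norm_eq_zero.1 b6)
    have h8 : ∀ᵐ x ∂(haarAddCircle : Measure UnitAddCircle), x ∈ E → (((g : Hinf) - (f : Hinf) : Hinf) : Lp ℂ ∞ (haarAddCircle : Measure UnitAddCircle)) x = 0 := by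
      filter_upwards [h6, Lp.coeFn_sub G F] with x a1 a2 a3
      have e : (((g : Hinf) - (f : Hinf) : Hinf) : Lp ℂ ∞ (haarAddCircle : Measure UnitAddCircle)) = G - F := rfl
      rw [e, a2, Pi.sub_apply, a1 a3, sub_self]
    have h9 := uniqueness (Hinf_HB ((g : Hinf) - (f : Hinf))) hEm hpos.ne' h8
    have h10 : ((g : Hinf) - (f : Hinf) : Hinf) = 0 := by
      apply Hinf_ext
      exact h9.trans (Lp.coeFn_zero ℂ ∞ (haarAddCircle : Measure UnitAddCircle)).symm
    exact Subtype.ext (sub_eq_zero.1 h10)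

theorem result0 (Φ : Set (Hinf →L[ℂ] ℂ)) (hΦ : Φ.Finite) (f : HPhi0 Φ) :
    IsExposedPoint f ↔ ‖f‖ = 1 ∧
      0 < haarAddCircle {x : UnitAddCircle |
        ‖((f : Hinf) : Lp ℂ ∞ (haarAddCircle : Measure UnitAddCircle)) x‖ = 1} :=
  ⟨forward Φ hΦ f, fun h => backward Φ f h.1 h.2⟩


end Pool.Agent.H174.Exposed
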