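import Mathlib

open MeasureTheory Filter Topology
open scoped ENNReal ComplexConjugate

namespace Pool.Agent.H174.Polyan

/-- normalised area measure on the unit disc -/
noncomputable def dA : Measure ℂ :=
  (ENNReal.ofReal Real.pi)⁻¹ • (volume : Measure ℂ).restrict (Metric.ball 0 1)

lemma pi_ne : (ENNReal.ofReal Real.pi)⁻¹ ≠ 0 := by simp

lemma pi_ne_top : (ENNReal.ofReal Real.pi)⁻¹ ≠ ∞ := by
  simp [Real.pi_pos]

instance : IsFiniteMeasure dA := by
  constructor
  have h : (volume : Measure ℂ) (Metric.ball 0 1) < ∞ := measure_ball_lt_top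
  simp only [dA, Measure.smul_apply, smul_eq_mul, Measure.restrict_apply_univ]
  exact ENNReal.mul_lt_top pi_ne_top.lt_top h

lemma ae_dA {p : ℂ → Prop} : (∀ᵐ z ∂dA, p z) ↔ ∀ᵐ z ∂((volume : Measure ℂ).restrict (Metric.ball 0 1)), p z := by
  unfold dA
  rw [Measure.ae_ennreal_smul_measure_iff pi_ne]

lemma ae_ball : ∀ᵐ z ∂dA, ‖z‖ < 1 := by
  rw [ae_dA]
  filter_upwards [ae_restrict_mem measurableSet_ball] with z hz
  simpa using hz

lemma ae_ne_zero : ∀ᵐ z ∂dA, z ≠ 0 := by
  rw [ae_dA]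
  apply ae_restrict_of_ae
  exact Measure.ae_ne volume 0

lemma integral_dA (F : ℂ → ℂ) : ∫ z, F z ∂dA =
    ((ENNReal.ofReal Real.pi)⁻¹).toReal • ∫ z in Metric.ball 0 1, F z := by
  unfold dA
  rw [integral_smul_measure]

/-- rotation invariance -/
lemma integral_rot (F : ℂ → ℂ) (w : Circle) : ∫ z, F ((w : ℂ) * z) ∂dA = ∫ z, F z ∂dA := by
  rw [integral_dA, integral_dA]
  congr 1
  have h := (rotation w).measurePreserving
  have h2 := h.setIntegral_preimage_emb (rotation w).toHomeomorph.measurableEmbedding F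
    (Metric.ball 0 1)
  have h3 : (rotation w) ⁻¹' (Metric.ball 0 1) = Metric.ball 0 1 := by
    ext z
    rw [Set.mem_preimage, mem_ball_zero_iff, mem_ball_zero_iff, LinearIsometryEquiv.norm_map]
  rw [h3] at h2
  rw [← h2]
  rfl

/-- radial weights are orthogonal to nontrivial rotations -/
lemma integral_radial_zero (φ : ℝ → ℂ) {a b : ℕ} (hab : a ≠ b) :
    ∫ z, φ ‖z‖ * (z ^ a * conj z ^ b) ∂dA = 0 := by
  -- rotate by `w` with `w ^ a * conj w ^ b = -1`
  set w : Circle := Circle.exp (Real.pi / ((a : ℝ) - b)) with hw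
  have hab' : ((a : ℝ) - b) ≠ 0 := sub_ne_zero.2 (by exact_mod_cast hab)
  have hab'' : ((a : ℂ) - b) ≠ 0 := by exact_mod_cast hab'
  have hconj : (conj (w : ℂ)) = (w : ℂ)⁻¹ := by
    rw [← Circle.coe_inv_eq_conj, Circle.coe_inv]
  have h1 : (w : ℂ) ^ a * conj (w : ℂ) ^ b = -1 := by
    rw [hconj, hw, Circle.coe_exp, ← Complex.exp_neg, ← Complex.exp_nat_mul, ← Complex.exp_nat_mul,
      ← Complex.exp_add, ← Complex.exp_pi_mul_I]
    congr 1
    push_cast
    field_simp
    ring
  have h2 := integral_rot (fun z => φ ‖z‖ * (z ^ a * conj z ^ b)) w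
  have h3 : (fun z : ℂ => φ ‖(w : ℂ) * z‖ * (((w : ℂ) * z) ^ a * conj ((w : ℂ) * z) ^ b))
      = fun z => -(φ ‖z‖ * (z ^ a * conj z ^ b)) := by
    funext z
    rw [norm_mul, Circle.norm_coe, one_mul, map_mul, mul_pow, mul_pow]
    have : (w : ℂ) ^ a * z ^ a * (conj (w : ℂ) ^ b * conj z ^ b)
        = ((w : ℂ) ^ a * conj (w : ℂ) ^ b) * (z ^ a * conj z ^ b) := by ring
    rw [this, h1]
    ring
  rw [h3, integral_neg] at h2
  linear_combination (-1 / 2 : ℂ) * h2

/-- integrability of bounded measurable functions -/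
lemma int_bdd {F : ℂ → ℂ} (hm : AEStronglyMeasurable F dA) {C : ℝ} (hC : ∀ᵐ z ∂dA, ‖F z‖ ≤ C) :
    Integrable F dA := (MemLp.of_bound hm C hC : MemLp F 1 dA).integrable le_rfl

/-- the compact closed disc -/
abbrev Kd : Set ℂ := Metric.closedBall 0 1

instance : CompactSpace Kd := isCompact_iff_compactSpace.1 (isCompact_closedBall 0 1)

/-- retraction onto the closed disc -/
noncomputable def rt (z : ℂ) : Kd := ⟨((max 1 ‖z‖)⁻¹ : ℝ) • z, by
  rw [mem_closedBall_zero_iff, norm_smul, norm_inv, Real.norm_of_nonneg (by positivity)]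
  rw [inv_mul_le_iff₀ (by positivity)]
  simp⟩

lemma rt_cont : Continuous rt := by
  unfold rt
  apply Continuous.subtype_mk
  refine Continuous.smul (f := fun x : ℂ => (max 1 ‖x‖)⁻¹) ?_ continuous_id
  apply Continuous.inv₀
  · fun_prop
  · intro z; positivity

lemma rt_eq {z : ℂ} (hz : ‖z‖ ≤ 1) : (rt z : ℂ) = z := by
  simp [rt, max_eq_left hz]

/-- completeness of the monomials -/
lemma ae_zero_of_moments {W : ℂ → ℂ} (hm : AEStronglyMeasurable W dA) {C : ℝ}
    (hC : ∀ᵐ z ∂dA, ‖W z‖ ≤ C) (h : ∀ p q : ℕ, ∫ z, W z * (z ^ p * conj z ^ q) ∂dA = 0) :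
    ∀ᵐ z ∂dA, W z = 0 := by
  have hint := int_bdd hm hC
  have hgi : ∀ g : C(Kd, ℂ), Integrable (fun z => W z * g (rt z)) dA := by
    intro g
    apply hint.mul_bdd (c := ‖g‖) (g.continuous.comp rt_cont).aestronglyMeasurable
    exact Eventually.of_forall fun z => g.norm_coe_le_norm _
  let L₀ : C(Kd, ℂ) →ₗ[ℂ] ℂ :=
    { toFun := fun g => ∫ z, W z * g (rt z) ∂dA
      map_add' := by
        intro g1 g2
        rw [← integral_add (hgi g1) (hgi g2)]
        congr 1; funext z
        rw [ContinuousMap.add_apply]; ring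
      map_smul' := by
        intro c g
        rw [RingHom.id_apply, smul_eq_mul, ← integral_const_mul]
        congr 1; funext z
        rw [ContinuousMap.smul_apply, smul_eq_mul]; ring }
  let L : C(Kd, ℂ) →L[ℂ] ℂ := L₀.mkContinuous (∫ z, ‖W z‖ ∂dA) (by
    intro g
    refine (norm_integral_le_integral_norm _).trans ?_
    rw [← integral_mul_const]
    apply integral_mono (hgi g).norm (hint.norm.mul_const _)
    intro z
    simp only [norm_mul]
    exact mul_le_mul_of_nonneg_left (g.norm_coe_le_norm _) (norm_nonneg _))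
  have hLapp : ∀ g, L g = ∫ z, W z * g (rt z) ∂dA := fun g => rfl
  have hX : ∀ g ∈ (polynomialFunctions Kd).starClosure, L g = 0 := by
    intro g hg
    rw [polynomialFunctions.starClosure_eq_adjoin_X] at hg
    have hg'' : g ∈ Submodule.span ℂ (Submonoid.closure
        ({(Polynomial.toContinuousMapOnAlgHom Kd) Polynomial.X} ∪
          star {(Polynomial.toContinuousMapOnAlgHom Kd) Polynomial.X} : Set C(Kd, ℂ)) : Set C(Kd, ℂ)) := by
      rw [← Algebra.adjoin_eq_span]
      exact hg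
    have hle : Submodule.span ℂ (Submonoid.closure
        ({(Polynomial.toContinuousMapOnAlgHom Kd) Polynomial.X} ∪
          star {(Polynomial.toContinuousMapOnAlgHom Kd) Polynomial.X} : Set C(Kd, ℂ)) : Set C(Kd, ℂ))
        ≤ LinearMap.ker (L : C(Kd, ℂ) →ₗ[ℂ] ℂ) := by
      rw [Submodule.span_le]
      intro y hy
      have hy2 : ∃ p q : ℕ, ∀ z : Kd, y z = (z : ℂ) ^ p * conj (z : ℂ) ^ q := by
        refine Submonoid.closure_induction (motive := fun y _ => ∃ p q : ℕ, ∀ z : Kd,
          y z = (z : ℂ) ^ p * conj (z : ℂ) ^ q) ?_ ?_ ?_ hy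
        · intro x hx
          rcases hx with hx | hx
          · rw [Set.mem_singleton_iff] at hx
            refine ⟨1, 0, fun z => ?_⟩
            rw [hx]; simp
          · rw [Set.star_singleton, Set.mem_singleton_iff] at hx
            refine ⟨0, 1, fun z => ?_⟩
            rw [hx]; simp
        · exact ⟨0, 0, fun z => by simp⟩
        · rintro x y _ _ ⟨p, q, h1⟩ ⟨p', q', h2⟩
          refine ⟨p + p', q + q', fun z => ?_⟩
          rw [ContinuousMap.mul_apply, h1, h2]
          ring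
      obtain ⟨p, q, hpq⟩ := hy2
      change L y = 0
      rw [hLapp, ← h p q]
      apply integral_congr_ae
      filter_upwards [ae_ball] with z hz
      rw [hpq, rt_eq hz.le]
    exact hle hg''
  have hall : ∀ g : C(Kd, ℂ), L g = 0 := by
    intro g
    have hd := polynomialFunctions.starClosure_topologicalClosure (𝕜 := ℂ) Kd
    have hg : g ∈ closure ((polynomialFunctions Kd).starClosure : Set C(Kd, ℂ)) := by
      have : g ∈ (polynomialFunctions Kd).starClosure.topologicalClosure := by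
        rw [hd]; trivial
      exact this
    have hcl : IsClosed {g : C(Kd, ℂ) | L g = 0} := isClosed_eq L.continuous continuous_const
    exact closure_minimal hX hcl hg
  apply ae_eq_zero_of_integral_contDiff_smul_eq_zero hint.locallyIntegrable
  intro g hg _
  let g₁ : C(Kd, ℂ) := ⟨fun z => (g z : ℂ), by
    exact Complex.continuous_ofReal.comp (hg.continuous.comp continuous_subtype_val)⟩
  rw [← hall g₁, hLapp]
  apply integral_congr_ae
  filter_upwards [ae_ball] with z hz
  change g z • W z = W z * (g (rt z : ℂ) : ℂ)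
  rw [rt_eq hz.le, Complex.real_smul, mul_comm]

/-- radial functions with vanishing moments -/
lemma ae_zero_of_radial {W : ℂ → ℂ} (hm : AEStronglyMeasurable W dA) {C : ℝ}
    (hC : ∀ᵐ z ∂dA, ‖W z‖ ≤ C) {φ : ℝ → ℂ} (hφ : ∀ᵐ z ∂dA, W z = φ ‖z‖)
    (h : ∀ j : ℕ, ∫ z, W z * ((‖z‖ ^ 2 : ℝ) : ℂ) ^ j ∂dA = 0) :
    ∀ᵐ z ∂dA, W z = 0 := by
  apply ae_zero_of_moments hm hC
  intro p q
  by_cases hpq : p = q
  · subst hpq
    rw [← h p]
    congr 1; funext z
    rw [← mul_pow, Complex.mul_conj, Complex.normSq_eq_norm_sq]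
  · rw [← integral_radial_zero φ hpq]
    apply integral_congr_ae
    filter_upwards [hφ] with z hz
    rw [hz]

/-- squared modulus -/
noncomputable def sq (z : ℂ) : ℝ := ‖z‖ ^ 2

lemma sq_nonneg' (z : ℂ) : 0 ≤ sq z := by unfold sq; positivity

lemma sq_meas : Measurable sq := by unfold sq; fun_prop

/-- the moment function -/
noncomputable def Mo (b : ℂ → ℂ) (s : ℂ) : ℂ := ∫ z, b z * ((sq z : ℝ) : ℂ) ^ s ∂dA

lemma ae_sq : ∀ᵐ z ∂dA, 0 < sq z ∧ sq z ≤ 1 := by
  filter_upwards [ae_ball, ae_ne_zero] with z h1 h2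
  unfold sq
  have h3 : 0 < ‖z‖ := norm_pos_iff.2 h2
  constructor
  · positivity
  · nlinarith

lemma cpow_meas (s : ℂ) : Measurable (fun z : ℂ => ((sq z : ℝ) : ℂ) ^ s) := by
  exact (Complex.measurable_ofReal.comp sq_meas).pow_const s

lemma Mo_diff {b : ℂ → ℂ} (hm : AEStronglyMeasurable b dA) {C : ℝ}
    (hC : ∀ᵐ z ∂dA, ‖b z‖ ≤ C) : DifferentiableOn ℂ (Mo b) {s : ℂ | 0 < s.re} := by
  intro s₀ hs₀
  simp only [Set.mem_ofPred_eq] at hs₀
  apply DifferentiableAt.differentiableWithinAt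
  set δ : ℝ := s₀.re / 2 with hδ
  have hδ0 : 0 < δ := by positivity
  have hnhds : Metric.ball s₀ δ ∈ 𝓝 s₀ := Metric.ball_mem_nhds _ hδ0
  have hre : ∀ s ∈ Metric.ball s₀ δ, δ < s.re := by
    intro s hs
    rw [mem_ball_iff_norm] at hs
    have h1 := (abs_le.1 (Complex.abs_re_le_norm (s - s₀))).1
    rw [Complex.sub_re] at h1
    linarith
  have hint : Integrable (fun z => b z * ((sq z : ℝ) : ℂ) ^ s₀) dA := by
    apply int_bdd (hm.mul (cpow_meas s₀).aestronglyMeasurable) (C := C)
    filter_upwards [hC, ae_sq] with z h1 h2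
    rw [Pi.mul_apply, norm_mul, Complex.norm_cpow_eq_rpow_re_of_pos h2.1]
    have h3 : sq z ^ s₀.re ≤ 1 := Real.rpow_le_one h2.1.le h2.2 hs₀.le
    calc ‖b z‖ * sq z ^ s₀.re ≤ C * 1 :=
          mul_le_mul h1 h3 (Real.rpow_nonneg h2.1.le _) ((norm_nonneg _).trans h1)
      _ = C := mul_one C
  have := hasDerivAt_integral_of_dominated_loc_of_deriv_le (μ := dA)
    (F := fun (s : ℂ) z => b z * ((sq z : ℝ) : ℂ) ^ s)
    (F' := fun (s : ℂ) z => b z * (((sq z : ℝ) : ℂ) ^ s * Complex.log ((sq z : ℝ) : ℂ)))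
    (x₀ := s₀) (bound := fun _ => C * (1 / δ)) hnhds
    (Eventually.of_forall fun s => hm.mul (cpow_meas s).aestronglyMeasurable) hint
    (hm.mul (((cpow_meas s₀).mul
      (Complex.measurable_log.comp (Complex.measurable_ofReal.comp sq_meas))).aestronglyMeasurable))
    (by
      filter_upwards [hC, ae_sq] with z h1 h2 s hs
      rw [norm_mul, norm_mul, Complex.norm_cpow_eq_rpow_re_of_pos h2.1]
      have h3 : ‖Complex.log ((sq z : ℝ) : ℂ)‖ = |Real.log (sq z)| := by
        rw [← Complex.ofReal_log h2.1.le, Complex.norm_real, Real.norm_eq_abs]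
      rw [h3]
      have h4 : sq z ^ s.re * |Real.log (sq z)| ≤ 1 / δ := by
        have h5 := Real.abs_log_mul_self_rpow_lt (sq z) δ h2.1 h2.2 hδ0
        rw [abs_mul, abs_of_nonneg (Real.rpow_nonneg h2.1.le _)] at h5
        have h6 : sq z ^ s.re ≤ sq z ^ δ :=
          Real.rpow_le_rpow_of_exponent_ge h2.1 h2.2 (hre s hs).le
        calc sq z ^ s.re * |Real.log (sq z)| ≤ sq z ^ δ * |Real.log (sq z)| :=
              mul_le_mul_of_nonneg_right h6 (abs_nonneg _)
          _ = |Real.log (sq z)| * sq z ^ δ := mul_comm _ _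
          _ ≤ 1 / δ := h5.le
      exact mul_le_mul h1 h4 (mul_nonneg (Real.rpow_nonneg h2.1.le _) (abs_nonneg _))
        ((norm_nonneg _).trans h1))
    (integrable_const _)
    (by
      filter_upwards [ae_sq] with z h2 s hs
      have h3 : ((sq z : ℝ) : ℂ) ≠ 0 := by
        rw [Ne, Complex.ofReal_eq_zero]; exact h2.1.ne'
      have h4 := (hasDerivAt_id s).const_cpow (c := ((sq z : ℝ) : ℂ)) (Or.inl h3)
      simpa using h4.const_mul (b z))
  exact this.2.differentiableAt

lemma Mo_real (b : ℂ → ℂ) (x : ℝ) : Mo b x = ∫ z, b z * ((sq z ^ x : ℝ) : ℂ) ∂dA := by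
  unfold Mo
  congr 1; funext z
  rw [Complex.ofReal_cpow (sq_nonneg' z)]

/-- identity theorem on the half plane -/
lemma ident {F : ℂ → ℂ} (hF : DifferentiableOn ℂ F {s : ℂ | 0 < s.re}) {x₁ : ℝ} (hx₁ : 0 < x₁)
    (h : ∀ᶠ x : ℝ in 𝓝 x₁, F x = 0) : ∀ s : ℂ, 0 < s.re → F s = 0 := by
  have hopen : IsOpen {s : ℂ | 0 < s.re} := isOpen_lt continuous_const Complex.continuous_re
  have han : AnalyticOnNhd ℂ F {s : ℂ | 0 < s.re} := hF.analyticOnNhd hopen
  have hconn : IsPreconnected {s : ℂ | 0 < s.re} :=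
    (convex_halfSpace_re_gt 0).isPreconnected
  have hfreq : ∃ᶠ z in 𝓝[≠] ((x₁ : ℝ) : ℂ), F z = 0 := by
    have h1 : Tendsto (fun x : ℝ => (x : ℂ)) (𝓝[≠] x₁) (𝓝[≠] (x₁ : ℂ)) := by
      apply tendsto_nhdsWithin_of_tendsto_nhds_of_eventually_within
      · exact (Complex.continuous_ofReal.tendsto x₁).mono_left nhdsWithin_le_nhds
      · filter_upwards [self_mem_nhdsWithin] with x hx
        simpa using hx
    apply h1.frequently
    exact (h.filter_mono nhdsWithin_le_nhds).frequently
  intro s hs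
  exact han.eqOn_zero_of_preconnected_of_frequently_eq_zero hconn
    (show (x₁ : ℂ) ∈ {s : ℂ | 0 < s.re} by simpa using hx₁) hfreq hs

/-- moments determine all real powers -/
lemma moment_ext {Ω : Type*} [MeasurableSpace Ω] {P : Measure Ω} {W : Ω → ℂ}
    (hW : Integrable W P) {s : Ω → ℝ} (hs : Measurable s) (h01 : ∀ᵐ w ∂P, 0 ≤ s w ∧ s w ≤ 1)
    (h : ∀ l : ℕ, ∫ w, W w * ((s w : ℝ) : ℂ) ^ l ∂P = 0) {x : ℝ} (hx : 0 < x) :
    ∫ w, W w * ((s w ^ x : ℝ) : ℂ) ∂P = 0 := by
  have hpoly : ∀ p : Polynomial ℝ, ∫ w, W w * ((p.eval (s w) : ℝ) : ℂ) ∂P = 0 := by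
    intro p
    have hi : ∀ l : ℕ, Integrable (fun w => W w * ((s w : ℝ) : ℂ) ^ l) P := by
      intro l
      apply hW.mul_bdd (c := 1)
      · exact ((Complex.measurable_ofReal.comp hs).pow_const l).aestronglyMeasurable
      · filter_upwards [h01] with w hw
        rw [norm_pow, Complex.norm_real, Real.norm_of_nonneg hw.1]
        exact pow_le_one₀ hw.1 hw.2
    have e : (fun w => W w * ((p.eval (s w) : ℝ) : ℂ))
        = fun w => ∑ l ∈ Finset.range (p.natDegree + 1),
            ((p.coeff l : ℝ) : ℂ) * (W w * ((s w : ℝ) : ℂ) ^ l) := by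
      funext w
      rw [Polynomial.eval_eq_sum_range]
      push_cast
      rw [Finset.mul_sum]
      apply Finset.sum_congr rfl
      intro l _
      ring
    rw [e, integral_finsetSum _ (fun l _ => (hi l).const_mul _)]
    apply Finset.sum_eq_zero
    intro l _
    rw [integral_const_mul, h l, mul_zero]
  have hbound : ∀ ε : ℝ, 0 < ε → ‖∫ w, W w * ((s w ^ x : ℝ) : ℂ) ∂P‖ ≤ (∫ w, ‖W w‖ ∂P) * ε := by
    intro ε hε
    obtain ⟨p, hp⟩ := exists_polynomial_near_of_continuousOn 0 1 (fun t => t ^ x)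
      (Real.continuous_rpow_const hx.le).continuousOn ε hε
    have hi1 : Integrable (fun w => W w * ((s w ^ x : ℝ) : ℂ)) P := by
      apply hW.mul_bdd (c := 1)
      · exact (Complex.measurable_ofReal.comp (hs.pow_const x)).aestronglyMeasurable
      · filter_upwards [h01] with w hw
        rw [Complex.norm_real, Real.norm_of_nonneg (Real.rpow_nonneg hw.1 _)]
        exact Real.rpow_le_one hw.1 hw.2 hx.le
    have hi2 : Integrable (fun w => W w * ((p.eval (s w) : ℝ) : ℂ)) P := by
      apply hW.mul_bdd (c := 1 + ε)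
      · exact (Complex.measurable_ofReal.comp (p.continuous.measurable.comp hs)).aestronglyMeasurable
      · filter_upwards [h01] with w hw
        rw [Complex.norm_real, Real.norm_eq_abs]
        have h1 := abs_lt.1 (hp (s w) ⟨hw.1, hw.2⟩)
        have h2 := Real.rpow_le_one hw.1 hw.2 hx.le
        have h3 := Real.rpow_nonneg hw.1 x
        rw [abs_le]
        constructor <;> linarith
    have e : ∫ w, W w * ((s w ^ x : ℝ) : ℂ) ∂P
        = ∫ w, W w * (((s w ^ x : ℝ) : ℂ) - ((p.eval (s w) : ℝ) : ℂ)) ∂P := by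
      rw [← sub_zero (∫ w, W w * ((s w ^ x : ℝ) : ℂ) ∂P), ← hpoly p, ← integral_sub hi1 hi2]
      congr 1; funext w; ring
    rw [e]
    refine (norm_integral_le_integral_norm _).trans ?_
    rw [← integral_mul_const]
    apply integral_mono_of_nonneg (Eventually.of_forall fun w => norm_nonneg _)
      (hW.norm.mul_const _)
    filter_upwards [h01] with w hw
    rw [norm_mul]
    apply mul_le_mul_of_nonneg_left _ (norm_nonneg _)
    rw [← Complex.ofReal_sub, Complex.norm_real, Real.norm_eq_abs, abs_sub_comm]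
    exact (hp (s w) ⟨hw.1, hw.2⟩).le
  have hle : ‖∫ w, W w * ((s w ^ x : ℝ) : ℂ) ∂P‖ ≤ 0 := by
    apply le_of_forall_pos_le_add
    intro ε hε
    have hI : 0 ≤ ∫ w, ‖W w‖ ∂P := integral_nonneg fun _ => norm_nonneg _
    have h1 := hbound (ε / ((∫ w, ‖W w‖ ∂P) + 1)) (by positivity)
    refine h1.trans ?_
    rw [zero_add, mul_div_assoc', div_le_iff₀ (by positivity)]
    nlinarith
  exact norm_le_zero_iff.1 hle

/-- the Hankel determinant of the moments -/
noncomputable def Dn (n : ℕ) (b : ℂ → ℂ) (s : ℂ) : ℂ :=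
  (Matrix.of fun (p q : Fin n) => Mo b (s + (p : ℕ) + (q : ℕ))).det

lemma Dn_diff {b : ℂ → ℂ} (hm : AEStronglyMeasurable b dA) {C : ℝ}
    (hC : ∀ᵐ z ∂dA, ‖b z‖ ≤ C) (n : ℕ) : DifferentiableOn ℂ (Dn n b) {s : ℂ | 0 < s.re} := by
  have hMo := Mo_diff hm hC
  unfold Dn
  simp only [Matrix.det_apply, Matrix.of_apply]
  have hfac : ∀ p q : Fin n, DifferentiableOn ℂ (fun s : ℂ => Mo b (s + (p : ℕ) + (q : ℕ)))
      {s : ℂ | 0 < s.re} := by
    intro p q
    apply hMo.comp
    · fun_prop
    · intro s hs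
      simp only [Set.mem_ofPred_eq, Complex.add_re, Complex.natCast_re] at hs ⊢
      positivity
  apply DifferentiableOn.fun_sum
  intro σ _
  apply DifferentiableOn.const_smul
  apply DifferentiableOn.fun_finsetProd
  intro i _
  exact hfac _ _

lemma Mo_shift {b : ℂ → ℂ} (k : ℕ) (x : ℝ) :
    Mo b ((x : ℂ) + k) = ∫ z, b z * ((sq z : ℝ) : ℂ) ^ k * ((sq z ^ x : ℝ) : ℂ) ∂dA := by
  unfold Mo
  apply integral_congr_ae
  filter_upwards [ae_sq] with z hz
  have h3 : ((sq z : ℝ) : ℂ) ≠ 0 := by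
    rw [Ne, Complex.ofReal_eq_zero]; exact hz.1.ne'
  rw [Complex.cpow_add _ _ h3, Complex.cpow_natCast, Complex.ofReal_cpow hz.1.le]
  ring

/-- the product of the determinant with a moment function is a moment function -/
lemma prod_moment {a b : ℂ → ℂ} (ha : AEStronglyMeasurable a dA) {A : ℝ}
    (hA : ∀ᵐ z ∂dA, ‖a z‖ ≤ A) (hb : AEStronglyMeasurable b dA) {B : ℝ}
    (hB : ∀ᵐ z ∂dA, ‖b z‖ ≤ B) (n : ℕ) (h : ∀ k : ℕ, Dn n b k * Mo a k = 0) {x : ℝ} (hx : 0 < x) :
    Dn n b x * Mo a x = 0 := by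
  classical
  -- factor functions
  let F : Equiv.Perm (Fin n) → Fin (n + 1) → ℂ → ℂ := fun σ i z =>
    Fin.lastCases (motive := fun _ => ℂ) (a z)
      (fun p : Fin n => b z * ((sq z : ℝ) : ℂ) ^ ((σ p : ℕ) + (p : ℕ))) i
  let P : Measure (Fin (n + 1) → ℂ) := Measure.pi (fun _ => dA)
  let W : (Fin (n + 1) → ℂ) → ℂ := fun w => ∑ σ : Equiv.Perm (Fin n),
    (((Equiv.Perm.sign σ : ℤ) : ℂ)) * ∏ i, F σ i (w i)
  let s : (Fin (n + 1) → ℂ) → ℝ := fun w => ∏ i, sq (w i)
  have hFint : ∀ σ i, Integrable (F σ i) dA := by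
    intro σ i
    refine Fin.lastCases ?_ (fun p => ?_) i
    · simp only [F, Fin.lastCases_last]
      exact int_bdd ha hA
    · simp only [F, Fin.lastCases_castSucc]
      apply int_bdd (C := B) (hb.mul
        ((Complex.measurable_ofReal.comp sq_meas).pow_const _).aestronglyMeasurable)
      filter_upwards [hB, ae_sq] with z h1 h2
      rw [Pi.mul_apply, norm_mul, norm_pow, Function.comp_apply, Complex.norm_real,
        Real.norm_of_nonneg h2.1.le]
      have h3 := pow_le_one₀ (n := (σ p : ℕ) + (p : ℕ)) h2.1.le h2.2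
      calc ‖b z‖ * sq z ^ ((σ p : ℕ) + (p : ℕ)) ≤ B * 1 :=
            mul_le_mul h1 h3 (by have := h2.1; positivity) ((norm_nonneg _).trans h1)
        _ = B := mul_one B
  have hPint : ∀ σ, Integrable (fun w : Fin (n + 1) → ℂ => ∏ i, F σ i (w i)) P := by
    intro σ
    exact Integrable.fintype_prod (f := fun i => F σ i) (fun i => hFint σ i)
  have hWint : Integrable W P := by
    apply integrable_finsetSum
    intro σ _
    exact (hPint σ).const_mul _
  have hs : Measurable s := by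
    apply Finset.measurable_prod
    intro i _
    exact sq_meas.comp (measurable_pi_apply i)
  have h01 : ∀ᵐ w ∂P, 0 ≤ s w ∧ s w ≤ 1 := by
    have : ∀ᵐ w ∂P, ∀ i, 0 < sq (w i) ∧ sq (w i) ≤ 1 := by
      rw [ae_all_iff]
      intro i
      exact (Measure.quasiMeasurePreserving_eval (fun _ => dA) i).ae ae_sq
    filter_upwards [this] with w hw
    constructor
    · exact Finset.prod_nonneg fun i _ => (hw i).1.le
    · exact Finset.prod_le_one (fun i _ => (hw i).1.le) (fun i _ => (hw i).2)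
  -- the key formula
  have key : ∀ y : ℝ, 0 ≤ y → Dn n b y * Mo a y = ∫ w, W w * ((s w ^ y : ℝ) : ℂ) ∂P := by
    intro y hy
    have e1 : ∀ σ : Equiv.Perm (Fin n), (∏ p : Fin n, Mo b ((y : ℂ) + (σ p : ℕ) + (p : ℕ))) * Mo a y
        = ∫ w, (∏ i, F σ i (w i)) * ((s w ^ y : ℝ) : ℂ) ∂P := by
      intro σ
      have e2 : (fun w : Fin (n + 1) → ℂ => (∏ i, F σ i (w i)) * ((s w ^ y : ℝ) : ℂ))
          = fun w => ∏ i, (F σ i (w i) * ((sq (w i) ^ y : ℝ) : ℂ)) := by
        funext w
        rw [Finset.prod_mul_distrib]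
        congr 1
        simp only [s]
        rw [← Real.finsetProd_rpow _ _ (fun i _ => sq_nonneg' _)]
        push_cast
        rfl
      rw [e2]
      have e3 := integral_fintype_prod_eq_prod (𝕜 := ℂ) (μ := fun _ : Fin (n + 1) => dA)
        (fun i z => F σ i z * ((sq z ^ y : ℝ) : ℂ))
      simp only [P]
      rw [e3, Fin.prod_univ_castSucc]
      congr 1
      · apply Finset.prod_congr rfl
        intro p _
        simp only [F, Fin.lastCases_castSucc]
        rw [← Mo_shift]
        congr 1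
        push_cast
        ring
      · simp only [F, Fin.lastCases_last]
        exact Mo_real a y
    have hIσ : ∀ σ, Integrable (fun w => (∏ i, F σ i (w i)) * ((s w ^ y : ℝ) : ℂ)) P := by
      intro σ
      apply (hPint σ).mul_bdd (c := 1)
      · exact (Complex.measurable_ofReal.comp (hs.pow_const y)).aestronglyMeasurable
      · filter_upwards [h01] with w hw
        rw [Complex.norm_real, Real.norm_of_nonneg (Real.rpow_nonneg hw.1 _)]
        exact Real.rpow_le_one hw.1 hw.2 hy
    have e4 : (fun w => W w * ((s w ^ y : ℝ) : ℂ)) = fun w => ∑ σ : Equiv.Perm (Fin n),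
        ((Equiv.Perm.sign σ : ℤ) : ℂ) * ((∏ i, F σ i (w i)) * ((s w ^ y : ℝ) : ℂ)) := by
      funext w
      simp only [W, Finset.sum_mul, mul_assoc]
    rw [e4, integral_finsetSum _ (fun σ _ => (hIσ σ).const_mul _)]
    simp_rw [integral_const_mul, ← e1]
    unfold Dn
    rw [Matrix.det_apply', Finset.sum_mul]
    apply Finset.sum_congr rfl
    intro σ _
    rw [mul_assoc]
    rfl
  rw [key x hx.le]
  apply moment_ext hWint hs h01 _ hx
  intro l
  have h1 := key (l : ℝ) (by positivity)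
  have h2 := h l
  rw [show ((l : ℝ) : ℂ) = (l : ℂ) by push_cast; rfl, h2] at h1
  rw [h1]
  congr 1; funext w
  rw [Real.rpow_natCast]
  push_cast
  rfl

/-- linear algebra: a Hankel kernel vector which is the same for all shifts -/
lemma hankel_kernel (m : ℕ → ℂ) (k : ℕ)
    (h1 : ∀ j : ℕ, (Matrix.of fun (p q : Fin (k + 1)) => m (j + p + q)).det = 0)
    (h0 : ∀ j : ℕ, (Matrix.of fun (p q : Fin k) => m (j + p + q)).det ≠ 0) :
    ∃ c : Fin (k + 1) → ℂ, c (Fin.last k) = 1 ∧ ∀ j : ℕ, ∑ q : Fin (k + 1), m (j + q) * c q = 0 := by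
  have hex : ∀ j : ℕ, ∃ c : Fin (k + 1) → ℂ, c (Fin.last k) = 1 ∧
      ∀ p : Fin (k + 1), ∑ q : Fin (k + 1), m (j + p + q) * c q = 0 := by
    intro j
    obtain ⟨v, hv, hv2⟩ := Matrix.exists_mulVec_eq_zero_iff.2 (h1 j)
    have hv3 : ∀ p : Fin (k + 1), ∑ q : Fin (k + 1), m (j + p + q) * v q = 0 := by
      intro p
      have := congrFun hv2 p
      simpa [Matrix.mulVec, dotProduct] using this
    have hlast : v (Fin.last k) ≠ 0 := by
      intro hl
      apply h0 j
      apply Matrix.exists_mulVec_eq_zero_iff.1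
      refine ⟨fun q => v q.castSucc, ?_, ?_⟩
      · intro hz
        apply hv
        funext q
        refine Fin.lastCases ?_ (fun q => ?_) q
        · exact hl
        · exact congrFun hz q
      · funext p
        have h := hv3 p.castSucc
        rw [Fin.sum_univ_castSucc, hl, mul_zero, add_zero] at h
        simpa [Matrix.mulVec, dotProduct] using h
    refine ⟨fun q => v q / v (Fin.last k), div_self hlast, fun p => ?_⟩
    have : ∑ q : Fin (k + 1), m (j + p + q) * (v q / v (Fin.last k))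
        = (∑ q : Fin (k + 1), m (j + p + q) * v q) / v (Fin.last k) := by
      rw [Finset.sum_div]
      apply Finset.sum_congr rfl
      intro q _
      ring
    rw [this, hv3 p, zero_div]
  choose c hc1 hc2 using hex
  have hstep : ∀ j, c (j + 1) = c j := by
    intro j
    by_contra hne
    apply h0 (j + 1)
    apply Matrix.exists_mulVec_eq_zero_iff.1
    refine ⟨fun q => c (j + 1) q.castSucc - c j q.castSucc, ?_, ?_⟩
    · intro hz
      apply hne
      funext q
      refine Fin.lastCases ?_ (fun q => ?_) q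
      · rw [hc1, hc1]
      · exact sub_eq_zero.1 (congrFun hz q)
    · funext p
      have e1 := hc2 (j + 1) p.castSucc
      have e2 := hc2 j p.succ
      rw [Fin.sum_univ_castSucc, hc1, mul_one] at e1 e2
      have e3 : ∀ q : ℕ, j + (p.succ : ℕ) + q = j + 1 + (p.castSucc : ℕ) + q := by
        intro q; simp; ring
      simp only [e3] at e2
      simp only [Matrix.mulVec, dotProduct, Matrix.of_apply, Pi.zero_apply]
      have e4 : ∑ q : Fin k, m (j + 1 + (p : ℕ) + (q : ℕ)) * (c (j + 1) q.castSucc - c j q.castSucc)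
          = ∑ q : Fin k, m (j + 1 + (p.castSucc : ℕ) + (q.castSucc : ℕ)) * c (j + 1) q.castSucc
            - ∑ q : Fin k, m (j + 1 + (p.castSucc : ℕ) + (q.castSucc : ℕ)) * c j q.castSucc := by
        rw [← Finset.sum_sub_distrib]
        apply Finset.sum_congr rfl
        intro q _
        simp only [Fin.val_castSucc]
        ring
      rw [e4]
      linear_combination e1 - e2
  have hconst : ∀ j, c j = c 0 := by
    intro j
    induction j with
    | zero => rfl
    | succ j ih => rw [hstep, ih]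
  refine ⟨c 0, hc1 0, fun j => ?_⟩
  have := hc2 j 0
  rw [hconst j] at this
  simpa using this

/-- a nonzero analytic function on the half plane has a real point all of whose integer
translates are not zeros -/
lemma exists_good_point {F : ℂ → ℂ} (hF : DifferentiableOn ℂ F {s : ℂ | 0 < s.re})
    {x₁ : ℝ} (hx₁ : 0 < x₁) (hne : F x₁ ≠ 0) :
    ∃ x₀ : ℝ, 0 < x₀ ∧ ∀ j : ℕ, F ((x₀ + j : ℝ) : ℂ) ≠ 0 := by
  have hcont : ∀ x : ℝ, 0 < x → ContinuousAt (fun y : ℝ => F (y : ℂ)) x := by
    intro x hx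
    have h1 : ContinuousAt F (x : ℂ) := by
      apply (hF.differentiableAt _).continuousAt
      exact (isOpen_lt continuous_const Complex.continuous_re).mem_nhds (by simpa using hx)
    exact ContinuousAt.comp h1 Complex.continuous_ofReal.continuousAt
  let V : ℕ → Set ℝ := fun j => {x | x < 1} ∪ {x | 0 < x ∧ F ((x + j : ℝ) : ℂ) ≠ 0}
  have hopen : ∀ j, IsOpen (V j) := by
    intro j
    apply IsOpen.union (isOpen_lt continuous_id continuous_const)
    rw [isOpen_iff_mem_nhds]
    rintro x ⟨hx, hFx⟩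
    have h1 : ContinuousAt (fun y : ℝ => F ((y + j : ℝ) : ℂ)) x := by
      have h2 : ContinuousAt (fun y : ℝ => y + j) x := by fun_prop
      exact ContinuousAt.comp (f := fun y : ℝ => y + j) (g := fun y : ℝ => F (y : ℂ))
        (hcont (x + j) (by positivity)) h2
    filter_upwards [lt_mem_nhds hx, h1.eventually_ne hFx] with y hy1 hy2
    exact ⟨hy1, hy2⟩
  have hdense : ∀ j, Dense (V j) := by
    intro j
    rw [dense_iff_inter_open]
    rintro U hU ⟨x, hx⟩
    by_contra hemp
    rw [Set.not_nonempty_iff_eq_empty] at hemp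
    have hxge : 1 ≤ x := by
      by_contra hlt
      push Not at hlt
      have : x ∈ U ∩ V j := ⟨hx, Or.inl hlt⟩
      rw [hemp] at this
      exact this
    have hev : ∀ᶠ y : ℝ in 𝓝 x, F ((y + j : ℝ) : ℂ) = 0 := by
      filter_upwards [hU.mem_nhds hx, lt_mem_nhds (show (0:ℝ) < x by linarith)] with y hy1 hy2
      by_contra hne'
      have : y ∈ U ∩ V j := ⟨hy1, Or.inr ⟨hy2, hne'⟩⟩
      rw [hemp] at this
      exact this
    have hev2 : ∀ᶠ y : ℝ in 𝓝 (x + j), F (y : ℂ) = 0 := by
      have h1 : Tendsto (fun y : ℝ => y - j) (𝓝 (x + j)) (𝓝 x) := by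
        have : Continuous (fun y : ℝ => y - j) := by fun_prop
        have := this.tendsto (x + j)
        simpa using this
      filter_upwards [h1.eventually hev] with y hy
      simpa using hy
    exact hne (ident hF (x₁ := x + j) (by positivity) hev2 x₁ (by simpa using hx₁))
  have hd := dense_iInter_of_isOpen hopen hdense
  obtain ⟨x₀, hx₀, hx₀'⟩ := hd.exists_between (show (1:ℝ) < 2 by norm_num)
  refine ⟨x₀, by linarith [hx₀'.1], fun j => ?_⟩
  have := Set.mem_iInter.1 hx₀ j
  rcases this with h | h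
  · exact absurd h (not_lt.2 hx₀'.1.le)
  · exact h.2

lemma ae_sq_ne (ρ : ℂ) : ∀ᵐ z ∂dA, ((sq z : ℝ) : ℂ) ≠ ρ := by
  rw [ae_dA]
  apply ae_restrict_of_ae
  have h : (volume : Measure ℂ) (Metric.sphere 0 (Real.sqrt ρ.re)) = 0 :=
    Measure.addHaar_sphere _ _ _
  filter_upwards [measure_eq_zero_iff_ae_notMem.1 h] with z hz heq
  apply hz
  rw [mem_sphere_zero_iff_norm, ← heq, Complex.ofReal_re]
  unfold sq
  rw [Real.sqrt_sq (norm_nonneg _)]

lemma poly_ne {k : ℕ} {c : Fin (k + 1) → ℂ} (hc : c (Fin.last k) = 1) :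
    ∀ᵐ z ∂dA, ∑ q : Fin (k + 1), c q * ((sq z : ℝ) : ℂ) ^ (q : ℕ) ≠ 0 := by
  classical
  let p : Polynomial ℂ := ∑ q : Fin (k + 1), Polynomial.C (c q) * Polynomial.X ^ (q : ℕ)
  have hp : p ≠ 0 := by
    intro h0
    have h1 : p.coeff k = 1 := by
      simp only [p, Polynomial.finsetSum_coeff, Polynomial.coeff_C_mul, Polynomial.coeff_X_pow]
      rw [Finset.sum_eq_single (Fin.last k)]
      · simp [hc]
      · intro q _ hq
        have : k ≠ (q : ℕ) := by
          intro h2
          apply hq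
          ext
          simp [← h2]
        simp [this]
      · intro h2
        exact absurd (Finset.mem_univ _) h2
    rw [h0] at h1
    simp at h1
  have h2 : ∀ᵐ z ∂dA, ∀ ρ ∈ p.roots.toFinset, ((sq z : ℝ) : ℂ) ≠ ρ := by
    rw [Finset.eventually_all]
    intro ρ _
    exact ae_sq_ne ρ
  filter_upwards [h2] with z hz heq
  apply hz ((sq z : ℝ) : ℂ) _ rfl
  rw [Multiset.mem_toFinset, Polynomial.mem_roots hp, Polynomial.IsRoot]
  simp only [p, Polynomial.eval_finsetSum, Polynomial.eval_mul, Polynomial.eval_C,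
    Polynomial.eval_pow, Polynomial.eval_X]
  exact heq

/-- if the Hankel determinant of a radial bounded function vanishes then the function does -/
lemma radial_det {b : ℂ → ℂ} (hb : AEStronglyMeasurable b dA) {B : ℝ}
    (hB : ∀ᵐ z ∂dA, ‖b z‖ ≤ B) {φ : ℝ → ℂ} (hφ : ∀ᵐ z ∂dA, b z = φ ‖z‖) (n : ℕ)
    (h : ∀ x : ℝ, 0 < x → Dn n b x = 0) : ∀ᵐ z ∂dA, b z = 0 := by
  induction n with
  | zero =>
    have := h 1 one_pos
    simp [Dn] at this
  | succ k ih =>
    by_cases hk : ∀ x : ℝ, 0 < x → Dn k b x = 0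
    · exact ih hk
    · push Not at hk
      obtain ⟨x₁, hx₁, hne⟩ := hk
      obtain ⟨x₀, hx₀, hgood⟩ := exists_good_point (Dn_diff hb hB k) hx₁ hne
      let m : ℕ → ℂ := fun j => Mo b ((x₀ : ℂ) + j)
      obtain ⟨c, hc1, hc2⟩ := hankel_kernel m k
        (by
          intro j
          have := h (x₀ + j) (by positivity)
          unfold Dn at this
          rw [← this]
          congr 1
          ext p q
          simp only [Matrix.of_apply, m]
          congr 1
          push_cast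
          ring)
        (by
          intro j
          have := hgood j
          unfold Dn at this
          convert this using 2
          ext p q
          simp only [Matrix.of_apply, m]
          congr 1
          push_cast
          ring)
      -- the function `W`
      let R : ℂ → ℂ := fun z => ∑ q : Fin (k + 1), c q * ((sq z : ℝ) : ℂ) ^ (q : ℕ)
      let W : ℂ → ℂ := fun z => b z * ((sq z ^ x₀ : ℝ) : ℂ) * R z
      have hRm : Measurable R := by
        refine Finset.measurable_fun_sum (s := Finset.univ)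
          (f := fun (q : Fin (k + 1)) (z : ℂ) => c q * ((sq z : ℝ) : ℂ) ^ (q : ℕ)) (fun q _ => ?_)
        exact ((Complex.measurable_ofReal.comp sq_meas).pow_const _).const_mul _
      have hWm : AEStronglyMeasurable W dA := by
        apply (hb.mul _).mul hRm.aestronglyMeasurable
        exact (Complex.measurable_ofReal.comp (sq_meas.pow_const x₀)).aestronglyMeasurable
      have hRb : ∀ᵐ z ∂dA, ‖R z‖ ≤ ∑ q, ‖c q‖ := by
        filter_upwards [ae_sq] with z hz
        refine (norm_sum_le _ _).trans (Finset.sum_le_sum fun q _ => ?_)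
        rw [norm_mul, norm_pow, Complex.norm_real, Real.norm_of_nonneg hz.1.le]
        have := pow_le_one₀ (n := (q : ℕ)) hz.1.le hz.2
        calc _ ≤ ‖c q‖ * 1 := mul_le_mul_of_nonneg_left this (norm_nonneg _)
          _ = ‖c q‖ := mul_one _
      have hWb : ∀ᵐ z ∂dA, ‖W z‖ ≤ B * (∑ q, ‖c q‖) := by
        filter_upwards [ae_sq, hRb, hB] with z hz h2 h3
        simp only [W]
        rw [norm_mul, norm_mul, Complex.norm_real, Real.norm_of_nonneg (Real.rpow_nonneg hz.1.le _)]
        have h4 := Real.rpow_le_one hz.1.le hz.2 hx₀.le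
        have h5 : ‖b z‖ * sq z ^ x₀ ≤ B := by
          calc _ ≤ B * 1 := mul_le_mul h3 h4 (Real.rpow_nonneg hz.1.le _) ((norm_nonneg _).trans h3)
            _ = B := mul_one B
        exact mul_le_mul h5 h2 (norm_nonneg _) ((norm_nonneg _).trans h3)
      have hW0 : ∀ᵐ z ∂dA, W z = 0 := by
        apply ae_zero_of_radial hWm hWb (φ := fun r => φ r * (((r ^ 2) ^ x₀ : ℝ) : ℂ) *
          ∑ q : Fin (k + 1), c q * (((r ^ 2 : ℝ)) : ℂ) ^ (q : ℕ))
        · filter_upwards [hφ] with z hz
          simp only [W, R, hz, sq]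
        · intro j
          have h1 := hc2 j
          have e : (fun z => W z * (((‖z‖ ^ 2 : ℝ)) : ℂ) ^ j) = fun z => ∑ q : Fin (k + 1),
              c q * (b z * ((sq z : ℝ) : ℂ) ^ (j + (q : ℕ)) * ((sq z ^ x₀ : ℝ) : ℂ)) := by
            funext z
            simp only [W, R]
            rw [Finset.mul_sum, Finset.sum_mul]
            apply Finset.sum_congr rfl
            intro q _
            unfold sq
            ring
          have hi : ∀ q : Fin (k + 1), Integrable
              (fun z => b z * ((sq z : ℝ) : ℂ) ^ (j + (q : ℕ)) * ((sq z ^ x₀ : ℝ) : ℂ)) dA := by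
            intro q
            apply int_bdd (C := B)
            · exact (hb.mul ((Complex.measurable_ofReal.comp sq_meas).pow_const
                _).aestronglyMeasurable).mul
                (Complex.measurable_ofReal.comp (sq_meas.pow_const x₀)).aestronglyMeasurable
            · filter_upwards [ae_sq, hB] with z hz h3
              rw [norm_mul, norm_mul, norm_pow, Complex.norm_real, Complex.norm_real,
                Real.norm_of_nonneg hz.1.le, Real.norm_of_nonneg (Real.rpow_nonneg hz.1.le _)]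
              have h4 := Real.rpow_le_one hz.1.le hz.2 hx₀.le
              have h5 := pow_le_one₀ (n := j + (q : ℕ)) hz.1.le hz.2
              have h6 : 0 ≤ B := (norm_nonneg _).trans h3
              have h7 : ‖b z‖ * sq z ^ (j + (q : ℕ)) ≤ B * 1 :=
                mul_le_mul h3 h5 (by have := hz.1; positivity) h6
              calc _ ≤ (B * 1) * 1 := mul_le_mul h7 h4 (Real.rpow_nonneg hz.1.le _) (by linarith)
                _ = B := by ring
          rw [e, integral_finsetSum _ (fun q _ => (hi q).const_mul _)]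
          simp_rw [integral_const_mul]
          rw [← h1]
          apply Finset.sum_congr rfl
          intro q _
          simp only [m]
          rw [mul_comm]
          congr 1
          rw [← Mo_shift (j + (q : ℕ)) x₀]
      -- `R` vanishes on a null set only
      have hRne : ∀ᵐ z ∂dA, R z ≠ 0 := poly_ne hc1
      filter_upwards [hW0, hRne, ae_sq] with z h1 h2 h3
      simp only [W] at h1
      have h4 : ((sq z ^ x₀ : ℝ) : ℂ) ≠ 0 := by
        rw [Ne, Complex.ofReal_eq_zero]
        exact (Real.rpow_pos_of_pos h3.1 _).ne'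
      rcases mul_eq_zero.1 h1 with h5 | h5
      · rcases mul_eq_zero.1 h5 with h6 | h6
        · exact h6
        · exact absurd h6 h4
      · exact absurd h5 h2

/-- the analytic core -/
lemma core {a b : ℂ → ℂ} (ha : AEStronglyMeasurable a dA) {A : ℝ}
    (hA : ∀ᵐ z ∂dA, ‖a z‖ ≤ A) (hb : AEStronglyMeasurable b dA) {B : ℝ}
    (hB : ∀ᵐ z ∂dA, ‖b z‖ ≤ B) {φ : ℝ → ℂ} (hφ : ∀ᵐ z ∂dA, b z = φ ‖z‖) (n : ℕ)
    (h : ∀ k : ℕ, Dn n b k * Mo a k = 0) :
    (∀ᵐ z ∂dA, b z = 0) ∨ ∀ x : ℝ, 0 < x → Mo a x = 0 := by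
  by_cases hD : ∀ x : ℝ, 0 < x → Dn n b x = 0
  · exact Or.inl (radial_det hb hB hφ n hD)
  · right
    push Not at hD
    obtain ⟨x₁, hx₁, hne⟩ := hD
    have hcont : ContinuousAt (fun y : ℝ => Dn n b (y : ℂ)) x₁ := by
      have h1 : ContinuousAt (Dn n b) (x₁ : ℂ) := by
        apply ((Dn_diff hb hB n).differentiableAt _).continuousAt
        exact (isOpen_lt continuous_const Complex.continuous_re).mem_nhds (by simpa using hx₁)
      exact ContinuousAt.comp (g := Dn n b) (f := fun y : ℝ => (y : ℂ)) h1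
        Complex.continuous_ofReal.continuousAt
    have hev : ∀ᶠ y : ℝ in 𝓝 x₁, Mo a y = 0 := by
      filter_upwards [hcont.eventually_ne hne, lt_mem_nhds hx₁] with y h1 h2
      rcases mul_eq_zero.1 (prod_moment ha hA hb hB n h h2) with h3 | h3
      · exact absurd h3 h1
      · exact h3
    intro x hx
    exact ident (Mo_diff ha hA) hx₁ hev x (by simpa using hx)

/-- only one Taylor coefficient contributes to a radial pairing -/
lemma radial_holo {H : ℂ → ℂ} (hH : DifferentiableOn ℂ H (Metric.ball 0 1)) {R : ℝ}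
    (hR0 : 0 ≤ R) (hR : R < 1) {φ : ℝ → ℂ} (hφm : Measurable φ) {C : ℝ} (hC : ∀ r, ‖φ r‖ ≤ C)
    (hsupp : ∀ r, R < r → φ r = 0) (m : ℕ) :
    ∫ z, φ ‖z‖ * (conj z ^ m * H z) ∂dA
      = ((m.factorial : ℂ)⁻¹ * iteratedDeriv m H 0) * ∫ z, φ ‖z‖ * ((sq z : ℝ) : ℂ) ^ m ∂dA := by
  set a : ℕ → ℂ := fun k => (k.factorial : ℂ)⁻¹ * iteratedDeriv k H 0 with ha
  have hC0 : 0 ≤ C := (norm_nonneg _).trans (hC 0)
  have hsum : ∀ z : ℂ, ‖z‖ < 1 → HasSum (fun k => a k * z ^ k) (H z) := by
    intro z hz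
    have := Complex.hasSum_taylorSeries_on_ball (c := 0) (r := 1) hH (z := z) (by simpa using hz)
    simp only [sub_zero, smul_eq_mul] at this
    have e : (fun k => a k * z ^ k)
        = fun k : ℕ => (k.factorial : ℂ)⁻¹ * (z ^ k * iteratedDeriv k H 0) := by
      funext k
      simp only [ha]
      ring
    rw [e]
    exact this
  have hsR : Summable (fun k => ‖a k‖ * R ^ k) := by
    have h1 := (hsum (R : ℂ) (by rwa [Complex.norm_real, Real.norm_of_nonneg hR0])).summable.norm
    simpa [norm_mul, norm_pow, Complex.norm_real, Real.norm_of_nonneg hR0, abs_of_nonneg hR0] using h1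
  let G : ℕ → ℂ → ℂ := fun k z => φ ‖z‖ * (conj z ^ m * (a k * z ^ k))
  have hGm : ∀ k, AEStronglyMeasurable (G k) dA := by
    intro k
    apply Measurable.aestronglyMeasurable
    have h1 : Measurable (fun z : ℂ => φ ‖z‖) := hφm.comp measurable_norm
    have h2 : Measurable (fun z : ℂ => conj z ^ m * (a k * z ^ k)) := by
      have : Continuous (fun z : ℂ => conj z ^ m * (a k * z ^ k)) := by fun_prop
      exact this.measurable
    exact h1.mul h2
  have hGb : ∀ k, ∀ᵐ z ∂dA, ‖G k z‖ ≤ C * (‖a k‖ * R ^ k) := by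
    intro k
    filter_upwards [ae_ball] with z hz
    simp only [G, norm_mul, norm_pow, RCLike.norm_conj]
    by_cases hzR : R < ‖z‖
    · rw [hsupp _ hzR, norm_zero, zero_mul]
      positivity
    · push Not at hzR
      have h1 : ‖z‖ ^ m ≤ 1 := pow_le_one₀ (norm_nonneg _) hz.le
      have h2 : ‖z‖ ^ k ≤ R ^ k := pow_le_pow_left₀ (norm_nonneg _) hzR k
      calc ‖φ ‖z‖‖ * (‖z‖ ^ m * (‖a k‖ * ‖z‖ ^ k)) ≤ C * (1 * (‖a k‖ * R ^ k)) := by
            gcongr
            exact hC _
        _ = _ := by ring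
  have hGi : ∀ k, Integrable (G k) dA := fun k => int_bdd (hGm k) (hGb k)
  have hsumG : Summable fun k => ∫ z, ‖G k z‖ ∂dA := by
    apply Summable.of_nonneg_of_le (fun k => integral_nonneg fun _ => norm_nonneg _) (fun k => ?_)
      ((hsR.mul_left C).mul_left (dA.real Set.univ))
    calc ∫ z, ‖G k z‖ ∂dA ≤ ∫ z, C * (‖a k‖ * R ^ k) ∂dA :=
          integral_mono_ae (hGi k).norm (integrable_const _) (hGb k)
      _ = _ := by rw [integral_const, smul_eq_mul]
  have hS := hasSum_integral_of_summable_integral_norm hGi hsumG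
  have e1 : ∫ z, (∑' k, G k z) ∂dA = ∫ z, φ ‖z‖ * (conj z ^ m * H z) ∂dA := by
    apply integral_congr_ae
    filter_upwards [ae_ball] with z hz
    exact (((hsum z hz).mul_left _).mul_left _).tsum_eq
  rw [e1] at hS
  have e2 : ∀ k, k ≠ m → ∫ z, G k z ∂dA = 0 := by
    intro k hk
    have h1 := integral_radial_zero φ hk
    have h2 : (fun z => G k z) = fun z => a k * (φ ‖z‖ * (z ^ k * conj z ^ m)) := by
      funext z
      simp only [G]; ring
    rw [h2, integral_const_mul, h1, mul_zero]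
  have h3 := (hasSum_single m e2).unique hS
  rw [← h3]
  have h4 : (fun z => G m z) = fun z => a m * (φ ‖z‖ * ((sq z : ℝ) : ℂ) ^ m) := by
    funext z
    simp only [G]
    have : ((sq z : ℝ) : ℂ) = z * conj z := by
      rw [Complex.mul_conj, Complex.normSq_eq_norm_sq]; rfl
    rw [this, mul_pow]
    ring
  rw [h4, integral_const_mul]

/-- orthogonality to all polyanalytic functions -/
lemma orth_poly {n : ℕ} {h : ℂ → ℂ} (hint : Integrable h dA) {H : Fin n → ℂ → ℂ}
    (hH : ∀ q, DifferentiableOn ℂ (H q) (Metric.ball 0 1))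
    (hh : ∀ᵐ z ∂dA, h z = ∑ q : Fin n, conj z ^ (q : ℕ) * H q z)
    {φ : ℝ → ℂ} (hφm : Measurable φ) {C : ℝ} (hC : ∀ r, ‖φ r‖ ≤ C) (l : ℕ)
    (hort : ∀ q : Fin n, ∫ z, φ ‖z‖ * ((sq z : ℝ) : ℂ) ^ (l + (q : ℕ)) ∂dA = 0) :
    ∫ z, φ ‖z‖ * (conj z ^ l * h z) ∂dA = 0 := by
  classical
  have hC0 : 0 ≤ C := (norm_nonneg _).trans (hC 0)
  -- radii
  let r : ℕ → ℝ := fun j => 1 - 1 / ((j : ℝ) + 2)
  have hr0 : ∀ j, 0 ≤ r j := by
    intro j
    have : 1 / ((j : ℝ) + 2) ≤ 1 := by
      rw [div_le_one (by positivity)]; have : (0:ℝ) ≤ j := by positivity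
      linarith
    simp only [r]; linarith
  have hr1 : ∀ j, r j < 1 := by
    intro j
    have : 0 < 1 / ((j : ℝ) + 2) := by positivity
    simp only [r]; linarith
  have hrlim : Tendsto r atTop (𝓝 1) := by
    have h1 : Tendsto (fun j : ℕ => 1 / ((j : ℝ) + 2)) atTop (𝓝 0) := by
      have := (tendsto_one_div_add_atTop_nhds_zero_nat (𝕜 := ℝ)).comp (tendsto_add_atTop_nat 1)
      refine this.congr (fun j => ?_)
      simp only [Function.comp_apply]
      push_cast
      ring_nf
    have := (tendsto_const_nhds (x := (1:ℝ))).sub h1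
    rw [sub_zero] at this
    exact this
  let ψ : ℕ → ℝ → ℂ := fun j t => if r j < t then 0 else φ t
  have hψm : ∀ j, Measurable (ψ j) := by
    intro j
    exact Measurable.ite (measurableSet_lt measurable_const measurable_id) measurable_const hφm
  have hψb : ∀ j t, ‖ψ j t‖ ≤ C := by
    intro j t
    simp only [ψ]
    split_ifs
    · simpa using hC0
    · exact hC t
  have hψlim : ∀ t, t < 1 → Tendsto (fun j => ψ j t) atTop (𝓝 (φ t)) := by
    intro t ht
    apply tendsto_const_nhds.congr'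
    filter_upwards [hrlim.eventually (lt_mem_nhds ht)] with j hj
    simp only [ψ]
    rw [if_neg (not_lt.2 hj.le)]
  -- limit of the left-hand sides
  have hL : Tendsto (fun j => ∫ z, ψ j ‖z‖ * (conj z ^ l * h z) ∂dA) atTop
      (𝓝 (∫ z, φ ‖z‖ * (conj z ^ l * h z) ∂dA)) := by
    apply tendsto_integral_of_dominated_convergence (fun z => C * ‖h z‖)
    · intro j
      apply AEStronglyMeasurable.mul
      · exact ((hψm j).comp measurable_norm).aestronglyMeasurable
      · apply AEStronglyMeasurable.mul _ hint.1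
        have : Continuous (fun z : ℂ => conj z ^ l) := by fun_prop
        exact this.aestronglyMeasurable
    · exact hint.norm.const_mul C
    · intro j
      filter_upwards [ae_ball] with z hz
      rw [norm_mul, norm_mul, norm_pow, RCLike.norm_conj]
      have h1 : ‖z‖ ^ l ≤ 1 := pow_le_one₀ (norm_nonneg _) hz.le
      calc ‖ψ j ‖z‖‖ * (‖z‖ ^ l * ‖h z‖) ≤ C * (1 * ‖h z‖) := by
            gcongr
            exact hψb _ _
        _ = C * ‖h z‖ := by ring
    · filter_upwards [ae_ball] with z hz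
      exact (hψlim _ hz).mul_const _
  -- limit of the right-hand sides
  have hRlim : ∀ q : Fin n, Tendsto (fun j => ∫ z, ψ j ‖z‖ * ((sq z : ℝ) : ℂ) ^ (l + (q : ℕ)) ∂dA)
      atTop (𝓝 0) := by
    intro q
    rw [← hort q]
    apply tendsto_integral_of_dominated_convergence (fun z => C)
    · intro j
      apply AEStronglyMeasurable.mul
      · exact ((hψm j).comp measurable_norm).aestronglyMeasurable
      · exact ((Complex.measurable_ofReal.comp sq_meas).pow_const _).aestronglyMeasurable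
    · exact integrable_const C
    · intro j
      filter_upwards [ae_sq] with z hz
      rw [norm_mul, norm_pow, Complex.norm_real, Real.norm_of_nonneg hz.1.le]
      have h1 : sq z ^ (l + (q : ℕ)) ≤ 1 := pow_le_one₀ hz.1.le hz.2
      calc ‖ψ j ‖z‖‖ * sq z ^ (l + (q : ℕ)) ≤ C * 1 :=
            mul_le_mul (hψb _ _) h1 (by have := hz.1; positivity) hC0
        _ = C := mul_one C
    · filter_upwards [ae_ball] with z hz
      exact (hψlim _ hz).mul_const _
  -- equality for each radius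
  have hEq : ∀ j, ∫ z, ψ j ‖z‖ * (conj z ^ l * h z) ∂dA = ∑ q : Fin n,
      (((l + (q : ℕ)).factorial : ℂ)⁻¹ * iteratedDeriv (l + (q : ℕ)) (H q) 0) *
        ∫ z, ψ j ‖z‖ * ((sq z : ℝ) : ℂ) ^ (l + (q : ℕ)) ∂dA := by
    intro j
    have h1 : ∀ q : Fin n, ∫ z, ψ j ‖z‖ * (conj z ^ (l + (q : ℕ)) * H q z) ∂dA
        = (((l + (q : ℕ)).factorial : ℂ)⁻¹ * iteratedDeriv (l + (q : ℕ)) (H q) 0) *
        ∫ z, ψ j ‖z‖ * ((sq z : ℝ) : ℂ) ^ (l + (q : ℕ)) ∂dA := by
      intro q
      apply radial_holo (hH q) (hr0 j) (hr1 j) (hψm j) (hψb j)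
      intro t ht
      simp only [ψ]
      rw [if_pos ht]
    have hHb : ∀ q : Fin n, Integrable (fun z => ψ j ‖z‖ * (conj z ^ (l + (q : ℕ)) * H q z)) dA := by
      intro q
      obtain ⟨D, hD⟩ := (isCompact_closedBall (0 : ℂ) (r j)).exists_bound_of_continuousOn
        (f := H q) ((hH q).continuousOn.mono (Metric.closedBall_subset_ball (hr1 j)))
      have hm : AEStronglyMeasurable (fun z => ψ j ‖z‖ * (conj z ^ (l + (q : ℕ)) * H q z)) dA := by
        apply AEStronglyMeasurable.mul
        · exact ((hψm j).comp measurable_norm).aestronglyMeasurable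
        · apply AEStronglyMeasurable.mul
          · have : Continuous (fun z : ℂ => conj z ^ (l + (q : ℕ))) := by fun_prop
            exact this.aestronglyMeasurable
          · unfold dA
            apply AEStronglyMeasurable.smul_measure
            exact (hH q).continuousOn.aestronglyMeasurable measurableSet_ball
      apply int_bdd hm (C := C * (max D 0))
      filter_upwards [ae_ball] with z hz
      rw [norm_mul, norm_mul, norm_pow, RCLike.norm_conj]
      by_cases hzr : r j < ‖z‖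
      · simp only [ψ]
        rw [if_pos hzr, norm_zero, zero_mul]
        positivity
      · push Not at hzr
        have h2 : ‖z‖ ^ (l + (q : ℕ)) ≤ 1 := pow_le_one₀ (norm_nonneg _) hz.le
        have h3 : ‖H q z‖ ≤ max D 0 := (hD z (by simpa using hzr)).trans (le_max_left _ _)
        calc ‖ψ j ‖z‖‖ * (‖z‖ ^ (l + (q : ℕ)) * ‖H q z‖) ≤ C * (1 * max D 0) := by
              gcongr
              exact hψb _ _
          _ = C * max D 0 := by ring
    simp_rw [← h1]
    rw [← integral_finsetSum _ (fun q _ => hHb q)]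
    apply integral_congr_ae
    filter_upwards [hh] with z hz
    rw [hz, Finset.mul_sum, Finset.mul_sum]
    apply Finset.sum_congr rfl
    intro q _
    rw [pow_add]
    ring
  have hR : Tendsto (fun j => ∫ z, ψ j ‖z‖ * (conj z ^ l * h z) ∂dA) atTop (𝓝 0) := by
    simp_rw [hEq]
    have : Tendsto (fun j => ∑ q : Fin n,
      (((l + (q : ℕ)).factorial : ℂ)⁻¹ * iteratedDeriv (l + (q : ℕ)) (H q) 0) *
        ∫ z, ψ j ‖z‖ * ((sq z : ℝ) : ℂ) ^ (l + (q : ℕ)) ∂dA) atTop
        (𝓝 (∑ q : Fin n, (((l + (q : ℕ)).factorial : ℂ)⁻¹ *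
          iteratedDeriv (l + (q : ℕ)) (H q) 0) * 0)) :=
      tendsto_finsetSum _ fun q _ => (hRlim q).const_mul _
    simpa using this
  exact tendsto_nhds_unique hL hR

/-- bounded measurable functions on the disc -/
abbrev Linf0 : Type := Lp ℂ ∞ dA

/-- square integrable functions on the disc -/
abbrev L20 : Type := Lp ℂ 2 dA

lemma Linf_bdd (f : Linf0) : ∀ᵐ x ∂dA, ‖f x‖ ≤ ‖f‖ := by
  filter_upwards [enorm_ae_le_eLpNormEssSup (f : ℂ → ℂ) dA] with x hx
  rw [Lp.norm_def, eLpNorm_exponent_top]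
  have h1 : eLpNormEssSup (f : ℂ → ℂ) dA ≠ ∞ := by
    rw [← eLpNorm_exponent_top]; exact Lp.eLpNorm_ne_top f
  have h2 := ENNReal.toReal_mono h1 hx
  simpa using h2

/-- multiplication operator -/
noncomputable def mulOp (f : Linf0) : L20 →L[ℂ] L20 :=
  (ContinuousLinearMap.mul ℂ ℂ).holderL dA ∞ 2 2 f

lemma mulOp_coe (f : Linf0) (h : L20) : mulOp f h =ᵐ[dA] fun z => f z * h z := by
  have := (ContinuousLinearMap.mul ℂ ℂ).coeFn_holder (r := 2) f h
  exact this

/-- square integrable polyanalytic functions of order `n` -/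
noncomputable def polyan (n : ℕ) : Submodule ℂ L20 where
  carrier := {h | ∃ H : Fin n → ℂ → ℂ, (∀ q, DifferentiableOn ℂ (H q) (Metric.ball 0 1)) ∧
    ∀ᵐ z ∂dA, h z = ∑ q : Fin n, conj z ^ (q : ℕ) * H q z}
  add_mem' := by
    rintro a b ⟨H, h1, h2⟩ ⟨H', h1', h2'⟩
    refine ⟨fun q z => H q z + H' q z, fun q => (h1 q).add (h1' q), ?_⟩
    filter_upwards [h2, h2', Lp.coeFn_add a b] with z a1 a2 a3
    rw [a3, Pi.add_apply, a1, a2, ← Finset.sum_add_distrib]
    apply Finset.sum_congr rfl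
    intro q _; ring
  zero_mem' := by
    refine ⟨fun _ _ => 0, fun q => differentiableOn_const _, ?_⟩
    filter_upwards [Lp.coeFn_zero ℂ 2 dA] with z hz
    rw [hz]; simp
  smul_mem' := by
    rintro c a ⟨H, h1, h2⟩
    refine ⟨fun q z => c * H q z, fun q => (h1 q).const_mul c, ?_⟩
    filter_upwards [h2, Lp.coeFn_smul c a] with z a1 a2
    rw [a2, Pi.smul_apply, a1, smul_eq_mul, Finset.mul_sum]
    apply Finset.sum_congr rfl
    intro q _; ring

/-- the polyanalytic Bergman space -/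
noncomputable def A2 (n : ℕ) : Submodule ℂ L20 := (polyan n).topologicalClosure

noncomputable instance (n : ℕ) : (A2 n).HasOrthogonalProjection := by
  unfold A2; infer_instance

/-- Toeplitz operators -/
noncomputable def Toe (n : ℕ) (f : Linf0) : A2 n →L[ℂ] A2 n :=
  (A2 n).orthogonalProjectionOnto ∘L (mulOp f) ∘L (A2 n).subtypeL

lemma mono_bdd (p q : ℕ) : ∀ᵐ z ∂dA, ‖(z ^ p * conj z ^ q : ℂ)‖ ≤ 1 := by
  filter_upwards [ae_ball] with z hz
  rw [norm_mul, norm_pow, norm_pow, RCLike.norm_conj]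
  exact mul_le_one₀ (pow_le_one₀ (norm_nonneg _) hz.le) (by positivity)
    (pow_le_one₀ (norm_nonneg _) hz.le)

lemma mono_meas (p q : ℕ) : AEStronglyMeasurable (fun z : ℂ => z ^ p * conj z ^ q) dA := by
  have : Continuous (fun z : ℂ => z ^ p * conj z ^ q) := by fun_prop
  exact this.aestronglyMeasurable

/-- monomials -/
noncomputable def mono (p q : ℕ) : L20 :=
  (MemLp.of_bound (mono_meas p q) 1 (mono_bdd p q) : MemLp _ 2 dA).toLp _

lemma mono_coe (p q : ℕ) : mono p q =ᵐ[dA] fun z : ℂ => z ^ p * conj z ^ q :=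
  MemLp.coeFn_toLp _

lemma mono_mem {n : ℕ} (p : ℕ) (q : Fin n) : mono p q ∈ A2 n := by
  apply Submodule.le_topologicalClosure
  refine ⟨fun q' z => if q' = q then z ^ p else 0, fun q' => ?_, ?_⟩
  · by_cases hq : q' = q
    · simp only [hq, if_true]
      fun_prop
    · simp only [hq, if_false]
      fun_prop
  · filter_upwards [mono_coe p q] with z hz
    rw [hz]
    simp [mul_comm]

/-- the conjugate symbol -/
noncomputable def cj (f : Linf0) : Linf0 :=
  (MemLp.of_bound (Complex.continuous_conj.comp_aestronglyMeasurable (Lp.aestronglyMeasurable f)) ‖f‖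
    (by
      filter_upwards [Linf_bdd f] with z hz
      rw [RCLike.norm_conj]
      exact hz) : MemLp _ ∞ dA).toLp _

lemma cj_coe (f : Linf0) : cj f =ᵐ[dA] fun z => conj (f z) := MemLp.coeFn_toLp _

lemma inner_mul_left (f : Linf0) (u v : L20) :
    inner ℂ u (mulOp f v) = inner ℂ (mulOp (cj f) u) v := by
  rw [L2.inner_def, L2.inner_def]
  apply integral_congr_ae
  filter_upwards [mulOp_coe f v, mulOp_coe (cj f) u, cj_coe f] with z h1 h2 h3
  rw [h1, h2, h3]
  simp only [RCLike.inner_apply, map_mul, Complex.conj_conj]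
  ring

lemma Mo_nat (b : ℂ → ℂ) (k : ℕ) : Mo b (k : ℂ) = ∫ z, b z * ((sq z : ℝ) : ℂ) ^ k ∂dA := by
  unfold Mo
  simp_rw [Complex.cpow_natCast]

lemma orth_closure {n : ℕ} (u : L20) (h : ∀ w ∈ polyan n, inner ℂ u w = 0) :
    ∀ w ∈ A2 n, inner ℂ u w = 0 := by
  intro w hw
  have hcl : IsClosed {w : L20 | inner ℂ u w = 0} :=
    isClosed_eq (continuous_const.inner continuous_id) continuous_const
  exact closure_minimal h hcl hw

/-- the operator theoretic reduction -/
lemma op_core {n : ℕ} (hn : 1 ≤ n) (a b : Linf0) {φ : ℝ → ℂ} (hφm : Measurable φ)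
    (hφ : ∀ᵐ z ∂dA, b z = φ ‖z‖)
    (h : ∀ k h' : L20, k ∈ A2 n → h' ∈ A2 n →
      inner ℂ ((A2 n).starProjection (mulOp b k)) ((A2 n).starProjection (mulOp a h')) = 0)
    (l p : ℕ) : Dn n b l * ∫ z, a z * (z ^ p * conj z ^ l) ∂dA = 0 := by
  by_cases hD : Dn n b l = 0
  · rw [hD, zero_mul]
  -- truncated radial profile
  let β : ℝ → ℂ := fun r => if ‖φ r‖ ≤ ‖b‖ then φ r else 0
  have hβm : Measurable β := Measurable.ite (measurableSet_le hφm.norm measurable_const) hφm
    measurable_const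
  have hβb : ∀ r, ‖β r‖ ≤ ‖b‖ := by
    intro r
    simp only [β]
    split_ifs with h'
    · exact h'
    · simp
  have hβ : ∀ᵐ z ∂dA, b z = β ‖z‖ := by
    filter_upwards [hφ, Linf_bdd b] with z h1 h2
    simp only [β]
    rw [if_pos (by rw [← h1]; exact h2), h1]
  -- solve the linear system
  let Mx : Matrix (Fin n) (Fin n) ℂ := Matrix.of fun (s q : Fin n) => Mo b ((l : ℂ) + (s : ℕ) + (q : ℕ))
  have hdet : IsUnit Mx.det := isUnit_iff_ne_zero.2 hD
  let y : Fin n → ℂ := fun s => Mo (fun _ => 1) ((l : ℂ) + (s : ℕ))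
  let c : Fin n → ℂ := Mx⁻¹.mulVec y
  have hc : Mx.mulVec c = y := by
    simp only [c]
    rw [Matrix.mulVec_mulVec, Matrix.mul_nonsing_inv _ hdet, Matrix.one_mulVec]
  let kf : L20 := ∑ s : Fin n, c s • mono (l + s) s
  have hkf : kf ∈ A2 n := Submodule.sum_mem _ fun s _ => Submodule.smul_mem _ _ (mono_mem _ s)
  have hkfc : ∀ᵐ z ∂dA, kf z = ∑ s : Fin n, c s * (z ^ (l + (s : ℕ)) * conj z ^ (s : ℕ)) := by
    have h1 : (kf : ℂ → ℂ) =ᵐ[dA] ∑ s : Fin n, ((c s • mono (l + s) s : L20) : ℂ → ℂ) :=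
      Lp.coeFn_finsetSum _ _
    have h2 : ∀ᵐ z ∂dA, ∀ s : Fin n, (c s • mono (l + s) s : L20) z
        = c s * (z ^ (l + (s : ℕ)) * conj z ^ (s : ℕ)) := by
      rw [ae_all_iff]
      intro s
      filter_upwards [Lp.coeFn_smul (c s) (mono (l + s) s), mono_coe (l + s) s] with z a1 a2
      rw [a1, Pi.smul_apply, a2, smul_eq_mul]
    filter_upwards [h1, h2] with z a1 a2
    rw [a1, Finset.sum_apply]
    exact Finset.sum_congr rfl fun s _ => a2 s
  -- the radial profile of the difference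
  let Φ : ℝ → ℂ := fun r => if |r| < 1 then
    β r * ∑ s : Fin n, c s * (((r ^ 2 : ℝ)) : ℂ) ^ (s : ℕ) - 1 else 0
  have hΦm : Measurable Φ := by
    apply Measurable.ite
    · exact measurableSet_lt (by fun_prop) measurable_const
    · apply Measurable.sub _ measurable_const
      apply hβm.mul
      refine Finset.measurable_fun_sum (s := Finset.univ)
        (f := fun (s : Fin n) (r : ℝ) => c s * (((r ^ 2 : ℝ)) : ℂ) ^ (s : ℕ)) (fun s _ => ?_)
      fun_prop
    · exact measurable_const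
  have hΦb : ∀ r, ‖Φ r‖ ≤ ‖b‖ * (∑ s : Fin n, ‖c s‖) + 1 := by
    intro r
    simp only [Φ]
    split_ifs with hr
    · refine (norm_sub_le _ _).trans ?_
      rw [norm_one, norm_mul]
      have h2 : ‖∑ s : Fin n, c s * (((r ^ 2 : ℝ)) : ℂ) ^ (s : ℕ)‖ ≤ ∑ s : Fin n, ‖c s‖ := by
        refine (norm_sum_le _ _).trans (Finset.sum_le_sum fun s _ => ?_)
        rw [norm_mul, norm_pow, Complex.norm_real, Real.norm_of_nonneg (by positivity)]
        have h3 : r ^ 2 ≤ 1 := by
          rw [← sq_abs]; have := abs_nonneg r; nlinarith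
        have := pow_le_one₀ (n := (s : ℕ)) (by positivity : (0:ℝ) ≤ r ^ 2) h3
        calc _ ≤ ‖c s‖ * 1 := mul_le_mul_of_nonneg_left this (norm_nonneg _)
          _ = ‖c s‖ := mul_one _
      have := mul_le_mul (hβb r) h2 (norm_nonneg _) (norm_nonneg _)
      linarith
    · rw [norm_zero]; positivity
  have hΦz : ∀ᵐ z ∂dA, Φ ‖z‖ = b z * ∑ s : Fin n, c s * ((sq z : ℝ) : ℂ) ^ (s : ℕ) - 1 := by
    filter_upwards [ae_ball, hβ] with z h1 h2
    simp only [Φ]
    rw [if_pos (by rwa [abs_of_nonneg (norm_nonneg _)]), h2]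
    rfl
  have hsqc : ∀ z : ℂ, ((sq z : ℝ) : ℂ) = z * conj z := by
    intro z
    rw [Complex.mul_conj, Complex.normSq_eq_norm_sq]; rfl
  have hu : ∀ᵐ z ∂dA, (mulOp b kf - mono l 0 : L20) z = z ^ l * Φ ‖z‖ := by
    filter_upwards [Lp.coeFn_sub (mulOp b kf) (mono l 0), mulOp_coe b kf, mono_coe l 0, hkfc, hΦz]
      with z a1 a2 a3 a4 a5
    rw [a1, Pi.sub_apply, a2, a3, a4, a5]
    have : ∑ s : Fin n, c s * (z ^ (l + (s : ℕ)) * conj z ^ (s : ℕ))
        = z ^ l * ∑ s : Fin n, c s * ((sq z : ℝ) : ℂ) ^ (s : ℕ) := by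
      rw [Finset.mul_sum]
      apply Finset.sum_congr rfl
      intro s _
      rw [hsqc, mul_pow, pow_add]
      ring
    rw [this]
    ring
  -- moments of the profile
  have hi1 : ∀ k : ℕ, Integrable (fun z => b z * ((sq z : ℝ) : ℂ) ^ k) dA := by
    intro k
    apply int_bdd (C := ‖b‖) ((Lp.aestronglyMeasurable b).mul
      ((Complex.measurable_ofReal.comp sq_meas).pow_const _).aestronglyMeasurable)
    filter_upwards [Linf_bdd b, ae_sq] with z h1 h2
    rw [Pi.mul_apply, norm_mul, norm_pow, Function.comp_apply, Complex.norm_real,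
      Real.norm_of_nonneg h2.1.le]
    have h3 := pow_le_one₀ (n := k) h2.1.le h2.2
    calc ‖b z‖ * sq z ^ k ≤ ‖b‖ * 1 :=
          mul_le_mul h1 h3 (by have := h2.1; positivity) (norm_nonneg _)
      _ = ‖b‖ := mul_one _
  have hi2 : ∀ k : ℕ, Integrable (fun z : ℂ => ((sq z : ℝ) : ℂ) ^ k) dA := by
    intro k
    apply int_bdd (C := 1) ((Complex.measurable_ofReal.comp sq_meas).pow_const _).aestronglyMeasurable
    filter_upwards [ae_sq] with z h2
    rw [norm_pow, Function.comp_apply, Complex.norm_real, Real.norm_of_nonneg h2.1.le]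
    exact pow_le_one₀ h2.1.le h2.2
  have hmom : ∀ q : Fin n, ∫ z, Φ ‖z‖ * ((sq z : ℝ) : ℂ) ^ (l + (q : ℕ)) ∂dA = 0 := by
    intro q
    have h1 := congrFun hc q
    have h2 : Mx.mulVec c q = ∑ s : Fin n, c s * ∫ z, b z * ((sq z : ℝ) : ℂ) ^ (l + (q : ℕ) + (s : ℕ)) ∂dA := by
      simp only [Matrix.mulVec, dotProduct, Mx, Matrix.of_apply]
      apply Finset.sum_congr rfl
      intro s _
      rw [mul_comm, ← Mo_nat]
      congr 2
      push_cast
      ring
    have h3 : y q = ∫ z, ((sq z : ℝ) : ℂ) ^ (l + (q : ℕ)) ∂dA := by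
      simp only [y]
      rw [show ((l : ℂ) + (q : ℕ)) = ((l + (q : ℕ) : ℕ) : ℂ) by push_cast; rfl, Mo_nat]
      simp
    rw [h2, h3] at h1
    have e : ∫ z, Φ ‖z‖ * ((sq z : ℝ) : ℂ) ^ (l + (q : ℕ)) ∂dA
        = ∫ z, (∑ s : Fin n, c s * (b z * ((sq z : ℝ) : ℂ) ^ (l + (q : ℕ) + (s : ℕ)))
          - ((sq z : ℝ) : ℂ) ^ (l + (q : ℕ))) ∂dA := by
      apply integral_congr_ae
      filter_upwards [hΦz] with z hz
      rw [hz, sub_mul, one_mul, Finset.mul_sum, Finset.sum_mul]
      congr 1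
      apply Finset.sum_congr rfl
      intro s _
      rw [pow_add _ (l + (q : ℕ))]
      ring
    rw [e, integral_sub (integrable_finsetSum _ fun s _ => (hi1 _).const_mul _) (hi2 _),
      integral_finsetSum _ (fun s _ => (hi1 _).const_mul _)]
    simp_rw [integral_const_mul]
    rw [h1, sub_self]
  have hproj : (A2 n).starProjection (mulOp b kf) = mono l 0 := by
    apply Submodule.eq_starProjection_of_mem_of_inner_eq_zero
    · exact mono_mem l ⟨0, hn⟩
    · apply orth_closure
      rintro w ⟨H, hH, hw⟩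
      have hwint : Integrable (w : ℂ → ℂ) dA := (Lp.memLp w).integrable (by norm_num)
      have h1 := orth_poly hwint hH hw (φ := fun r => conj (Φ r))
        (Complex.continuous_conj.measurable.comp hΦm) (C := ‖b‖ * (∑ s : Fin n, ‖c s‖) + 1)
        (fun r => by rw [RCLike.norm_conj]; exact hΦb r) l (by
          intro q
          have h2 : ∫ z, conj (Φ ‖z‖) * ((sq z : ℝ) : ℂ) ^ (l + (q : ℕ)) ∂dA
              = conj (∫ z, Φ ‖z‖ * ((sq z : ℝ) : ℂ) ^ (l + (q : ℕ)) ∂dA) := by
            rw [← integral_conj]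
            congr 1; funext z
            rw [map_mul, map_pow, Complex.conj_ofReal]
          rw [h2, hmom q, map_zero])
      rw [L2.inner_def, ← h1]
      apply integral_congr_ae
      filter_upwards [hu] with z hz
      rw [hz]
      simp only [RCLike.inner_apply, map_mul, map_pow]
      ring
  have h4 := h kf (mono p 0) hkf (mono_mem p ⟨0, hn⟩)
  rw [hproj, ← Submodule.inner_starProjection_left_eq_right,
    Submodule.starProjection_eq_self_iff.2 (mono_mem l ⟨0, hn⟩)] at h4
  have h5 : inner ℂ (mono l 0) (mulOp a (mono p 0)) = ∫ z, a z * (z ^ p * conj z ^ l) ∂dA := by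
    rw [L2.inner_def]
    apply integral_congr_ae
    filter_upwards [mono_coe l 0, mono_coe p 0, mulOp_coe a (mono p 0)] with z a1 a2 a3
    rw [a1, a3, a2]
    simp only [RCLike.inner_apply, pow_zero, mul_one, map_pow]
    ring
  rw [← h5, h4, mul_zero]

/-- symmetric form of the theorem -/
lemma sym_core {n : ℕ} (hn : 1 ≤ n) (a b : Linf0)
    (hrad : ∃ φ : ℝ → ℂ, Measurable φ ∧ ∀ᵐ z ∂dA, b z = φ ‖z‖)
    (h : ∀ k h' : L20, k ∈ A2 n → h' ∈ A2 n →
      inner ℂ ((A2 n).starProjection (mulOp b k)) ((A2 n).starProjection (mulOp a h')) = 0) :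
    (∀ᵐ z ∂dA, a z = 0) ∨ (∀ᵐ z ∂dA, b z = 0) := by
  obtain ⟨φ, hφm, hφ⟩ := hrad
  have hop := op_core hn a b hφm hφ h
  by_cases hb0 : ∀ᵐ z ∂dA, b z = 0
  · exact Or.inr hb0
  left
  -- all moments of `a * sq` vanish
  have hmom : ∀ p l : ℕ, ∫ z, (a z * ((sq z : ℝ) : ℂ)) * (z ^ p * conj z ^ l) ∂dA = 0 := by
    intro p l
    let a' : ℂ → ℂ := fun z => a z * (z ^ p * conj z ^ l)
    let b' : ℂ → ℂ := fun z => b z * ((sq z : ℝ) : ℂ) ^ l
    have ha'm : AEStronglyMeasurable a' dA := (Lp.aestronglyMeasurable a).mul (mono_meas p l)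
    have ha'b : ∀ᵐ z ∂dA, ‖a' z‖ ≤ ‖a‖ := by
      filter_upwards [Linf_bdd a, mono_bdd p l] with z h1 h2
      simp only [a']
      rw [norm_mul]
      calc _ ≤ ‖a‖ * 1 := mul_le_mul h1 h2 (norm_nonneg _) (norm_nonneg _)
        _ = ‖a‖ := mul_one _
    have hb'm : AEStronglyMeasurable b' dA := (Lp.aestronglyMeasurable b).mul
      ((Complex.measurable_ofReal.comp sq_meas).pow_const _).aestronglyMeasurable
    have hb'b : ∀ᵐ z ∂dA, ‖b' z‖ ≤ ‖b‖ := by
      filter_upwards [Linf_bdd b, ae_sq] with z h1 h2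
      simp only [b']
      rw [norm_mul, norm_pow, Complex.norm_real, Real.norm_of_nonneg h2.1.le]
      have h3 := pow_le_one₀ (n := l) h2.1.le h2.2
      calc ‖b z‖ * sq z ^ l ≤ ‖b‖ * 1 :=
            mul_le_mul h1 h3 (by have := h2.1; positivity) (norm_nonneg _)
        _ = ‖b‖ := mul_one _
    have hb'r : ∀ᵐ z ∂dA, b' z = (fun r : ℝ => φ r * (((r ^ 2 : ℝ)) : ℂ) ^ l) ‖z‖ := by
      filter_upwards [hφ] with z hz
      simp only [b', hz, sq]
    have hsqc : ∀ z : ℂ, ((sq z : ℝ) : ℂ) = z * conj z := by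
      intro z
      rw [Complex.mul_conj, Complex.normSq_eq_norm_sq]; rfl
    have hprod : ∀ k : ℕ, Dn n b' k * Mo a' k = 0 := by
      intro k
      have h1 := hop (l + k) (p + k)
      have h2 : Dn n b' k = Dn n b ((l + k : ℕ) : ℂ) := by
        unfold Dn
        congr 1
        ext s q
        simp only [Matrix.of_apply]
        rw [show ((k : ℂ) + (s : ℕ) + (q : ℕ)) = ((k + (s : ℕ) + (q : ℕ) : ℕ) : ℂ) by push_cast; rfl,
          show (((l + k : ℕ) : ℂ) + (s : ℕ) + (q : ℕ)) = ((l + k + (s : ℕ) + (q : ℕ) : ℕ) : ℂ) by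
            push_cast; rfl, Mo_nat, Mo_nat]
        congr 1; funext z
        simp only [b']
        rw [mul_assoc, ← pow_add]
        congr 2
        ring
      have h3 : Mo a' k = ∫ z, a z * (z ^ (p + k) * conj z ^ (l + k)) ∂dA := by
        rw [Mo_nat]
        congr 1; funext z
        simp only [a']
        rw [hsqc, mul_pow, pow_add, pow_add]
        ring
      rw [h2, h3, h1]
    rcases core ha'm ha'b hb'm hb'b (φ := fun r : ℝ => φ r * (((r ^ 2 : ℝ)) : ℂ) ^ l) hb'r n hprod
      with h1 | h1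
    · exfalso
      apply hb0
      filter_upwards [h1, ae_sq] with z h2 h3
      simp only [b'] at h2
      rcases mul_eq_zero.1 h2 with h4 | h4
      · exact h4
      · exfalso
        have h5 : ((sq z : ℝ) : ℂ) = 0 := eq_zero_of_pow_eq_zero h4
        rw [Complex.ofReal_eq_zero] at h5
        exact h3.1.ne' h5
    · have h2 := h1 1 one_pos
      rw [show (((1 : ℝ)) : ℂ) = ((1 : ℕ) : ℂ) by push_cast; rfl, Mo_nat] at h2
      rw [← h2]
      congr 1; funext z
      simp only [a', pow_one]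
      ring
  have hW := ae_zero_of_moments (W := fun z => a z * ((sq z : ℝ) : ℂ)) (C := ‖a‖)
    ((Lp.aestronglyMeasurable a).mul (Complex.measurable_ofReal.comp sq_meas).aestronglyMeasurable)
    (by
      filter_upwards [Linf_bdd a, ae_sq] with z h1 h2
      rw [norm_mul, Complex.norm_real, Real.norm_of_nonneg h2.1.le]
      calc _ ≤ ‖a‖ * 1 := mul_le_mul h1 h2.2 h2.1.le (norm_nonneg _)
        _ = ‖a‖ := mul_one _) hmom
  filter_upwards [hW, ae_sq] with z h1 h2
  rcases mul_eq_zero.1 h1 with h3 | h3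
  · exact h3
  · rw [Complex.ofReal_eq_zero] at h3
    exact absurd h3 h2.1.ne'

/-- `f` is radial: it depends only on `|z|`, almost everywhere -/
def IsRadial0 (f : Linf0) : Prop := ∃ φ : ℝ → ℂ, Measurable φ ∧ ∀ᵐ z ∂dA, f z = φ ‖z‖

theorem result0 (n : ℕ) (hn : 1 ≤ n) (f g : Linf0) (hrad : IsRadial0 f ∨ IsRadial0 g)
    (h : Toe n f ∘L Toe n g = 0) : f = 0 ∨ g = 0 := by
  -- bilinear form of the hypothesis
  have hbil : ∀ k h' : L20, k ∈ A2 n → h' ∈ A2 n →
      inner ℂ ((A2 n).starProjection (mulOp (cj f) k)) ((A2 n).starProjection (mulOp g h')) = 0 := by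
    intro k h' hk hh'
    have h1 : (Toe n f ∘L Toe n g) ⟨h', hh'⟩ = 0 := by rw [h]; rfl
    have h2 : (A2 n).starProjection (mulOp f ((A2 n).starProjection (mulOp g h'))) = 0 := by
      have := congrArg (fun x : A2 n => (x : L20)) h1
      exact this
    rw [Submodule.inner_starProjection_left_eq_right, Submodule.starProjection_eq_self_iff.2
      (Submodule.starProjection_apply_mem _ _), ← inner_mul_left]
    have h3 : inner ℂ ((A2 n).starProjection k)
        (mulOp f ((A2 n).starProjection (mulOp g h'))) = 0 := by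
      rw [Submodule.inner_starProjection_left_eq_right, h2, inner_zero_right]
    rwa [Submodule.starProjection_eq_self_iff.2 hk] at h3
  have hzero : ∀ u : Linf0, (∀ᵐ z ∂dA, u z = 0) → u = 0 := by
    intro u hu
    apply Lp.ext
    filter_upwards [hu, Lp.coeFn_zero ℂ ∞ dA] with z h1 h2
    rw [h1, h2]; rfl
  have hcj0 : (∀ᵐ z ∂dA, cj f z = 0) → f = 0 := by
    intro hu
    apply hzero
    filter_upwards [hu, cj_coe f] with z h1 h2
    rw [h2] at h1
    simpa using h1
  rcases hrad with hr | hr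
  · -- `f` radial
    obtain ⟨φ, hφm, hφ⟩ := hr
    have hr' : ∃ φ : ℝ → ℂ, Measurable φ ∧ ∀ᵐ z ∂dA, cj f z = φ ‖z‖ := by
      refine ⟨fun r => conj (φ r), Complex.continuous_conj.measurable.comp hφm, ?_⟩
      filter_upwards [hφ, cj_coe f] with z h1 h2
      rw [h2, h1]
    rcases sym_core hn g (cj f) hr' hbil with h1 | h1
    · exact Or.inr (hzero g h1)
    · exact Or.inl (hcj0 h1)
  · -- `g` radial
    have hbil' : ∀ k h' : L20, k ∈ A2 n → h' ∈ A2 n →
        inner ℂ ((A2 n).starProjection (mulOp g k)) ((A2 n).starProjection (mulOp (cj f) h')) = 0 := by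
      intro k h' hk hh'
      exact inner_eq_zero_symm.1 (hbil h' k hh' hk)
    rcases sym_core hn (cj f) g hr hbil' with h1 | h1
    · exact Or.inl (hcj0 h1)
    · exact Or.inr (hzero g h1)

end Pool.Agent.H174.Polyan
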